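import Pool.Agent.H77.ChowDim

/-!
# Certificates for Koszulness of a quotient of a polynomial ring
-/

namespace H77.Chow

open MvPolynomial Module

section Quot

variable {σ : Type*} [Finite σ] (I : Ideal (MvPolynomial σ ℚ))

/-- The graded pieces of `P/I`. -/
noncomputable def qPiece (i : ℕ) : Submodule ℚ (MvPolynomial σ ℚ ⧸ I) :=
  (homogeneousSubmodule σ ℚ i).map (Ideal.Quotient.mkₐ ℚ I).toLinearMap

lemma mem_qPiece {i : ℕ} {a : MvPolynomial σ ℚ ⧸ I} :
    a ∈ qPiece I i ↔ ∃ f ∈ homogeneousSubmodule σ ℚ i, Ideal.Quotient.mk I f = a := Iff.rfl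

variable {I}

/-- The projections of `P/I` onto its graded pieces. -/
noncomputable def qProj (hI : IsHomog I) (i : ℕ) :
    (MvPolynomial σ ℚ ⧸ I) →ₗ[ℚ] (MvPolynomial σ ℚ ⧸ I) :=
  (Submodule.Quotient.restrictScalarsEquiv ℚ I).toLinearMap ∘ₗ
    (Submodule.mapQ (I.restrictScalars ℚ) (I.restrictScalars ℚ) (homogeneousComponent i)
      (fun f hf => hI f hf i)) ∘ₗ
    (Submodule.Quotient.restrictScalarsEquiv ℚ I).symm.toLinearMap

lemma qProj_mk (hI : IsHomog I) (i : ℕ) (f : MvPolynomial σ ℚ) :
    qProj hI i (Ideal.Quotient.mk I f) = Ideal.Quotient.mk I (homogeneousComponent i f) := rfl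

lemma qProj_spec (hI : IsHomog I) : GrProj (qPiece I) (qProj hI) where
  mem := by
    intro i a
    obtain ⟨f, rfl⟩ := Ideal.Quotient.mk_surjective a
    rw [qProj_mk]
    exact ⟨_, homogeneousComponent_mem _ _, rfl⟩
  self := by
    rintro i _ ⟨f, hf, rfl⟩
    change qProj hI i (Ideal.Quotient.mk I f) = Ideal.Quotient.mk I f
    rw [qProj_mk, homogeneousComponent_eq_self hf]
  mul := by
    rintro i a _ ⟨g, hg, rfl⟩
    obtain ⟨f, rfl⟩ := Ideal.Quotient.mk_surjective a
    change qProj hI (i + 1) (Ideal.Quotient.mk I f * Ideal.Quotient.mk I g) =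
      _ * Ideal.Quotient.mk I g
    rw [← map_mul, qProj_mk, qProj_mk, ← map_mul, homComp_mul hg]
  mul_mem := by
    rintro _ _ ⟨f, hf, rfl⟩ ⟨g, hg, rfl⟩
    exact ⟨f * g, IsHomogeneous.mul hf hg, rfl⟩

lemma finrank_qPiece (i : ℕ) : finrank ℚ (qPiece I i) = hf I i := by
  let f := (Ideal.Quotient.mkₐ ℚ I).toLinearMap
  have h1 := LinearMap.finrank_range_add_finrank_ker (f.domRestrict (homogeneousSubmodule σ ℚ i))
  rw [LinearMap.range_domRestrict, LinearMap.ker_domRestrict] at h1
  have h2 : finrank ℚ (Submodule.comap (homogeneousSubmodule σ ℚ i).subtype (LinearMap.ker f)) =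
      finrank ℚ (KP I i) := by
    have e1 : KP I i = (Submodule.comap (homogeneousSubmodule σ ℚ i).subtype
        (LinearMap.ker f)).map (homogeneousSubmodule σ ℚ i).subtype := by
      rw [Submodule.map_comap_subtype, inf_comm]
      have e2 : I.restrictScalars ℚ = LinearMap.ker f := by
        ext x
        exact (Ideal.Quotient.eq_zero_iff_mem (I := I) (a := x)).symm
      rw [KP, e2]
    rw [e1]
    exact (Submodule.equivMapOfInjective _ (Submodule.subtype_injective _) _).finrank_eq
  have h3 := hf_add I i
  change finrank ℚ ((homogeneousSubmodule σ ℚ i).map f) = _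
  omega

end Quot

section Cert

variable {σ : Type*} [Finite σ] {m : ℕ} (e : Fin m ≃ σ) (I : Ideal (MvPolynomial σ ℚ))

/-- The ideal generated by `I` and the variables in the bit mask `U`. -/
noncomputable def KU (U : ℕ) : Ideal (MvPolynomial σ ℚ) :=
  I ⊔ Ideal.span {p | ∃ v : Fin m, U.testBit v = true ∧ p = X (e v)}

variable {e I}

lemma X_mem_KU {U : ℕ} {v : Fin m} (h : U.testBit v = true) : X (e v) ∈ KU e I U :=
  Submodule.mem_sup_right (Ideal.subset_span ⟨v, h, rfl⟩)

lemma I_le_KU (U : ℕ) : I ≤ KU e I U := le_sup_left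

lemma KU_le {U : ℕ} {J : Ideal (MvPolynomial σ ℚ)} (h1 : I ≤ J)
    (h2 : ∀ v : Fin m, U.testBit v = true → X (e v) ∈ J) : KU e I U ≤ J := by
  refine sup_le h1 (Ideal.span_le.2 ?_)
  rintro _ ⟨v, hv, rfl⟩
  exact h2 v hv

lemma KU_isHomog (hI : IsHomog I) (U : ℕ) : IsHomog (KU e I U) := by
  apply hI.sup
  apply isHomog_span
  rintro _ ⟨v, _, rfl⟩
  exact ⟨1, isHomogeneous_X _ _⟩

lemma KU_zero : KU e I 0 = I := by
  apply le_antisymm
  · apply KU_le le_rfl
    intro v hv
    simp at hv
  · exact I_le_KU 0

lemma KU_or_two_pow (U : ℕ) (v : Fin m) :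
    KU e I (U ||| 2 ^ (v : ℕ)) = KU e I U ⊔ Ideal.span {X (e v)} := by
  apply le_antisymm
  · apply KU_le (le_sup_of_le_left (I_le_KU U))
    intro w hw
    rw [Nat.testBit_or, Bool.or_eq_true] at hw
    rcases hw with hw | hw
    · exact Submodule.mem_sup_left (X_mem_KU hw)
    · rw [Nat.testBit_two_pow] at hw
      have : v = w := Fin.ext (by simpa using hw)
      subst this
      exact Submodule.mem_sup_right (Ideal.mem_span_singleton_self _)
  · apply sup_le
    · apply KU_le (I_le_KU _)
      intro w hw
      apply X_mem_KU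
      rw [Nat.testBit_or, hw, Bool.true_or]
    · rw [Ideal.span_singleton_le_iff_mem]
      apply X_mem_KU
      rw [Nat.testBit_or, Nat.testBit_two_pow_self, Bool.or_true]

/-- Unit propagation along a linear relation with mask `l`. -/
def clStep (full : ℕ) (U l : ℕ) : ℕ :=
  let r := l &&& (full ^^^ U)
  if r = 2 ^ Nat.log2 r then U ||| r else U

/-- Repeated unit propagation. -/
def cl (full : ℕ) (lin : List ℕ) : ℕ → ℕ → ℕ
  | 0, U => U
  | k + 1, U => cl full lin k (lin.foldl (clStep full) U)

lemma KU_clStep {full : ℕ} (hfull : ∀ v : Fin m, full.testBit v = true) {l : ℕ} (hl : l < 2 ^ m)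
    (hrel : (∑ v : Fin m, if l.testBit v = true then (X (e v) : MvPolynomial σ ℚ) else 0) ∈ I)
    (U : ℕ) : KU e I (clStep full U l) = KU e I U := by
  unfold clStep
  simp only
  split_ifs with h
  · set r := l &&& (full ^^^ U) with hr
    have hrb : ∀ v : Fin m, r.testBit v = true ↔ (l.testBit v = true ∧ U.testBit v = false) := by
      intro v
      rw [hr, Nat.testBit_and, Nat.testBit_xor, hfull v]
      simp
    have hr' : ∀ v : ℕ, r.testBit v = true ↔ Nat.log2 r = v := by
      intro v
      conv_lhs => rw [h]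
      rw [Nat.testBit_two_pow]
      simp
    have hrm : r.testBit (Nat.log2 r) = true := (hr' _).2 rfl
    have hlt : Nat.log2 r < m := by
      by_contra hcon
      push Not at hcon
      rw [hr, Nat.testBit_and] at hrm
      have : l.testBit (Nat.log2 (l &&& (full ^^^ U))) = false := by
        apply Nat.testBit_lt_two_pow
        exact lt_of_lt_of_le hl (Nat.pow_le_pow_right (by norm_num) hcon)
      rw [this] at hrm
      simp at hrm
    let s : Fin m := ⟨Nat.log2 r, hlt⟩
    have hs : r.testBit s = true := hrm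
    have hsl := (hrb s).1 hs
    apply le_antisymm
    · apply KU_le (I_le_KU U)
      intro v hv
      rw [Nat.testBit_or, Bool.or_eq_true] at hv
      rcases hv with hv | hv
      · exact X_mem_KU hv
      · have hvs : v = s := Fin.ext ((hr' v).1 hv).symm
        subst hvs
        have h1 := I_le_KU (e := e) U hrel
        rw [← Finset.add_sum_erase _ _ (Finset.mem_univ s), if_pos hsl.1] at h1
        refine (Submodule.add_mem_iff_left _ ?_).1 h1
        refine Submodule.sum_mem _ fun w hw => ?_
        have hws : w ≠ s := (Finset.mem_erase.1 hw).1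
        split_ifs with hwl
        · apply X_mem_KU
          by_contra hcon
          have : U.testBit w = false := by simpa using hcon
          have := (hr' w).1 ((hrb w).2 ⟨hwl, this⟩)
          exact hws (Fin.ext this.symm)
        · exact Submodule.zero_mem _
    · apply KU_le (I_le_KU _)
      intro v hv
      apply X_mem_KU
      rw [Nat.testBit_or, hv, Bool.true_or]
  · rfl

lemma KU_cl {full : ℕ} (hfull : ∀ v : Fin m, full.testBit v = true) {lin : List ℕ}
    (hlt : ∀ l ∈ lin, l < 2 ^ m)
    (hrel : ∀ l ∈ lin,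
      (∑ v : Fin m, if l.testBit v = true then (X (e v) : MvPolynomial σ ℚ) else 0) ∈ I)
    (k U : ℕ) : KU e I (cl full lin k U) = KU e I U := by
  have hfold : ∀ (lin' : List ℕ), (∀ l ∈ lin', l ∈ lin) → ∀ U,
      KU e I (lin'.foldl (clStep full) U) = KU e I U := by
    intro lin'
    induction lin' with
    | nil => intro _ U; rfl
    | cons l lin' ih =>
      intro h U
      rw [List.foldl_cons, ih (fun x hx => h x (List.mem_cons_of_mem _ hx)),
        KU_clStep hfull (hlt l (h l List.mem_cons_self)) (hrel l (h l List.mem_cons_self))]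
  induction k generalizing U with
  | zero => rfl
  | succ k ih =>
    rw [cl, ih, hfold lin (fun _ h => h)]

/-- The certificate data: for each node (a bit mask), its Hilbert function, an upward pointer
`(v, a, b)` and a downward pointer `(v, j, c)`. -/
structure Node where
  U : ℕ
  F : List ℕ
  up : ℕ × ℕ × ℕ
  kf : Bool
  dn : ℕ × ℕ × ℕ
  deriving Inhabited

/-- The relation `F_j = F_a + t F_c` between Hilbert functions, checked in degrees below `D`. -/
def relF (D : ℕ) (Fj Fa Fc : List ℕ) : Bool :=
  (List.range D).all fun d => Fj.getD (d + 1) 0 == Fa.getD (d + 1) 0 + Fc.getD d 0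

/-- Check of a link `(j; v, a, c)`. -/
def linkOK (m D full : ℕ) (lin inc : List ℕ) (nodes : List Node) (j v a c : ℕ) : Bool :=
  let J := nodes.getD j default
  let A := nodes.getD a default
  let C := nodes.getD c default
  decide (v < m) && decide (j < nodes.length) && decide (a < nodes.length) &&
    decide (c < nodes.length) &&
  (cl full lin lin.length (J.U ||| 2 ^ v) == cl full lin lin.length A.U) &&
  (cl full lin lin.length (J.U ||| inc.getD v 0) == cl full lin lin.length C.U) &&
  relF D J.F A.F C.F

/-- The full check. -/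
def certOK (m D full : ℕ) (lin inc : List ℕ) (nodes : List Node) : Bool :=
  (List.range nodes.length).all fun i =>
    let N := nodes.getD i default
    decide (N.F.length ≤ D) && decide (N.F.getD 0 0 = 1) &&
    (if i + 1 = nodes.length then N.U == full && N.kf else
      linkOK m D full lin inc nodes i N.up.1 N.up.2.1 N.up.2.2 &&
        decide (i < N.up.2.1) && decide (i < N.up.2.2)) &&
    (if i = 0 then N.U == 0 else
      !N.kf || (linkOK m D full lin inc nodes N.dn.2.1 N.dn.1 i N.dn.2.2 &&
        decide (N.dn.2.1 < i) && (nodes.getD N.dn.2.1 default).kf &&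
        (nodes.getD N.dn.2.2 default).kf))

lemma relF_spec {D : ℕ} {Fj Fa Fc : List ℕ} (h : relF D Fj Fa Fc = true)
    (hj : Fj.length ≤ D) (ha : Fa.length ≤ D) (hc : Fc.length ≤ D) (d : ℕ) :
    Fj.getD (d + 1) 0 = Fa.getD (d + 1) 0 + Fc.getD d 0 := by
  by_cases hd : d < D
  · simp only [relF, List.all_eq_true, List.mem_range, beq_iff_eq] at h
    exact h d hd
  · push Not at hd
    rw [List.getD_eq_default _ _ (by omega), List.getD_eq_default _ _ (by omega),
      List.getD_eq_default _ _ (by omega)]

/-- The hypotheses under which the certificate is sound. -/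
structure CertHyp (e : Fin m ≃ σ) (I : Ideal (MvPolynomial σ ℚ)) (full : ℕ) (lin inc : List ℕ) :
    Prop where
  hfull : ∀ v : Fin m, full.testBit v = true
  hlt : ∀ l ∈ lin, l < 2 ^ m
  hrel : ∀ l ∈ lin,
      (∑ v : Fin m, if l.testBit v = true then (X (e v) : MvPolynomial σ ℚ) else 0) ∈ I
  hinc : ∀ v u : Fin m, (inc.getD v 0).testBit u = true → X (e v) * X (e u) ∈ I
  hI : IsHomog I

section Sound

variable {D full : ℕ} {lin inc : List ℕ} {nodes : List Node}

lemma link_spec (H : CertHyp e I full lin inc) {j v a c : ℕ}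
    (h : linkOK m D full lin inc nodes j v a c = true) :
    ∃ v' : Fin m, j < nodes.length ∧ a < nodes.length ∧ c < nodes.length ∧
      KU e I (nodes.getD a default).U =
        KU e I (nodes.getD j default).U ⊔ Ideal.span {X (e v')} ∧
      (∀ f ∈ KU e I (nodes.getD c default).U, X (e v') * f ∈ KU e I (nodes.getD j default).U) ∧
      relF D (nodes.getD j default).F (nodes.getD a default).F (nodes.getD c default).F = true
    := by
  simp only [linkOK, Bool.and_eq_true, decide_eq_true_eq, beq_iff_eq] at h
  obtain ⟨⟨⟨⟨⟨⟨hv, hj⟩, ha⟩, hc⟩, h1⟩, h2⟩, h3⟩ := h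
  refine ⟨⟨v, hv⟩, hj, ha, hc, ?_, ?_, h3⟩
  · rw [← KU_or_two_pow, ← KU_cl H.hfull H.hlt H.hrel lin.length (nodes.getD a default).U, ← h1,
      KU_cl H.hfull H.hlt H.hrel]
  · intro f hf
    rw [← KU_cl H.hfull H.hlt H.hrel lin.length (nodes.getD c default).U, ← h2,
      KU_cl H.hfull H.hlt H.hrel] at hf
    have : KU e I ((nodes.getD j default).U ||| inc.getD v 0) ≤
        Submodule.comap (LinearMap.mulLeft (MvPolynomial σ ℚ) (X (e ⟨v, hv⟩)))
          (KU e I (nodes.getD j default).U) := by
      apply KU_le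
      · intro g hg
        exact Ideal.mul_mem_left _ _ (I_le_KU _ hg)
      · intro w hw
        rw [Nat.testBit_or, Bool.or_eq_true] at hw
        rcases hw with hw | hw
        · exact Ideal.mul_mem_left _ _ (X_mem_KU hw)
        · exact I_le_KU _ (H.hinc ⟨v, hv⟩ w hw)
    exact this hf

lemma cert_node (h : certOK m D full lin inc nodes = true) {i : ℕ} (hi : i < nodes.length) :
    ((nodes.getD i default).F.length ≤ D ∧ (nodes.getD i default).F.getD 0 0 = 1) ∧
    (if i + 1 = nodes.length then (nodes.getD i default).U = full ∧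
        (nodes.getD i default).kf = true else
      (linkOK m D full lin inc nodes i (nodes.getD i default).up.1
        (nodes.getD i default).up.2.1 (nodes.getD i default).up.2.2 = true ∧
        i < (nodes.getD i default).up.2.1) ∧ i < (nodes.getD i default).up.2.2) ∧
    (if i = 0 then (nodes.getD i default).U = 0 else
      (nodes.getD i default).kf = true → ((linkOK m D full lin inc nodes
        (nodes.getD i default).dn.2.1
        (nodes.getD i default).dn.1 i (nodes.getD i default).dn.2.2 = true ∧
        (nodes.getD i default).dn.2.1 < i) ∧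
        (nodes.getD (nodes.getD i default).dn.2.1 default).kf = true) ∧
        (nodes.getD (nodes.getD i default).dn.2.2 default).kf = true) := by
  simp only [certOK, List.all_eq_true, List.mem_range] at h
  have := h i hi
  simp only [Bool.and_eq_true, decide_eq_true_eq] at this
  obtain ⟨⟨h1, h2⟩, h3⟩ := this
  refine ⟨h1, ?_, ?_⟩
  · split_ifs with hl
    · simpa [hl] using h2
    · simpa [hl] using h2
  · split_ifs with hl
    · simpa [hl] using h3
    · intro hk
      rw [if_neg hl, hk] at h3
      simpa using h3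

lemma cert_upper (H : CertHyp e I full lin inc) (h : certOK m D full lin inc nodes = true)
    (n : ℕ) : ∀ i, i < nodes.length → nodes.length ≤ i + n → ∀ d,
      hf (KU e I (nodes.getD i default).U) d ≤ (nodes.getD i default).F.getD d 0 := by
  induction n with
  | zero => intro i hi hn; omega
  | succ n ih =>
    intro i hi hn d
    obtain ⟨⟨h1, h2⟩, h3, -⟩ := cert_node h hi
    cases d with
    | zero => rw [h2]; exact hf_zero_le _
    | succ d =>
      split_ifs at h3 with hl
      · rw [hf_eq_zero]
        · exact Nat.zero_le _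
        · intro s
          obtain ⟨v, rfl⟩ := e.surjective s
          apply X_mem_KU
          rw [h3.1]
          exact H.hfull v
      · obtain ⟨⟨h4, h5⟩, h6⟩ := h3
        obtain ⟨v, hj, ha, hc, e1, e2, e3⟩ := link_spec H h4
        have h7 := hf_succ_le (KU_isHomog H.hI _) (isHomogeneous_X ℚ (e v)) (X_ne_zero _) e2 d
        rw [← e1] at h7
        have h8 := ih _ ha (by omega) (d + 1)
        have h9 := ih _ hc (by omega) d
        have h10 := relF_spec e3 (cert_node h hj).1.1 (cert_node h ha).1.1
          (cert_node h hc).1.1 d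
        omega

lemma cert_hilb (H : CertHyp e I full lin inc) (h : certOK m D full lin inc nodes = true)
    (hne : nodes ≠ []) (n : ℕ) (hDn : D ≤ n)
    (hlow : ∑ i ∈ Finset.range n, (nodes.getD 0 default).F.getD i 0 ≤
      ∑ i ∈ Finset.range n, hf I i) (d : ℕ) :
    hf I d = (nodes.getD 0 default).F.getD d 0 := by
  have hlen : 0 < nodes.length := List.length_pos_iff.2 hne
  have h0 := (cert_node h hlen).2.2
  rw [if_pos rfl] at h0
  have hup := cert_upper H h nodes.length 0 hlen (by omega)
  rw [h0, KU_zero] at hup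
  have heq := (Finset.sum_eq_sum_iff_of_le (s := Finset.range n) (fun i _ => hup i)).1
    (le_antisymm (Finset.sum_le_sum fun i _ => hup i) hlow)
  by_cases hd : d < n
  · exact heq d (Finset.mem_range.2 hd)
  · have h1 := hup d
    have h2 : (nodes.getD 0 default).F.getD d 0 = 0 := by
      apply List.getD_eq_default
      have := (cert_node h hlen).1.1
      omega
    omega

/-- Equality of the Hilbert functions at the nodes of the Koszul filtration. -/
lemma cert_eq (H : CertHyp e I full lin inc) (h : certOK m D full lin inc nodes = true)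
    (hhilb : ∀ d, hf I d = (nodes.getD 0 default).F.getD d 0) :
    ∀ n i, i < n → i < nodes.length → (nodes.getD i default).kf = true → ∀ d,
      hf (KU e I (nodes.getD i default).U) (d + 1) = (nodes.getD i default).F.getD (d + 1) 0 := by
  intro n
  induction n with
  | zero => intro i hi; omega
  | succ n ih =>
    intro i hin hi hk d
    obtain ⟨-, -, h3⟩ := cert_node h hi
    split_ifs at h3 with h0
    · subst h0
      rw [h3, KU_zero]
      exact hhilb _
    · obtain ⟨⟨⟨h4, h5⟩, h6⟩, h7⟩ := h3 hk
      obtain ⟨v, hj, ha, hc, e1, e2, e3⟩ := link_spec H h4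
      have h8 := hf_succ_le (KU_isHomog H.hI _) (isHomogeneous_X ℚ (e v)) (X_ne_zero _) e2 d
      rw [← e1] at h8
      have h9 := cert_upper H h nodes.length _ ha (by omega) (d + 1)
      have h9' := cert_upper H h nodes.length _ hc (by omega) d
      have h10 := relF_spec e3 (cert_node h hj).1.1 (cert_node h ha).1.1
        (cert_node h hc).1.1 d
      have h11 := ih _ (by omega) hj h6 d
      omega

lemma cert_colon (H : CertHyp e I full lin inc) (h : certOK m D full lin inc nodes = true)
    (hhilb : ∀ d, hf I d = (nodes.getD 0 default).F.getD d 0)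
    {i : ℕ} (hi0 : i ≠ 0) (hi : i < nodes.length) (hk : (nodes.getD i default).kf = true) :
    ∃ (v : Fin m) (j c : ℕ), j < i ∧ j < nodes.length ∧ (nodes.getD j default).kf = true ∧
      c < nodes.length ∧ (nodes.getD c default).kf = true ∧
      KU e I (nodes.getD i default).U =
        KU e I (nodes.getD j default).U ⊔ Ideal.span {X (e v)} ∧
      ∀ g, g ∈ KU e I (nodes.getD c default).U ↔
        X (e v) * g ∈ KU e I (nodes.getD j default).U := by
  obtain ⟨-, -, h3⟩ := cert_node h hi
  rw [if_neg hi0] at h3
  obtain ⟨⟨⟨h4, h5⟩, h6⟩, h7⟩ := h3 hk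
  obtain ⟨v, hj, ha, hc, e1, e2, e3⟩ := link_spec H h4
  refine ⟨v, _, _, h5, hj, h6, hc, h7, e1, ?_⟩
  apply colon_of_hf_eq (KU_isHomog H.hI _) (isHomogeneous_X ℚ (e v)) (X_ne_zero _) e2
  intro d
  rw [← e1]
  have h9 := cert_upper H h nodes.length _ ha (by omega) (d + 1)
  have h9' := cert_upper H h nodes.length _ hc (by omega) d
  have h10 := relF_spec e3 (cert_node h hj).1.1 (cert_node h ha).1.1
    (cert_node h hc).1.1 d
  have h11 := cert_eq H h hhilb _ _ (Nat.lt_succ_self _) hj h6 d
  omega

/-- The family of ideals of the Koszul filtration. -/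
def KFam (e : Fin m ≃ σ) (I : Ideal (MvPolynomial σ ℚ)) (nodes : List Node) :
    Set (Ideal (MvPolynomial σ ℚ ⧸ I)) :=
  {J | ∃ i, i < nodes.length ∧ (nodes.getD i default).kf = true ∧
    J = (KU e I (nodes.getD i default).U).map (Ideal.Quotient.mk I)}

lemma mk_mem_map {K : Ideal (MvPolynomial σ ℚ)} (hK : I ≤ K) (f : MvPolynomial σ ℚ) :
    Ideal.Quotient.mk I f ∈ K.map (Ideal.Quotient.mk I) ↔ f ∈ K := by
  constructor
  · intro hf
    have : f ∈ (K.map (Ideal.Quotient.mk I)).comap (Ideal.Quotient.mk I) := hf
    rw [Ideal.comap_map_of_surjective' _ Ideal.Quotient.mk_surjective, Ideal.mk_ker,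
      sup_eq_left.2 hK] at this
    exact this
  · exact fun hf => Ideal.mem_map_of_mem _ hf

lemma cert_chain (H : CertHyp e I full lin inc) (h : certOK m D full lin inc nodes = true)
    (hhilb : ∀ d, hf I d = (nodes.getD 0 default).F.getD d 0) :
    ∀ n i, i < n → i < nodes.length → (nodes.getD i default).kf = true →
      ∃ (k : ℕ) (c : Fin k → (MvPolynomial σ ℚ ⧸ I)), (∀ r, c r ∈ qPiece I 1) ∧
        (KU e I (nodes.getD i default).U).map (Ideal.Quotient.mk I) =
          Ideal.span (Set.range c) ∧
        ∀ r, ∃ C ∈ KFam e I nodes, ∀ a, a ∈ C ↔ a * c r ∈ Ideal.span (c '' Set.Iio r) := by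
  intro n
  induction n with
  | zero => intro i hi; omega
  | succ n ih =>
    intro i hin hi hk
    by_cases hi0 : i = 0
    · subst hi0
      have h0 := (cert_node h hi).2.2
      rw [if_pos rfl] at h0
      refine ⟨0, Fin.elim0, fun r => r.elim0, ?_, fun r => r.elim0⟩
      rw [h0, KU_zero, Ideal.map_quotient_self]
      simp
    · obtain ⟨v, j, c, hji, hj, hjk, hc, hck, e1, e2⟩ := cert_colon H h hhilb hi0 hi hk
      obtain ⟨k, g, hg1, hg2, hg3⟩ := ih j (by omega) hj hjk
      refine ⟨k + 1, Fin.snoc g (Ideal.Quotient.mk I (X (e v))), ?_, ?_, ?_⟩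
      · intro r
        refine Fin.lastCases ?_ (fun r => ?_) r
        · rw [Fin.snoc_last]
          exact ⟨X (e v), isHomogeneous_X _ _, rfl⟩
        · rw [Fin.snoc_castSucc]
          exact hg1 r
      · rw [e1, Ideal.map_sup, hg2, Ideal.map_span, Set.image_singleton, ← Ideal.span_union]
        congr 1
        rw [Fin.range_snoc, Set.union_singleton]
      · intro r
        refine Fin.lastCases ?_ (fun r => ?_) r
        · refine ⟨_, ⟨c, hc, hck, rfl⟩, ?_⟩
          intro a
          obtain ⟨f, rfl⟩ := Ideal.Quotient.mk_surjective a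
          rw [Fin.snoc_last, ← map_mul, mk_mem_map (I_le_KU _), e2, mul_comm (X (e v)) f,
            ← mk_mem_map (I_le_KU _), hg2]
          have : (Fin.snoc (α := fun _ => (MvPolynomial σ ℚ ⧸ I)) g
              (Ideal.Quotient.mk I (X (e v)))) '' Set.Iio (Fin.last k) = Set.range g := by
            ext x
            constructor
            · rintro ⟨y, hy, rfl⟩
              obtain ⟨z, rfl⟩ := Fin.exists_castSucc_eq.2 (ne_of_lt hy)
              rw [Fin.snoc_castSucc]
              exact ⟨z, rfl⟩
            · rintro ⟨z, rfl⟩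
              exact ⟨z.castSucc, Fin.castSucc_lt_last z, by rw [Fin.snoc_castSucc]⟩
          rw [this]
        · obtain ⟨C, hC, hC'⟩ := hg3 r
          refine ⟨C, hC, ?_⟩
          intro a
          rw [hC', Fin.snoc_castSucc]
          have : (Fin.snoc (α := fun _ => (MvPolynomial σ ℚ ⧸ I)) g
              (Ideal.Quotient.mk I (X (e v)))) '' Set.Iio (Fin.castSucc r) = g '' Set.Iio r := by
            ext x
            constructor
            · rintro ⟨y, hy, rfl⟩
              have hyl : y ≠ Fin.last k := ne_of_lt (lt_trans hy (Fin.castSucc_lt_last r))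
              obtain ⟨z, rfl⟩ := Fin.exists_castSucc_eq.2 hyl
              rw [Fin.snoc_castSucc]
              exact ⟨z, Fin.castSucc_lt_castSucc_iff.1 hy, rfl⟩
            · rintro ⟨z, hz, rfl⟩
              exact ⟨z.castSucc, Fin.castSucc_lt_castSucc_iff.2 hz, by rw [Fin.snoc_castSucc]⟩
          rw [this]

lemma irrel_qPiece (hfull : ∀ v : Fin m, full.testBit v = true) :
    irrel (qPiece I) = (KU e I full).map (Ideal.Quotient.mk I) := by
  apply le_antisymm
  · apply Ideal.span_le.2
    rintro a ⟨i, hi, f, hf, rfl⟩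
    change Ideal.Quotient.mk I f ∈ Ideal.map (Ideal.Quotient.mk I) (KU e I full)
    rw [mk_mem_map (I_le_KU _)]
    rw [f.as_sum]
    refine Submodule.sum_mem _ fun d hd => ?_
    have hdeg := hf (mem_support_iff.1 hd)
    have hd0 : d ≠ 0 := by
      rintro rfl
      simp at hdeg
      omega
    obtain ⟨s, hs⟩ := Finsupp.ne_iff.1 hd0
    have : (X s : MvPolynomial σ ℚ) ∣ monomial d (coeff d f) := by
      rw [X_dvd_monomial]
      right
      simpa using hs
    obtain ⟨v, rfl⟩ := e.surjective s
    exact Ideal.mem_of_dvd _ this (X_mem_KU (hfull v))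
  · rw [KU, Ideal.map_sup, Ideal.map_quotient_self, Ideal.map_span]
    apply sup_le bot_le
    apply Ideal.span_le.2
    rintro _ ⟨_, ⟨v, _, rfl⟩, rfl⟩
    exact Ideal.subset_span ⟨1, one_pos, X (e v), isHomogeneous_X _ _, rfl⟩

/-- Soundness of the certificate. -/
theorem cert_koszul (H : CertHyp e I full lin inc) (h : certOK m D full lin inc nodes = true)
    (hne : nodes ≠ []) (hhilb : ∀ d, hf I d = (nodes.getD 0 default).F.getD d 0) :
    IsKoszul (qPiece I) := by
  refine isKoszul_of_KF (qProj_spec H.hI) (𝓕 := KFam e I nodes) ?_ ?_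
  · rintro _ ⟨i, hi, hk, rfl⟩
    exact cert_chain H h hhilb (i + 1) i (Nat.lt_succ_self _) hi hk
  · have hlen : 0 < nodes.length := List.length_pos_iff.2 hne
    have hl : nodes.length - 1 < nodes.length := by omega
    have h1 := (cert_node h hl).2.1
    rw [if_pos (by omega)] at h1
    refine ⟨nodes.length - 1, hl, h1.2, ?_⟩
    rw [h1.1]
    exact irrel_qPiece H.hfull

end Sound

end Cert

end H77.Chow
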