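import Mathlib

/-!
# Chow rings of matroids with respect to building sets, Koszul algebras

Definitions used in the hand-in for `MP_0b1547_co`.
-/

namespace H77.Chow

open MvPolynomial

variable {α : Type*}

/-! ## Matroid side -/

/-- The interval `[∅, F]` of the lattice of flats of `M`, ordered by inclusion. -/
abbrev FlatsBelow (M : Matroid α) (F : Set α) : Type _ := {H : Set α // M.IsFlat H ∧ H ⊆ F}

/-- The maximal elements of `𝒢 ∩ [∅, F]`. -/
def factors (𝒢 : Set (Set α)) (F : Set α) : Set (Set α) :=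
  {G | Maximal (fun X => X ∈ 𝒢 ∧ X ⊆ F) G}

/-- `𝒢` is a building set on the lattice of flats of `M`: its members are nonempty flats and,
for every nonempty flat `F` with `G₁, …, G_k` the maximal elements of `𝒢 ∩ [∅, F]`, the map
`∏ⱼ [∅, Gⱼ] → [∅, F]`, `(Hⱼ)ⱼ ↦ ⋁ⱼ Hⱼ` is an isomorphism of posets (the join of flats is the
closure of their union). -/
structure IsBuildingSet (M : Matroid α) (𝒢 : Set (Set α)) : Prop where
  isFlat : ∀ G ∈ 𝒢, M.IsFlat G
  nonempty : ∀ G ∈ 𝒢, G.Nonempty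
  iso : ∀ F, M.IsFlat F → F.Nonempty →
    ∃ e : ((G : factors 𝒢 F) → FlatsBelow M G.1) ≃o FlatsBelow M F,
      ∀ H, (e H).1 = M.closure (⋃ G, (H G).1)

/-- `S ⊆ 𝒢` is nested: the join of any (finite) set of at least two pairwise incomparable
elements of `S` is not in `𝒢`. -/
def IsNested (M : Matroid α) (𝒢 S : Set (Set α)) : Prop :=
  S ⊆ 𝒢 ∧ ∀ T : Finset (Set α), (T : Set (Set α)) ⊆ S → 2 ≤ T.card →
    IsAntichain (· ⊆ ·) (T : Set (Set α)) → M.closure (⋃₀ (T : Set (Set α))) ∉ 𝒢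

/-- The atoms of the lattice of flats of a loopless matroid: minimal nonempty flats. -/
def IsAtomFlat (M : Matroid α) (a : Set α) : Prop :=
  Minimal (fun F => M.IsFlat F ∧ F.Nonempty) a

/-- The ideal `I` defining the Chow ring `D(M, 𝒢)`: it is generated by `∏_{G ∈ S} x_G` for
every non-nested (finite) `S ⊆ 𝒢` and by `∑_{G ∈ 𝒢, G ⊇ a} x_G` for every atom `a`. -/
noncomputable def chowIdeal (M : Matroid α) (𝒢 : Set (Set α)) : Ideal (MvPolynomial 𝒢 ℚ) :=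
  Ideal.span
    ({p | ∃ S : Finset 𝒢, ¬ IsNested M 𝒢 (Subtype.val '' (S : Set 𝒢)) ∧ p = ∏ G ∈ S, X G} ∪
      {p | ∃ a : Set α, IsAtomFlat M a ∧ p = ∑ᶠ (G : 𝒢) (_ : a ⊆ G.1), X G})

/-- The Chow ring `D(M, 𝒢) = ℚ[x_G : G ∈ 𝒢] / I`. -/
abbrev ChowRing (M : Matroid α) (𝒢 : Set (Set α)) : Type _ :=
  MvPolynomial 𝒢 ℚ ⧸ chowIdeal M 𝒢

/-- The degree `i` part `Dⁱ(M, 𝒢)` of the Chow ring, for the grading with `deg x_G = 1`. -/
noncomputable def chowPiece (M : Matroid α) (𝒢 : Set (Set α)) (i : ℕ) :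
    Submodule ℚ (ChowRing M 𝒢) :=
  (homogeneousSubmodule 𝒢 ℚ i).map (Ideal.Quotient.mkₐ ℚ (chowIdeal M 𝒢)).toLinearMap

/-! ## Koszul algebras -/

/-- The ideal `A₊` generated by the elements of positive degree. -/
def irrel {A : Type*} [CommRing A] [Algebra ℚ A] (𝒜 : ℕ → Submodule ℚ A) : Ideal A :=
  Ideal.span {a | ∃ i, 0 < i ∧ a ∈ 𝒜 i}

open Matrix in
/-- The `ℚ`-algebra `A`, with graded pieces `𝒜 i`, is Koszul: `ℚ = A/A₊` has a linear minimal
graded free resolution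
`⋯ → A(-2)^{β₂} → A(-1)^{β₁} → A → A/A₊ → 0`.
The differential `A^{β_{i+1}} → A^{β_i}` is `v ↦ v ᵥ* φ i`, where `φ i` is a matrix all of whose
entries lie in the degree `1` part `𝒜 1`; the image of the first differential is `A₊` and
the kernel of each differential is the image of the next one. -/
def IsKoszul {A : Type*} [CommRing A] [Algebra ℚ A] (𝒜 : ℕ → Submodule ℚ A) : Prop :=
  ∃ (β : ℕ → ℕ) (φ : (i : ℕ) → Matrix (Fin (β (i + 1))) (Fin (β i)) A),
    β 0 = 1 ∧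
    (∀ i r c, φ i r c ∈ 𝒜 1) ∧
    (∀ v : Fin (β 0) → A, (∀ c, v c ∈ irrel 𝒜) ↔ ∃ u, u ᵥ* φ 0 = v) ∧
    (∀ i (v : Fin (β (i + 1)) → A), v ᵥ* φ i = 0 ↔ ∃ u, u ᵥ* φ (i + 1) = v)

end H77.Chow
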