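import Pool.Agent.H77.KoszulFiltration

/-!
# Dimension counting in the polynomial ring
-/

namespace H77.Chow

open MvPolynomial Module

section Dim

variable {σ : Type*}

lemma homComp_mul {f g : MvPolynomial σ ℚ} {d : ℕ} (hg : g.IsHomogeneous d) (i : ℕ) :
    homogeneousComponent (i + d) (f * g) = homogeneousComponent i f * g := by
  conv_lhs => rw [← sum_homogeneousComponent f, Finset.sum_mul, map_sum]
  have h1 : ∀ j ∈ Finset.range (f.totalDegree + 1),
      homogeneousComponent (i + d) (homogeneousComponent j f * g) =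
      if i = j then homogeneousComponent j f * g else 0 := by
    intro j _
    have : (homogeneousComponent j f * g) ∈ homogeneousSubmodule σ ℚ (j + d) :=
      (homogeneousComponent_isHomogeneous j f).mul hg
    rw [homogeneousComponent_of_mem this]
    simp
  rw [Finset.sum_congr rfl h1, Finset.sum_ite_eq]
  split_ifs with h
  · rfl
  · rw [homogeneousComponent_eq_zero, zero_mul]
    simpa using h

lemma homComp_mul_lt {f g : MvPolynomial σ ℚ} {d : ℕ} (hg : g.IsHomogeneous d) (i : ℕ)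
    (hi : i < d) : homogeneousComponent i (f * g) = 0 := by
  conv_lhs => rw [← sum_homogeneousComponent f, Finset.sum_mul, map_sum]
  refine Finset.sum_eq_zero fun j _ => ?_
  have : (homogeneousComponent j f * g) ∈ homogeneousSubmodule σ ℚ (j + d) :=
    (homogeneousComponent_isHomogeneous j f).mul hg
  rw [homogeneousComponent_of_mem this, if_neg (by omega)]

/-- Homogeneous ideals. -/
def IsHomog (K : Ideal (MvPolynomial σ ℚ)) : Prop := ∀ f ∈ K, ∀ i, homogeneousComponent i f ∈ K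

lemma isHomog_span (S : Set (MvPolynomial σ ℚ)) (hS : ∀ s ∈ S, ∃ d, s.IsHomogeneous d) :
    IsHomog (Ideal.span S) := by
  intro f hf
  have key : ∀ f ∈ Ideal.span S, ∀ g i, homogeneousComponent i (g * f) ∈ Ideal.span S := by
    intro f hf
    refine Submodule.span_induction (p := fun f _ => ∀ g i, homogeneousComponent i (g * f) ∈
      Ideal.span S) ?_ ?_ ?_ ?_ hf
    · intro s hs g i
      obtain ⟨d, hd⟩ := hS s hs
      rcases lt_or_ge i d with h | h
      · rw [homComp_mul_lt hd i h]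
        exact Submodule.zero_mem _
      · obtain ⟨j, rfl⟩ := Nat.exists_eq_add_of_le' h
        rw [homComp_mul hd]
        exact Ideal.mul_mem_left _ _ (Ideal.subset_span hs)
    · intro g i
      simp
    · intro x y _ _ hx hy g i
      rw [mul_add, map_add]
      exact Submodule.add_mem _ (hx g i) (hy g i)
    · intro a x _ hx g i
      rw [smul_eq_mul, ← mul_assoc]
      exact hx (g * a) i
  intro i
  simpa using key f hf 1 i

lemma IsHomog.sup {K L : Ideal (MvPolynomial σ ℚ)} (hK : IsHomog K) (hL : IsHomog L) :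
    IsHomog (K ⊔ L) := by
  intro f hf i
  obtain ⟨a, ha, b, hb, rfl⟩ := Submodule.mem_sup.1 hf
  rw [map_add]
  exact Submodule.add_mem_sup (hK a ha i) (hL b hb i)

/-- The degree `i` part of an ideal. -/
noncomputable def KP (K : Ideal (MvPolynomial σ ℚ)) (i : ℕ) : Submodule ℚ (MvPolynomial σ ℚ) :=
  K.restrictScalars ℚ ⊓ homogeneousSubmodule σ ℚ i

lemma mem_KP {K : Ideal (MvPolynomial σ ℚ)} {i : ℕ} {f : MvPolynomial σ ℚ} :
    f ∈ KP K i ↔ f ∈ K ∧ f ∈ homogeneousSubmodule σ ℚ i := Iff.rfl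

instance finite_hom [Finite σ] (i : ℕ) : Module.Finite ℚ (homogeneousSubmodule σ ℚ i) := by
  have h : (homogeneousSubmodule σ ℚ i) =
      Submodule.span ℚ ((fun d => monomial d (1 : ℚ)) '' {d : σ →₀ ℕ | d.degree = i}) := by
    apply le_antisymm
    · intro f hf
      rw [f.as_sum]
      refine Submodule.sum_mem _ fun d hd => ?_
      have : monomial d (coeff d f) = coeff d f • monomial d (1 : ℚ) := by
        rw [smul_monomial, smul_eq_mul, mul_one]
      rw [this]
      refine Submodule.smul_mem _ _ (Submodule.subset_span ⟨d, ?_, rfl⟩)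
      have h1 := hf (mem_support_iff.1 hd)
      rw [Finsupp.degree_eq_weight_one]
      exact h1
    · rw [Submodule.span_le]
      rintro _ ⟨d, hd, rfl⟩
      exact isHomogeneous_monomial _ hd
  rw [h]
  apply FiniteDimensional.span_of_finite
  exact (Finsupp.finite_of_degree_eq i).image _

instance finite_KP [Finite σ] (K : Ideal (MvPolynomial σ ℚ)) (i : ℕ) :
    Module.Finite ℚ (KP K i) :=
  Submodule.finiteDimensional_of_le (inf_le_right : KP K i ≤ homogeneousSubmodule σ ℚ i)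

/-- The Hilbert function of `ℚ[σ]/K`. -/
noncomputable def hf (K : Ideal (MvPolynomial σ ℚ)) (i : ℕ) : ℕ :=
  finrank ℚ (homogeneousSubmodule σ ℚ i) - finrank ℚ (KP K i)

variable [Finite σ]

lemma finrank_KP_le (K : Ideal (MvPolynomial σ ℚ)) (i : ℕ) :
    finrank ℚ (KP K i) ≤ finrank ℚ (homogeneousSubmodule σ ℚ i) :=
  Submodule.finrank_mono inf_le_right

lemma hf_add (K : Ideal (MvPolynomial σ ℚ)) (i : ℕ) :
    hf K i + finrank ℚ (KP K i) = finrank ℚ (homogeneousSubmodule σ ℚ i) :=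
  Nat.sub_add_cancel (finrank_KP_le K i)

/-- The colon space `{g ∈ P_i | x * g ∈ K}`. -/
noncomputable def colonP (K : Ideal (MvPolynomial σ ℚ)) (x : MvPolynomial σ ℚ) (i : ℕ) :
    Submodule ℚ (MvPolynomial σ ℚ) :=
  (K.restrictScalars ℚ).comap (LinearMap.mulLeft ℚ x) ⊓ homogeneousSubmodule σ ℚ i

lemma mem_colonP {K : Ideal (MvPolynomial σ ℚ)} {x : MvPolynomial σ ℚ} {i : ℕ}
    {f : MvPolynomial σ ℚ} :
    f ∈ colonP K x i ↔ x * f ∈ K ∧ f ∈ homogeneousSubmodule σ ℚ i := Iff.rfl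

instance finite_colonP (K : Ideal (MvPolynomial σ ℚ)) (x : MvPolynomial σ ℚ) (i : ℕ) :
    Module.Finite ℚ (colonP K x i) :=
  Submodule.finiteDimensional_of_le
    (inf_le_right : colonP K x i ≤ homogeneousSubmodule σ ℚ i)

/-- The basic dimension formula. -/
lemma finrank_colon (K : Ideal (MvPolynomial σ ℚ)) (hK : IsHomog K) (x : MvPolynomial σ ℚ)
    (hx : x.IsHomogeneous 1) (hx0 : x ≠ 0) (i : ℕ) :
    finrank ℚ (KP (K ⊔ Ideal.span {x}) (i + 1)) + finrank ℚ (colonP K x i) =
      finrank ℚ (KP K (i + 1)) + finrank ℚ (homogeneousSubmodule σ ℚ i) := by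
  have hinj : Function.Injective (LinearMap.mulLeft ℚ x) := by
    intro a b hab
    exact mul_left_cancel₀ hx0 hab
  have h1 : KP (K ⊔ Ideal.span {x}) (i + 1) =
      KP K (i + 1) ⊔ (homogeneousSubmodule σ ℚ i).map (LinearMap.mulLeft ℚ x) := by
    apply le_antisymm
    · intro f hf
      obtain ⟨hf1, hf2⟩ := hf
      obtain ⟨a, ha, b, hb, hab⟩ := Submodule.mem_sup.1 hf1
      obtain ⟨c, rfl⟩ := Ideal.mem_span_singleton'.1 hb
      have : f = homogeneousComponent (i + 1) a + x * homogeneousComponent i c := by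
        rw [← homogeneousComponent_eq_self hf2, ← hab, map_add, homComp_mul hx, mul_comm x]
      rw [this]
      exact Submodule.add_mem_sup ⟨hK a ha _, homogeneousComponent_mem _ _⟩
        ⟨_, homogeneousComponent_mem _ _, rfl⟩
    · rw [sup_le_iff]
      constructor
      · rintro f ⟨hf1, hf2⟩
        exact ⟨Submodule.mem_sup_left hf1, hf2⟩
      · rintro _ ⟨f, hf, rfl⟩
        refine ⟨Submodule.mem_sup_right (Ideal.mem_span_singleton'.2 ⟨f, mul_comm _ _⟩), ?_⟩
        rw [add_comm]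
        exact hx.mul hf
  have h2 : KP K (i + 1) ⊓ (homogeneousSubmodule σ ℚ i).map (LinearMap.mulLeft ℚ x) =
      (colonP K x i).map (LinearMap.mulLeft ℚ x) := by
    apply le_antisymm
    · rintro _ ⟨⟨h1, _⟩, ⟨f, hf, rfl⟩⟩
      exact ⟨f, ⟨h1, hf⟩, rfl⟩
    · rintro _ ⟨f, ⟨hf1, hf2⟩, rfl⟩
      refine ⟨⟨hf1, ?_⟩, ⟨f, hf2, rfl⟩⟩
      rw [add_comm]
      exact hx.mul hf2
  have h3 := Submodule.finrank_sup_add_finrank_inf_eq (KP K (i + 1))
    ((homogeneousSubmodule σ ℚ i).map (LinearMap.mulLeft ℚ x))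
  have hfin : ∀ V : Submodule ℚ (MvPolynomial σ ℚ),
      finrank ℚ (V.map (LinearMap.mulLeft ℚ x)) = finrank ℚ V := fun V =>
    ((Submodule.equivMapOfInjective _ hinj V).finrank_eq).symm
  rw [← h1, h2, hfin, hfin] at h3
  exact h3

lemma KP_le_colonP {K C : Ideal (MvPolynomial σ ℚ)} {x : MvPolynomial σ ℚ}
    (hC : ∀ f ∈ C, x * f ∈ K) (i : ℕ) : KP C i ≤ colonP K x i := by
  rintro f ⟨hf1, hf2⟩
  exact ⟨hC f hf1, hf2⟩

lemma hf_succ_le {K C : Ideal (MvPolynomial σ ℚ)} (hK : IsHomog K) {x : MvPolynomial σ ℚ}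
    (hx : x.IsHomogeneous 1) (hx0 : x ≠ 0) (hC : ∀ f ∈ C, x * f ∈ K) (i : ℕ) :
    hf K (i + 1) ≤ hf (K ⊔ Ideal.span {x}) (i + 1) + hf C i := by
  have h1 := finrank_colon K hK x hx hx0 i
  have h2 := Submodule.finrank_mono (KP_le_colonP hC i)
  have h3 := hf_add K (i + 1)
  have h4 := hf_add (K ⊔ Ideal.span {x}) (i + 1)
  have h5 := hf_add C i
  omega

lemma colonP_eq_of_hf_eq {K C : Ideal (MvPolynomial σ ℚ)} (hK : IsHomog K) {x : MvPolynomial σ ℚ}
    (hx : x.IsHomogeneous 1) (hx0 : x ≠ 0) (hC : ∀ f ∈ C, x * f ∈ K) (i : ℕ)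
    (h : hf (K ⊔ Ideal.span {x}) (i + 1) + hf C i ≤ hf K (i + 1)) :
    KP C i = colonP K x i := by
  have h1 := finrank_colon K hK x hx hx0 i
  have h2 := Submodule.finrank_mono (KP_le_colonP hC i)
  have h3 := hf_add K (i + 1)
  have h4 := hf_add (K ⊔ Ideal.span {x}) (i + 1)
  have h5 := hf_add C i
  refine Submodule.eq_of_le_of_finrank_le (KP_le_colonP hC i) ?_
  omega

lemma colon_of_hf_eq {K C : Ideal (MvPolynomial σ ℚ)} (hK : IsHomog K)
    {x : MvPolynomial σ ℚ}
    (hx : x.IsHomogeneous 1) (hx0 : x ≠ 0) (hC : ∀ f ∈ C, x * f ∈ K)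
    (h : ∀ i, hf (K ⊔ Ideal.span {x}) (i + 1) + hf C i ≤ hf K (i + 1)) (g : MvPolynomial σ ℚ) :
    g ∈ C ↔ x * g ∈ K := by
  constructor
  · exact hC g
  · intro hg
    rw [← sum_homogeneousComponent g]
    refine Submodule.sum_mem _ fun i _ => ?_
    have h1 : homogeneousComponent i g ∈ colonP K x i := by
      refine ⟨?_, homogeneousComponent_mem _ _⟩
      have h2 := hK _ hg (i + 1)
      rw [mul_comm, homComp_mul hx, mul_comm] at h2
      exact h2
    rw [← colonP_eq_of_hf_eq hK hx hx0 hC i (h i)] at h1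
    exact h1.1

lemma hf_zero_le (K : Ideal (MvPolynomial σ ℚ)) : hf K 0 ≤ 1 := by
  have h1 := hf_add K 0
  have h2 : finrank ℚ (homogeneousSubmodule σ ℚ 0) ≤ 1 := by
    rw [homogeneousSubmodule_zero, Submodule.one_eq_span]
    refine (finrank_span_le_card _).trans ?_
    simp
  omega

lemma hf_eq_zero {K : Ideal (MvPolynomial σ ℚ)} (hK : ∀ s, X s ∈ K) (i : ℕ) :
    hf K (i + 1) = 0 := by
  have h1 := hf_add K (i + 1)
  have h2 : KP K (i + 1) = homogeneousSubmodule σ ℚ (i + 1) := by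
    apply le_antisymm inf_le_right
    intro f hf
    refine ⟨?_, hf⟩
    change f ∈ K
    rw [f.as_sum]
    refine Submodule.sum_mem _ fun d hd => ?_
    have hdeg := hf (mem_support_iff.1 hd)
    have hd0 : d ≠ 0 := by
      rintro rfl
      simp at hdeg
    obtain ⟨s, hs⟩ := Finsupp.ne_iff.1 hd0
    have : (X s : MvPolynomial σ ℚ) ∣ monomial d (coeff d f) := by
      rw [X_dvd_monomial]
      right
      simpa using hs
    exact Ideal.mem_of_dvd _ this (hK s)
  rw [h2] at h1
  omega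

/-! ### Lower bound through evaluation at points -/

lemma exists_compl_KP (K : Ideal (MvPolynomial σ ℚ)) (i : ℕ) :
    ∃ Q : Submodule ℚ (MvPolynomial σ ℚ), KP K i ⊔ Q = homogeneousSubmodule σ ℚ i ∧
      Module.Finite ℚ Q ∧ finrank ℚ Q = hf K i := by
  obtain ⟨Q', hQ'⟩ := Submodule.exists_isCompl (KP K i)
  let Q := Q' ⊓ homogeneousSubmodule σ ℚ i
  have hQfin : Module.Finite ℚ Q :=
    Submodule.finiteDimensional_of_le (inf_le_right : Q ≤ homogeneousSubmodule σ ℚ i)
  have h1 : KP K i ⊔ Q = homogeneousSubmodule σ ℚ i := by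
    have := sup_inf_assoc_of_le (x := KP K i) Q'
      (inf_le_right : KP K i ≤ homogeneousSubmodule σ ℚ i)
    rw [hQ'.sup_eq_top, top_inf_eq] at this
    exact this.symm
  have h2 : KP K i ⊓ Q = ⊥ := by
    rw [← le_bot_iff, ← hQ'.inf_eq_bot]
    exact inf_le_inf_left _ inf_le_left
  refine ⟨Q, h1, hQfin, ?_⟩
  have h3 := Submodule.finrank_sup_add_finrank_inf_eq (KP K i) Q
  rw [h1, h2, finrank_bot] at h3
  have h4 := hf_add K i
  omega

/-- The span of the values of the polynomials of degree at most `n`. -/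
noncomputable def Wn {ι : Type*} (E : MvPolynomial σ ℚ →ₐ[ℚ] (ι → ℚ)) : ℕ → Submodule ℚ (ι → ℚ)
  | 0 => (homogeneousSubmodule σ ℚ 0).map E.toLinearMap
  | n + 1 => Wn E n ⊔ (homogeneousSubmodule σ ℚ (n + 1)).map E.toLinearMap

lemma map_le_Wn {ι : Type*} (E : MvPolynomial σ ℚ →ₐ[ℚ] (ι → ℚ)) (n : ℕ) :
    (homogeneousSubmodule σ ℚ n).map E.toLinearMap ≤ Wn E n := by
  cases n with
  | zero => exact le_rfl
  | succ n => exact le_sup_right

lemma Wn_mono {ι : Type*} (E : MvPolynomial σ ℚ →ₐ[ℚ] (ι → ℚ)) {m n : ℕ} (h : m ≤ n) :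
    Wn E m ≤ Wn E n := by
  induction h with
  | refl => exact le_rfl
  | step _ ih => exact ih.trans le_sup_left

lemma eval_mem_Wn {ι : Type*} (E : MvPolynomial σ ℚ →ₐ[ℚ] (ι → ℚ)) (S : Set (MvPolynomial σ ℚ))
    (hS : ∀ s ∈ S, (∃ d, s.IsHomogeneous d ∧ E s = 0) ∨
      (s.IsHomogeneous 1 ∧ ∃ c : ℚ, E s = fun _ => c))
    (f : MvPolynomial σ ℚ) (hf : f ∈ Ideal.span S) :
    (E (homogeneousComponent 0 f) = 0) ∧ ∀ i, E (homogeneousComponent (i + 1) f) ∈ Wn E i := by
  have key : ∀ g, (E (homogeneousComponent 0 (g * f)) = 0) ∧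
      ∀ i, E (homogeneousComponent (i + 1) (g * f)) ∈ Wn E i := by
    refine Submodule.span_induction (p := fun f _ => ∀ g,
      (E (homogeneousComponent 0 (g * f)) = 0) ∧
      ∀ i, E (homogeneousComponent (i + 1) (g * f)) ∈ Wn E i) ?_ ?_ ?_ ?_ hf
    · intro s hs g
      rcases hS s hs with ⟨d, hd, h0⟩ | ⟨h1, c, hc⟩
      · have : ∀ i, E (homogeneousComponent i (g * s)) = 0 := by
          intro i
          rcases lt_or_ge i d with h | h
          · rw [homComp_mul_lt hd i h, map_zero]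
          · obtain ⟨j, rfl⟩ := Nat.exists_eq_add_of_le' h
            rw [homComp_mul hd, map_mul, h0, mul_zero]
        refine ⟨this 0, fun i => ?_⟩
        rw [this]
        exact Submodule.zero_mem _
      · refine ⟨?_, fun i => ?_⟩
        · rw [homComp_mul_lt h1 0 (by norm_num), map_zero]
        · rw [homComp_mul h1, map_mul, hc]
          have : E (homogeneousComponent i g) * (fun _ => c) =
              c • E (homogeneousComponent i g) := by
            funext x
            simp [mul_comm]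
          rw [this]
          exact Submodule.smul_mem _ _ (map_le_Wn E i ⟨_, homogeneousComponent_mem _ _, rfl⟩)
    · intro g
      simp
    · intro x y _ _ hx hy g
      rw [mul_add]
      refine ⟨?_, fun i => ?_⟩
      · rw [map_add, map_add, (hx g).1, (hy g).1, add_zero]
      · rw [map_add, map_add]
        exact Submodule.add_mem _ ((hx g).2 i) ((hy g).2 i)
    · intro a x _ hx g
      rw [smul_eq_mul, ← mul_assoc]
      exact hx (g * a)
  simpa using key 1

theorem finrank_Wn_le {ι : Type*} [Finite ι] (E : MvPolynomial σ ℚ →ₐ[ℚ] (ι → ℚ))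
    (S : Set (MvPolynomial σ ℚ))
    (hS : ∀ s ∈ S, (∃ d, s.IsHomogeneous d ∧ E s = 0) ∨
      (s.IsHomogeneous 1 ∧ ∃ c : ℚ, E s = fun _ => c)) (n : ℕ) :
    finrank ℚ (Wn E n) ≤ ∑ i ∈ Finset.range (n + 1), hf (Ideal.span S) i := by
  induction n with
  | zero =>
    obtain ⟨Q, hQ1, hQ2, hQ3⟩ := exists_compl_KP (Ideal.span S) 0
    have h1 : (homogeneousSubmodule σ ℚ 0).map E.toLinearMap ≤ Q.map E.toLinearMap := by
      rw [← hQ1, Submodule.map_sup, sup_le_iff]
      refine ⟨?_, le_rfl⟩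
      rintro _ ⟨f, ⟨hf1, hf2⟩, rfl⟩
      have := (eval_mem_Wn E S hS f hf1).1
      rw [homogeneousComponent_eq_self hf2] at this
      change E f ∈ _
      rw [this]
      exact Submodule.zero_mem _
    have h2 := Submodule.finrank_mono h1
    have h3 := Submodule.finrank_map_le E.toLinearMap Q
    simp only [zero_add, Finset.sum_range_one]
    change finrank ℚ ((homogeneousSubmodule σ ℚ 0).map E.toLinearMap) ≤ _
    omega
  | succ n ih =>
    obtain ⟨Q, hQ1, hQ2, hQ3⟩ := exists_compl_KP (Ideal.span S) (n + 1)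
    have h1 : Wn E (n + 1) ≤ Wn E n ⊔ Q.map E.toLinearMap := by
      change Wn E n ⊔ _ ≤ _
      rw [sup_le_iff]
      refine ⟨le_sup_left, ?_⟩
      rw [← hQ1, Submodule.map_sup, sup_le_iff]
      refine ⟨le_sup_of_le_left ?_, le_sup_right⟩
      rintro _ ⟨f, ⟨hf1, hf2⟩, rfl⟩
      have := (eval_mem_Wn E S hS f hf1).2 n
      rw [homogeneousComponent_eq_self hf2] at this
      exact this
    have h2 := Submodule.finrank_mono h1
    have h3 := Submodule.finrank_map_le E.toLinearMap Q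
    have h4 := Submodule.finrank_add_le_finrank_add_finrank (Wn E n) (Q.map E.toLinearMap)
    rw [Finset.sum_range_succ]
    omega

end Dim

end H77.Chow
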