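import Pool.Agent.H77.ChowData

/-!
# A Koszul Chow ring with a non-real-rooted Hilbert series
-/

namespace H77.Chow

open MvPolynomial Module

set_option maxRecDepth 100000

/-! ## Building sets on Boolean matroids -/

section Boolean

variable {α : Type*}

lemma free_closure (X : Set α) : (Matroid.freeOn (Set.univ : Set α)).closure X = X := by
  simp

lemma free_isFlat (X : Set α) : (Matroid.freeOn (Set.univ : Set α)).IsFlat X := by
  rw [Matroid.isFlat_iff_closure_eq, free_closure]

theorem free_isBuildingSet [Finite α] (𝒢 : Set (Set α)) (h0 : ∀ G ∈ 𝒢, G.Nonempty)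
    (h1 : ∀ a : α, {a} ∈ 𝒢)
    (h2 : ∀ G ∈ 𝒢, ∀ H ∈ 𝒢, (G ∩ H).Nonempty → G ∪ H ∈ 𝒢) :
    IsBuildingSet (Matroid.freeOn (Set.univ : Set α)) 𝒢 where
  isFlat := fun G _ => free_isFlat G
  nonempty := h0
  iso := by
    intro F _ _
    have hcov : ∀ a ∈ F, ∃ G ∈ factors 𝒢 F, a ∈ G := by
      intro a ha
      have hfin : {X : Set α | X ∈ 𝒢 ∧ X ⊆ F}.Finite := Set.toFinite _
      obtain ⟨G, hG, hG'⟩ := hfin.exists_le_maximal (a := {a})
        ⟨h1 a, Set.singleton_subset_iff.2 ha⟩
      exact ⟨G, hG', hG rfl⟩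
    have hdisj : ∀ G ∈ factors 𝒢 F, ∀ H ∈ factors 𝒢 F, ∀ a ∈ G, a ∈ H → G = H := by
      intro G hG H hH a haG haH
      have hU : G ∪ H ∈ 𝒢 ∧ G ∪ H ⊆ F :=
        ⟨h2 G hG.1.1 H hH.1.1 ⟨a, haG, haH⟩, Set.union_subset hG.1.2 hH.1.2⟩
      have hG' : Maximal (fun X => X ∈ 𝒢 ∧ X ⊆ F) G := hG
      have hH' : Maximal (fun X => X ∈ 𝒢 ∧ X ⊆ F) H := hH
      have e1 : G = G ∪ H := hG'.eq_of_subset hU Set.subset_union_left
      have e2 : H = G ∪ H := hH'.eq_of_subset hU Set.subset_union_right
      exact e1.trans e2.symm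
    refine ⟨{ toFun := fun H => ⟨⋃ G, (H G).1, free_isFlat _,
                Set.iUnion_subset fun G => (H G).2.2.trans G.2.1.2⟩
              invFun := fun K => fun G => ⟨K.1 ∩ G.1, free_isFlat _, Set.inter_subset_right⟩
              left_inv := ?_
              right_inv := ?_
              map_rel_iff' := ?_ }, ?_⟩
    · intro H
      funext G
      apply Subtype.ext
      ext a
      constructor
      · rintro ⟨ha, haG⟩
        obtain ⟨G', haG'⟩ := Set.mem_iUnion.1 ha
        have : G' = G := Subtype.ext (hdisj _ G'.2 _ G.2 a ((H G').2.2 haG') haG)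
        rw [← this]
        exact haG'
      · intro ha
        exact ⟨Set.mem_iUnion.2 ⟨G, ha⟩, (H G).2.2 ha⟩
    · intro K
      apply Subtype.ext
      ext a
      constructor
      · intro ha
        obtain ⟨G', haG'⟩ := Set.mem_iUnion.1 ha
        exact haG'.1
      · intro ha
        obtain ⟨G, hG, haG⟩ := hcov a (K.2.2 ha)
        exact Set.mem_iUnion.2 ⟨⟨G, hG⟩, ha, haG⟩
    · intro H H'
      constructor
      · intro hle G a ha
        have h3 : a ∈ ⋃ G, (H' G).1 := hle (Set.mem_iUnion.2 ⟨G, ha⟩)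
        obtain ⟨G', haG'⟩ := Set.mem_iUnion.1 h3
        have : G' = G := Subtype.ext (hdisj _ G'.2 _ G.2 a ((H' G').2.2 haG') ((H G).2.2 ha))
        rw [← this]
        exact haG'
      · intro hle a ha
        obtain ⟨G', haG'⟩ := Set.mem_iUnion.1 ha
        exact Set.mem_iUnion.2 ⟨G', hle G' haG'⟩
    · intro H
      exact (free_closure _).symm

end Boolean

/-! ## The example -/

namespace Data

/-- The subset of `Fin 7` with bit mask `U`. -/
def ofMask (U : ℕ) : Set (Fin 7) := {a | U.testBit a = true}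

/-- The `i`-th member of the building set. -/
def mset (i : Fin 18) : Set (Fin 7) := ofMask (sets.getD i 0)

/-- The building set. -/
def bset : Set (Set (Fin 7)) := Set.range mset

lemma ofMask_subset {U W : ℕ} : ofMask U ⊆ ofMask W ↔
    ∀ a : Fin 7, U.testBit a = true → W.testBit a = true := Iff.rfl

lemma mset_subset_iff (i j : Fin 18) : mset i ⊆ mset j ↔
    ∀ a : Fin 7, (sets.getD i 0).testBit a = true → (sets.getD j 0).testBit a = true := Iff.rfl

lemma mset_injective : Function.Injective mset := by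
  intro i j h
  have h1 : ∀ a : Fin 7, (sets.getD i 0).testBit a = true → (sets.getD j 0).testBit a = true :=
    (mset_subset_iff i j).1 h.subset
  have h2 : ∀ a : Fin 7, (sets.getD j 0).testBit a = true → (sets.getD i 0).testBit a = true :=
    (mset_subset_iff j i).1 h.symm.subset
  have key : ∀ i j : Fin 18, (∀ a : Fin 7, (sets.getD i 0).testBit a = true →
      (sets.getD j 0).testBit a = true) → (∀ a : Fin 7, (sets.getD j 0).testBit a = true →
      (sets.getD i 0).testBit a = true) → i = j := by decide +kernel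
  exact key i j h1 h2

/-- The enumeration of the building set. -/
noncomputable def en : Fin 18 ≃ bset := Equiv.ofInjective mset mset_injective

lemma en_val (i : Fin 18) : (en i).1 = mset i := rfl

lemma ofMask_or (U W : ℕ) : ofMask (U ||| W) = ofMask U ∪ ofMask W := by
  ext a
  simp [ofMask, Nat.testBit_or]

lemma bset_nonempty : ∀ G ∈ bset, G.Nonempty := by
  rintro _ ⟨i, rfl⟩
  have key : ∀ i : Fin 18, ∃ a : Fin 7, (sets.getD i 0).testBit a = true := by decide +kernel
  exact key i

lemma bset_singleton : ∀ a : Fin 7, {a} ∈ bset := by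
  intro a
  have key : ∀ a : Fin 7, ∃ i : Fin 18, ∀ b : Fin 7,
      (sets.getD i 0).testBit b = true ↔ b = a := by decide +kernel
  obtain ⟨i, hi⟩ := key a
  refine ⟨i, ?_⟩
  ext b
  exact hi b

lemma bset_union : ∀ G ∈ bset, ∀ H ∈ bset, (G ∩ H).Nonempty → G ∪ H ∈ bset := by
  rintro _ ⟨i, rfl⟩ _ ⟨j, rfl⟩ ⟨a, ha1, ha2⟩
  have key : ∀ i j : Fin 18, ∀ a : Fin 7, (sets.getD i 0).testBit a = true →
      (sets.getD j 0).testBit a = true → ∃ k : Fin 18,
      sets.getD k 0 = sets.getD i 0 ||| sets.getD j 0 := by decide +kernel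
  obtain ⟨k, hk⟩ := key i j a ha1 ha2
  refine ⟨k, ?_⟩
  rw [mset, hk, ofMask_or]
  rfl

/-- The Boolean matroid on seven elements. -/
abbrev M7 : Matroid (Fin 7) := Matroid.freeOn Set.univ

theorem bset_isBuildingSet : IsBuildingSet M7 bset :=
  free_isBuildingSet bset bset_nonempty bset_singleton bset_union

/-- The Chow ideal. -/
noncomputable abbrev CI : Ideal (MvPolynomial bset ℚ) := chowIdeal M7 bset

lemma isAtomFlat_singleton (a : Fin 7) : IsAtomFlat M7 {a} := by
  refine ⟨⟨free_isFlat _, Set.singleton_nonempty a⟩, ?_⟩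
  rintro F ⟨_, b, hb⟩ hF
  have : b = a := hF hb
  subst this
  exact Set.singleton_subset_iff.2 hb

lemma atomFlat_eq {F : Set (Fin 7)} (h : IsAtomFlat M7 F) : ∃ a : Fin 7, F = {a} := by
  obtain ⟨a, ha⟩ := h.1.2
  refine ⟨a, ?_⟩
  apply h.eq_of_superset ⟨free_isFlat _, Set.singleton_nonempty a⟩
  exact Set.singleton_subset_iff.2 ha

lemma lin_sum (a : Fin 7) : (∑ᶠ (G : bset) (_ : {a} ⊆ G.1), (X G : MvPolynomial bset ℚ)) =
    ∑ v : Fin 18, if (lin.getD a 0).testBit v = true then
      (X (en v) : MvPolynomial bset ℚ) else 0 := by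
  classical
  rw [finsum_eq_sum_of_fintype, ← en.sum_comp]
  refine Finset.sum_congr rfl fun v _ => ?_
  rw [finsum_eq_if]
  have key : ∀ (a : Fin 7) (v : Fin 18), (lin.getD a 0).testBit v = true ↔
      (sets.getD v 0).testBit a = true := by decide +kernel
  have h1 : ({a} ⊆ (en v).1) ↔ (lin.getD a 0).testBit v = true := by
    rw [key, Set.singleton_subset_iff]
    exact Iff.rfl
  simp only [h1]

lemma lin_mem (a : Fin 7) : (∑ v : Fin 18, if (lin.getD a 0).testBit v = true then
      (X (en v) : MvPolynomial bset ℚ) else 0) ∈ CI := by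
  rw [← lin_sum]
  exact Ideal.subset_span (Or.inr ⟨{a}, isAtomFlat_singleton a, rfl⟩)

lemma inc_mem (v u : Fin 18) (h : (inc.getD v 0).testBit u = true) :
    (X (en v) * X (en u) : MvPolynomial bset ℚ) ∈ CI := by
  classical
  have key : ∀ v u : Fin 18, (inc.getD v 0).testBit u = true → v ≠ u ∧
      (¬ ∀ a : Fin 7, (sets.getD v 0).testBit a = true → (sets.getD u 0).testBit a = true) ∧
      (¬ ∀ a : Fin 7, (sets.getD u 0).testBit a = true → (sets.getD v 0).testBit a = true) ∧
      ∃ w : Fin 18, sets.getD w 0 = sets.getD v 0 ||| sets.getD u 0 := by decide +kernel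
  obtain ⟨hne, h1, h2, w, hw⟩ := key v u h
  apply Ideal.subset_span
  refine Or.inl ⟨{en v, en u}, ?_, ?_⟩
  · intro hn
    refine hn.2 {mset v, mset u} ?_ ?_ ?_ ?_
    · intro x hx
      simp only [Finset.coe_insert, Finset.coe_singleton, Set.mem_insert_iff,
        Set.mem_singleton_iff] at hx
      rcases hx with rfl | rfl
      · exact ⟨en v, by simp, rfl⟩
      · exact ⟨en u, by simp, rfl⟩
    · rw [Finset.card_pair]
      exact fun h => hne (mset_injective h)
    · simp only [Finset.coe_insert, Finset.coe_singleton]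
      intro x hx y hy hxy hle
      simp only [Set.mem_insert_iff, Set.mem_singleton_iff] at hx hy
      rcases hx with rfl | rfl <;> rcases hy with rfl | rfl
      · exact hxy rfl
      · exact h1 hle
      · exact h2 hle
      · exact hxy rfl
    · rw [free_closure]
      refine ⟨w, ?_⟩
      rw [mset, hw, ofMask_or]
      simp only [Finset.coe_insert, Finset.coe_singleton, Set.sUnion_insert, Set.sUnion_singleton]
      rfl
  · rw [Finset.prod_pair]
    exact fun h => hne (en.injective h)

lemma CI_isHomog : IsHomog CI := by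
  classical
  apply isHomog_span
  rintro _ (⟨S, _, rfl⟩ | ⟨F, hF, rfl⟩)
  · exact ⟨_, IsHomogeneous.prod _ _ (fun _ => 1) fun G _ => isHomogeneous_X _ _⟩
  · obtain ⟨a, rfl⟩ := atomFlat_eq hF
    refine ⟨1, ?_⟩
    rw [lin_sum]
    refine IsHomogeneous.sum _ _ _ fun v _ => ?_
    split_ifs
    · exact isHomogeneous_X _ _
    · exact isHomogeneous_zero _ _ _

lemma lin_cases : ∀ l ∈ lin, ∃ a : Fin 7, l = lin.getD a 0 := by decide +kernel

theorem certHyp : CertHyp en CI 262143 lin inc where
  hfull := by decide +kernel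
  hlt := by decide +kernel
  hrel := by
    intro l hl
    obtain ⟨a, rfl⟩ := lin_cases l hl
    exact lin_mem a
  hinc := inc_mem
  hI := CI_isHomog

theorem cert : certOK 18 7 262143 lin inc nodes = true := by decide +kernel

/-! ### The points -/

/-- The index type of the points. -/
abbrev Pt : Type := {x // x ∈ facets}

/-- The coordinates of the points. -/
def val (x : ℕ × ℕ) (v : Fin 18) : ℤ := (((x.2 >>> (4 * (v : ℕ))) &&& 15 : ℕ) : ℤ) - 8

/-- The evaluation map. -/
noncomputable def ev : MvPolynomial bset ℚ →ₐ[ℚ] (Pt → ℚ) :=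
  aeval fun G x => (val x.1 (en.symm G) : ℚ)

lemma ev_X (v : Fin 18) (x : Pt) : ev (X (en v)) x = (val x.1 v : ℚ) := by
  simp [ev]

lemma val_ne_zero_iff : ∀ x ∈ facets, ∀ v : Fin 18, val x v ≠ 0 ↔ x.1.testBit v = true := by
  decide +kernel

lemma val_lin : ∀ x ∈ facets, ∀ a : Fin 7,
    (∑ v : Fin 18, if (lin.getD a 0).testBit v = true then val x v else 0) = (a : ℤ) + 1 := by
  decide +kernel

lemma own_atom : ∀ x ∈ facets, ∀ w : Fin 18, ∃ a : Fin 7, (sets.getD w 0).testBit a = true ∧
    ∀ v : Fin 18, x.1.testBit v = true → sets.getD v 0 &&& sets.getD w 0 = sets.getD v 0 →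
      v ≠ w → (sets.getD v 0).testBit a = false := by
  decide +kernel

lemma mask_and : ∀ v w : Fin 18, (∀ a : Fin 7, (sets.getD v 0).testBit a = true →
    (sets.getD w 0).testBit a = true) → sets.getD v 0 &&& sets.getD w 0 = sets.getD v 0 := by
  decide +kernel

/-- Sets of members supported on a facet are nested. -/
lemma nested_of_facet {x : ℕ × ℕ} (hx : x ∈ facets) (S : Finset bset)
    (hS : ∀ G ∈ S, x.1.testBit (en.symm G) = true) :
    IsNested M7 bset (Subtype.val '' (S : Set bset)) := by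
  refine ⟨?_, ?_⟩
  · rintro _ ⟨G, _, rfl⟩
    exact G.2
  · intro T hT hcard hanti hmem
    rw [free_closure] at hmem
    obtain ⟨w, hw⟩ := hmem
    obtain ⟨a, ha, hown⟩ := own_atom x hx w
    have haT : a ∈ ⋃₀ (T : Set (Set (Fin 7))) := by
      rw [← hw]
      exact ha
    obtain ⟨t, htT, hat⟩ := haT
    obtain ⟨G, hGS, hGt⟩ := hT htT
    have hvt : mset (en.symm G) = t := by
      rw [← hGt, ← en_val, Equiv.apply_symm_apply]
    have hsub : mset (en.symm G) ⊆ mset w := by
      rw [hw, hvt]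
      exact Set.subset_sUnion_of_mem htT
    have hne : en.symm G ≠ w := by
      intro heq
      obtain ⟨t', ht'T, ht'⟩ := Finset.exists_mem_ne (by omega : 1 < T.card) t
      have h1 : t' ⊆ t := by
        rw [← hvt, heq, hw]
        exact Set.subset_sUnion_of_mem ht'T
      exact hanti ht'T htT ht' h1
    have h2 := hown (en.symm G) (hS G hGS) (mask_and _ _ hsub) hne
    have h3 : (sets.getD (en.symm G) 0).testBit a = true := by
      rw [← hvt] at hat
      exact hat
    rw [h2] at h3
    exact Bool.false_ne_true h3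

lemma ev_gens : ∀ s ∈ ({p | ∃ S : Finset bset, ¬ IsNested M7 bset (Subtype.val '' (S : Set bset)) ∧
      p = ∏ G ∈ S, X G} ∪
      {p | ∃ a : Set (Fin 7), IsAtomFlat M7 a ∧ p = ∑ᶠ (G : bset) (_ : a ⊆ G.1), X G} :
        Set (MvPolynomial bset ℚ)),
    (∃ d, s.IsHomogeneous d ∧ ev s = 0) ∨
      (s.IsHomogeneous 1 ∧ ∃ c : ℚ, ev s = fun _ => c) := by
  classical
  rintro _ (⟨S, hS, rfl⟩ | ⟨F, hF, rfl⟩)
  · left
    refine ⟨_, IsHomogeneous.prod _ _ (fun _ => 1) fun G _ => isHomogeneous_X _ _, ?_⟩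
    funext x
    rw [map_prod, Finset.prod_apply, Pi.zero_apply]
    by_contra hcon
    apply hS
    apply nested_of_facet x.2
    intro G hG
    have h1 : ev (X G) x ≠ 0 := fun h => hcon (Finset.prod_eq_zero hG h)
    rw [← (val_ne_zero_iff x.1 x.2 _)]
    intro h2
    apply h1
    rw [← en.apply_symm_apply G, ev_X, h2, Int.cast_zero]
  · right
    obtain ⟨a, rfl⟩ := atomFlat_eq hF
    rw [lin_sum]
    refine ⟨?_, (a : ℕ) + 1, ?_⟩
    · refine IsHomogeneous.sum _ _ _ fun v _ => ?_
      split_ifs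
      · exact isHomogeneous_X _ _
      · exact isHomogeneous_zero _ _ _
    · funext x
      rw [map_sum, Finset.sum_apply]
      have h1 := val_lin x.1 x.2 a
      have h2 : ∀ v : Fin 18, ev (if (lin.getD a 0).testBit v = true then
          (X (en v) : MvPolynomial bset ℚ) else 0) x =
          ((if (lin.getD a 0).testBit v = true then val x.1 v else 0 : ℤ) : ℚ) := by
        intro v
        split_ifs
        · exact ev_X v x
        · simp
      rw [Finset.sum_congr rfl fun v _ => h2 v, ← Int.cast_sum, h1]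
      push_cast
      ring

/-- The monomial of a facet. -/
noncomputable def fmono (x : Pt) : MvPolynomial bset ℚ :=
  ∏ v ∈ Finset.univ.filter (fun v : Fin 18 => x.1.1.testBit v = true), X (en v)

lemma facet_card : ∀ x ∈ facets,
    (Finset.univ.filter (fun v : Fin 18 => x.1.testBit v = true)).card = 7 := by
  decide +kernel

lemma fmono_hom (x : Pt) : (fmono x).IsHomogeneous 7 := by
  have h := IsHomogeneous.prod (Finset.univ.filter (fun v : Fin 18 => x.1.1.testBit v = true))
    (fun v => (X (en v) : MvPolynomial bset ℚ)) (fun _ => 1) fun v _ => isHomogeneous_X _ _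
  rw [Finset.sum_const, smul_eq_mul, mul_one, facet_card x.1 x.2] at h
  exact h

lemma facets_antichain : facets.all (fun x => facets.all fun y =>
    x == y || (x.1 &&& y.1 != x.1)) = true := by
  decide +kernel

lemma facets_lt : ∀ x ∈ facets, x.1 < 2 ^ 18 := by
  decide +kernel

lemma exists_bit {x y : Pt} (h : x ≠ y) : ∃ v : Fin 18, x.1.1.testBit v = true ∧
    y.1.1.testBit v = false := by
  have h1 := facets_antichain
  rw [List.all_eq_true] at h1
  have h2 := h1 x.1 x.2
  rw [List.all_eq_true] at h2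
  have h3 := h2 y.1 y.2
  have h4 : x.1 ≠ y.1 := fun h' => h (Subtype.ext h')
  have h5 : (x.1 == y.1) = false := by simpa using h4
  rw [h5, Bool.false_or] at h3
  have h6 : x.1.1 &&& y.1.1 ≠ x.1.1 := by simpa using h3
  by_contra hcon
  push Not at hcon
  apply h6
  apply Nat.eq_of_testBit_eq
  intro i
  rw [Nat.testBit_and]
  by_cases hi : i < 18
  · have := hcon ⟨i, hi⟩
    cases hb : x.1.1.testBit i with
    | false => simp
    | true =>
      have := this hb
      simpa using this
  · have : x.1.1.testBit i = false := by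
      apply Nat.testBit_lt_two_pow
      exact lt_of_lt_of_le (facets_lt x.1 x.2) (Nat.pow_le_pow_right (by norm_num) (by omega))
    rw [this, Bool.false_and]

lemma ev_fmono_ne {x y : Pt} (h : x ≠ y) : ev (fmono x) y = 0 := by
  obtain ⟨v, hv1, hv2⟩ := exists_bit h
  rw [fmono, map_prod, Finset.prod_apply]
  refine Finset.prod_eq_zero (i := v) (by simpa using hv1) ?_
  rw [ev_X]
  have h1 := (not_congr (val_ne_zero_iff y.1 y.2 v)).2 (by simp [hv2])
  push Not at h1
  rw [h1, Int.cast_zero]

lemma ev_fmono_self (x : Pt) : ev (fmono x) x ≠ 0 := by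
  rw [fmono, map_prod, Finset.prod_apply, Finset.prod_ne_zero_iff]
  intro v hv
  rw [ev_X]
  have h1 := (val_ne_zero_iff x.1 x.2 v).2 (by simpa using hv)
  exact_mod_cast h1

lemma facets_nodup : facets.Nodup := by decide +kernel

lemma card_Pt : Fintype.card Pt = 161 := by
  rw [Fintype.card_of_subtype facets.toFinset (fun x => List.mem_toFinset),
    List.toFinset_card_of_nodup facets_nodup]
  decide +kernel

lemma Wn_top : Wn ev 7 = ⊤ := by
  rw [eq_top_iff]
  rintro f -
  have : f = ∑ x : Pt, (f x / ev (fmono x) x) • ev (fmono x) := by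
    funext y
    rw [Finset.sum_apply, Finset.sum_eq_single y]
    · rw [Pi.smul_apply, smul_eq_mul, div_mul_cancel₀ _ (ev_fmono_self y)]
    · intro x _ hxy
      rw [Pi.smul_apply, ev_fmono_ne hxy, smul_zero]
    · simp
  rw [this]
  refine Submodule.sum_mem _ fun x _ => Submodule.smul_mem _ _ ?_
  exact map_le_Wn ev 7 ⟨_, fmono_hom x, rfl⟩

lemma hf_lower : ∑ i ∈ Finset.range 8, (nodes.getD 0 default).F.getD i 0 ≤
    ∑ i ∈ Finset.range 8, hf CI i := by
  have h1 := finrank_Wn_le ev _ ev_gens 7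
  rw [Wn_top, finrank_top, Module.finrank_fintype_fun_eq_card, card_Pt] at h1
  have h2 : ∑ i ∈ Finset.range 8, (nodes.getD 0 default).F.getD i 0 = 161 := by decide +kernel
  rw [h2]
  exact h1

lemma nodes_ne : nodes ≠ [] := by
  unfold nodes
  exact List.cons_ne_nil _ _

/-- The Hilbert function of the Chow ring. -/
theorem hilb (d : ℕ) : finrank ℚ (chowPiece M7 bset d) =
    ([1, 11, 39, 59, 39, 11, 1] : List ℕ).getD d 0 := by
  have h1 := cert_hilb certHyp cert nodes_ne 8 (by norm_num) hf_lower d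
  have h2 : (nodes.getD 0 default).F = [1, 11, 39, 59, 39, 11, 1] := by decide +kernel
  rw [h2] at h1
  rw [← h1]
  exact finrank_qPiece d

/-- The Chow ring is Koszul. -/
theorem koszul : IsKoszul (chowPiece M7 bset) :=
  cert_koszul certHyp cert nodes_ne (cert_hilb certHyp cert nodes_ne 8 (by norm_num) hf_lower)

end Data

/-! ## The non-real zero -/

/-- The Hilbert polynomial `1 + 11x + 39x² + 59x³ + 39x⁴ + 11x⁵ + x⁶` has a non-real zero. -/
theorem exists_nonreal_root : ∃ z : ℂ, z.im ≠ 0 ∧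
    1 + 11 * z + 39 * z ^ 2 + 59 * z ^ 3 + 39 * z ^ 4 + 11 * z ^ 5 + z ^ 6 = 0 := by
  -- the real zero of `w³ + 4w² + 5w + 1` in `(-2/3, 0)`
  have hcont : Continuous (fun w : ℝ => w ^ 3 + 4 * w ^ 2 + 5 * w + 1) := by fun_prop
  obtain ⟨w0, hw0, hw0'⟩ := intermediate_value_Icc (by norm_num : (-2 / 3 : ℝ) ≤ 0)
    hcont.continuousOn (show (0 : ℝ) ∈ Set.Icc _ _ by
      constructor <;> norm_num)
  have hlt : -2 / 3 < w0 := by
    rcases lt_or_eq_of_le hw0.1 with h | h
    · exact h
    · exfalso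
      rw [← h] at hw0'
      norm_num at hw0'
  have hpos : 0 < (3 * w0 + 2) * (w0 + 2) := by
    apply mul_pos <;> linarith
  set s := Real.sqrt ((3 * w0 + 2) * (w0 + 2)) with hs
  have hs2 : s ^ 2 = (3 * w0 + 2) * (w0 + 2) := Real.sq_sqrt hpos.le
  have hs0 : s ≠ 0 := (Real.sqrt_pos.2 hpos).ne'
  let w : ℂ := ⟨-(4 + w0) / 2, s / 2⟩
  have hw : w ^ 3 + 4 * w ^ 2 + 5 * w + 1 = 0 := by
    have hw0'' : w0 ^ 3 + 4 * w0 ^ 2 + 5 * w0 + 1 = 0 := hw0'
    apply Complex.ext
    · simp only [pow_succ, pow_zero, one_mul, Complex.add_re, Complex.mul_re, Complex.mul_im,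
        Complex.zero_re, Complex.one_re, w, Complex.re_ofNat, Complex.im_ofNat]
      have : s * s = (3 * w0 + 2) * (w0 + 2) := by rw [← hs2]; ring
      linear_combination (-w0 / 4 * 3 / 2 * 0 + (3 * (4 + w0) / 8 - 1)) * this + hw0''
    · simp only [pow_succ, pow_zero, one_mul, Complex.add_im, Complex.mul_re, Complex.mul_im,
        Complex.zero_im, Complex.one_im, w, Complex.re_ofNat, Complex.im_ofNat]
      have : s * s = (3 * w0 + 2) * (w0 + 2) := by rw [← hs2]; ring
      linear_combination (-s / 8) * this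
  have hwim : w.im ≠ 0 := by
    simpa [w] using hs0
  have hwne : w ≠ 0 := by
    intro h
    rw [h] at hwim
    simp at hwim
  obtain ⟨t, ht⟩ := IsAlgClosed.exists_pow_nat_eq (1 - 4 * w) (n := 2) (by norm_num)
  let z : ℂ := ((1 - 2 * w) + t) / (2 * w)
  have hz : w * (1 + z) ^ 2 = z := by
    have h2w : (2 * w) ≠ 0 := mul_ne_zero two_ne_zero hwne
    simp only [z]
    field_simp
    linear_combination ht
  refine ⟨z, ?_, ?_⟩
  · intro him
    -- if `z` is real then so is `w`
    have hz1 : (1 + z) ^ 2 ≠ 0 := by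
      intro h
      rw [h, mul_zero] at hz
      rw [← hz] at h
      norm_num at h
    have hw1 : w = z / (1 + z) ^ 2 := eq_div_of_mul_eq hz1 hz
    have hzr : z = (z.re : ℂ) := Complex.ext (by simp) (by simp [him])
    apply hwim
    rw [hw1, hzr]
    have : ((z.re : ℂ) / (1 + (z.re : ℂ)) ^ 2) = ((z.re / (1 + z.re) ^ 2 : ℝ) : ℂ) := by
      push_cast
      rfl
    rw [this, Complex.ofReal_im]
  · have : (1 + z) ^ 6 * (w ^ 3 + 4 * w ^ 2 + 5 * w + 1) = 0 := by rw [hw, mul_zero]
    have e : (1 + z) ^ 6 * (w ^ 3 + 4 * w ^ 2 + 5 * w + 1) =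
        (w * (1 + z) ^ 2) ^ 3 + 4 * (w * (1 + z) ^ 2) ^ 2 * (1 + z) ^ 2 +
          5 * (w * (1 + z) ^ 2) * (1 + z) ^ 4 + (1 + z) ^ 6 := by ring
    rw [e, hz] at this
    linear_combination this

end H77.Chow
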