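import Mathlib

set_option autoImplicit false

namespace Pool.Agent.H77.Cone

/-- `InCone L K` says that `K` belongs to the rational cone `T(L)`, that is, `K = τ(L)` for a rational
transduction `τ` (Nivat's form): there are a finite alphabet `Z`, two morphisms `h : Z* → X*` and
`g : Z* → Y*` (given by the images of the letters) and a regular language `R ⊆ Z*` such that
`K = g (h⁻¹(L) ∩ R)`. -/
def InCone {X Y : Type} (L : Language X) (K : Language Y) : Prop :=
  ∃ (Z : Type) (_ : Finite Z) (h : Z → List X) (g : Z → List Y) (R : Language Z),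
    R.IsRegular ∧ ∀ v : List Y, v ∈ K ↔ ∃ z ∈ R, z.flatMap h ∈ L ∧ z.flatMap g = v

/-- `T(L) = T(K)`: the languages `L` and `K` generate the same rational cone, that is, the same
languages (over all finite alphabets) are images of `L` and of `K` under rational transductions. -/
def SameCone {X Y : Type} (L : Language X) (K : Language Y) : Prop :=
  ∀ (W : Type) [Finite W] (J : Language W), InCone L J ↔ InCone K J

/-- The word `w_1^{n_1} w_2^{n_2} ⋯ w_k^{n_k}`. -/
def blockWord {Y : Type} {k : ℕ} (w : Fin k → List Y) (n : Fin k → ℕ) : List Y :=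
  (List.ofFn fun j => (List.replicate (n j) (w j)).flatten).flatten

/-- `L` is bounded of degree `k`: it is contained in `w_1^* w_2^* ⋯ w_k^*` for some words `w_j`. -/
def BoundedOfDegree {Y : Type} (k : ℕ) (L : Language Y) : Prop :=
  ∃ w : Fin k → List Y, ∀ x ∈ L, ∃ n : Fin k → ℕ, x = blockWord w n

/-- The language `S_≠^{(k)}` over the alphabet `a_1, …, a_k` (here the letters are the elements of
`Fin k`): all the words `a_1^{n_1} ⋯ a_k^{n_k}` with `n_j ≠ n_{j+1}` for some `j`. -/
def SNeq (k : ℕ) : Language (Fin k) :=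
  {x | ∃ n : Fin k → ℕ, x = blockWord (fun j => [j]) n ∧
    ∃ (j : ℕ) (hj : j + 1 < k), n ⟨j, Nat.lt_of_succ_lt hj⟩ ≠ n ⟨j + 1, hj⟩}

end Pool.Agent.H77.Cone
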