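import Mathlib
import Pool.Agent.H77.ConeDefs

set_option autoImplicit false

namespace Pool.Agent.H77.Cone

open AddSubmonoid
open scoped Pointwise




/-- The linear set `c + ⟨t⟩`. -/
def Lin {A : Type*} [AddCommMonoid A] (c : A) (t : Set A) : Set A :=
  {a | ∃ b ∈ AddSubmonoid.closure t, a = c + b}

/-- Finite unions of linear sets whose periods lie in `Ω`. -/
def OmSL {A : Type*} [AddCommMonoid A] (Ω : Set A) (s : Set A) : Prop :=
  ∃ F : Finset (A × Finset A), (∀ p ∈ F, ∀ q ∈ p.2, q ∈ Ω) ∧
    ∀ a, a ∈ s ↔ ∃ p ∈ F, a ∈ Lin p.1 (p.2 : Set A)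

section
variable {A : Type*} [AddCommMonoid A] {Ω : Set A} {s s₁ s₂ : Set A}

theorem omSL_union (h₁ : OmSL Ω s₁) (h₂ : OmSL Ω s₂) : OmSL Ω (s₁ ∪ s₂) := by
  classical
  obtain ⟨F₁, hF₁, e₁⟩ := h₁
  obtain ⟨F₂, hF₂, e₂⟩ := h₂
  refine ⟨F₁ ∪ F₂, ?_, ?_⟩
  · intro p hp
    rcases Finset.mem_union.1 hp with h | h
    · exact hF₁ p h
    · exact hF₂ p h
  · intro a
    rw [Set.mem_union, e₁, e₂]
    constructor
    · rintro (⟨p, hp, h⟩ | ⟨p, hp, h⟩)
      · exact ⟨p, Finset.mem_union_left _ hp, h⟩
      · exact ⟨p, Finset.mem_union_right _ hp, h⟩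
    · rintro ⟨p, hp, h⟩
      rcases Finset.mem_union.1 hp with h' | h'
      · exact Or.inl ⟨p, h', h⟩
      · exact Or.inr ⟨p, h', h⟩

theorem omSL_empty : OmSL Ω (∅ : Set A) := ⟨∅, by simp, by simp⟩

theorem omSL_singleton (a : A) : OmSL Ω ({a} : Set A) := by
  refine ⟨{(a, ∅)}, by simp, ?_⟩
  intro b
  simp [Lin]

theorem omSL_finite (hs : s.Finite) : OmSL Ω s := by
  induction s, hs using Set.Finite.induction_on with
  | empty => exact omSL_empty
  | insert _ _ ih =>
    rw [Set.insert_eq]
    exact omSL_union (omSL_singleton _) ih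

theorem omSL_iUnion {ι : Type*} (T : Finset ι) (f : ι → Set A) (h : ∀ i ∈ T, OmSL Ω (f i)) :
    OmSL Ω (⋃ i ∈ T, f i) := by
  classical
  induction T using Finset.induction_on with
  | empty => simpa using omSL_empty
  | insert i T _ ih =>
    rw [Finset.set_biUnion_insert]
    exact omSL_union (h i (Finset.mem_insert_self _ _))
      (ih fun j hj => h j (Finset.mem_insert_of_mem hj))

theorem lin_add_lin (c₁ c₂ : A) (t₁ t₂ : Set A) :
    Lin c₁ t₁ + Lin c₂ t₂ = Lin (c₁ + c₂) (t₁ ∪ t₂) := by
  ext a
  rw [Set.mem_add]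
  constructor
  · rintro ⟨x, ⟨b, hb, rfl⟩, y, ⟨b', hb', rfl⟩, rfl⟩
    refine ⟨b + b', add_mem (closure_mono Set.subset_union_left hb)
      (closure_mono Set.subset_union_right hb'), by abel⟩
  · rintro ⟨b, hb, rfl⟩
    rw [AddSubmonoid.closure_union, AddSubmonoid.mem_sup] at hb
    obtain ⟨x, hx, y, hy, rfl⟩ := hb
    exact ⟨c₁ + x, ⟨x, hx, rfl⟩, c₂ + y, ⟨y, hy, rfl⟩, by abel⟩

theorem omSL_add (h₁ : OmSL Ω s₁) (h₂ : OmSL Ω s₂) : OmSL Ω (s₁ + s₂) := by
  classical
  obtain ⟨F₁, hF₁, e₁⟩ := h₁
  obtain ⟨F₂, hF₂, e₂⟩ := h₂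
  refine ⟨(F₁ ×ˢ F₂).image (fun x => (x.1.1 + x.2.1, x.1.2 ∪ x.2.2)), ?_, ?_⟩
  · intro p hp q hq
    obtain ⟨x, hx, rfl⟩ := Finset.mem_image.1 hp
    obtain ⟨hx1, hx2⟩ := Finset.mem_product.1 hx
    rcases Finset.mem_union.1 hq with h | h
    · exact hF₁ _ hx1 q h
    · exact hF₂ _ hx2 q h
  · intro a
    rw [Set.mem_add]
    constructor
    · rintro ⟨x, hx, y, hy, rfl⟩
      obtain ⟨p, hp, hx⟩ := (e₁ x).1 hx
      obtain ⟨p', hp', hy⟩ := (e₂ y).1 hy
      refine ⟨_, Finset.mem_image.2 ⟨(p, p'), Finset.mem_product.2 ⟨hp, hp'⟩, rfl⟩, ?_⟩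
      simp only [Finset.coe_union]
      rw [← lin_add_lin]
      exact Set.add_mem_add hx hy
    · rintro ⟨p, hp, ha⟩
      obtain ⟨x, hx, rfl⟩ := Finset.mem_image.1 hp
      obtain ⟨hx1, hx2⟩ := Finset.mem_product.1 hx
      simp only [Finset.coe_union] at ha
      rw [← lin_add_lin] at ha
      obtain ⟨y, hy, z, hz, rfl⟩ := Set.mem_add.1 ha
      exact ⟨y, (e₁ y).2 ⟨_, hx1, hy⟩, z, (e₂ z).2 ⟨_, hx2, hz⟩, rfl⟩

theorem closure_lin (c : A) (t : Set A) :
    (AddSubmonoid.closure (Lin c t) : Set A) = {0} ∪ Lin c (insert c t) := by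
  ext x
  simp only [SetLike.mem_coe, Set.mem_union, Set.mem_singleton_iff]
  constructor
  · intro hx
    induction hx using AddSubmonoid.closure_induction with
    | mem x hx =>
      obtain ⟨b, hb, rfl⟩ := hx
      exact Or.inr ⟨b, AddSubmonoid.closure_mono (Set.subset_insert _ _) hb, rfl⟩
    | zero => exact Or.inl rfl
    | add x y _ _ ih₁ ih₂ =>
      rcases ih₁ with rfl | ⟨x, hx, rfl⟩
      · simpa using ih₂
      · rcases ih₂ with rfl | ⟨y, hy, rfl⟩
        · exact Or.inr ⟨x, hx, by simp⟩
        · refine Or.inr ⟨c + (x + y), add_mem (AddSubmonoid.subset_closure (Set.mem_insert _ _))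
            (add_mem hx hy), by abel⟩
  · rintro (rfl | ⟨x, hx, rfl⟩)
    · exact zero_mem _
    · rw [Set.insert_eq, AddSubmonoid.closure_union, AddSubmonoid.mem_sup] at hx
      obtain ⟨y, hy, z, hz, rfl⟩ := hx
      obtain ⟨n, rfl⟩ := AddSubmonoid.mem_closure_singleton.1 hy
      have h1 : c + (n • c + z) = n • c + (c + z) := by abel
      rw [h1]
      refine add_mem (nsmul_mem (AddSubmonoid.subset_closure ?_) n)
        (AddSubmonoid.subset_closure ⟨z, hz, rfl⟩)
      exact ⟨0, zero_mem _, by simp⟩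

theorem omSL_closure (hs : s ⊆ Ω) (h : OmSL Ω s) :
    OmSL Ω (AddSubmonoid.closure s : Set A) := by
  classical
  obtain ⟨F, hF, e⟩ := h
  have hs' : s = ⋃ p ∈ F, Lin p.1 (p.2 : Set A) := by
    ext a
    rw [e]
    simp
  rw [hs'] at hs ⊢
  clear hs' e
  induction F using Finset.induction_on with
  | empty =>
    simp only [Finset.notMem_empty, Set.iUnion_of_empty, Set.iUnion_empty,
      AddSubmonoid.closure_empty, AddSubmonoid.coe_bot]
    exact omSL_singleton 0
  | insert p F _ ih =>
    rw [Finset.set_biUnion_insert] at hs ⊢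
    rw [AddSubmonoid.closure_union, AddSubmonoid.coe_sup]
    refine omSL_add ?_ (ih (Set.subset_union_right.trans hs)
      (fun q hq => hF q (Finset.mem_insert_of_mem hq)))
    rw [closure_lin]
    refine omSL_union (omSL_singleton 0) ⟨{(p.1, insert p.1 p.2)}, ?_, ?_⟩
    · intro q hq r hr
      rw [Finset.mem_singleton] at hq
      subst hq
      rcases Finset.mem_insert.1 hr with rfl | h
      · exact hs (Set.mem_union_left _ ⟨0, zero_mem _, by simp⟩)
      · exact hF p (Finset.mem_insert_self _ _) r h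
    · intro a
      simp

end

/-- Weighted walks: `Walk step f S p q a` says that there is a nonempty walk from `p` to `q` of
weight `a` all of whose intermediate states lie in `S`. -/
inductive Walk {Z σ A : Type*} [AddCommMonoid A] (step : σ → Z → σ) (f : Z → A) (S : Set σ) :
    σ → σ → A → Prop
  | single (p : σ) (z : Z) : Walk step f S p (step p z) (f z)
  | cons (p : σ) (z : Z) (q : σ) (a : A) (h : step p z ∈ S)
      (hw : Walk step f S (step p z) q a) : Walk step f S p q (f z + a)

section
variable {Z σ A : Type*} [AddCommMonoid A] {step : σ → Z → σ} {f : Z → A}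

theorem Walk.mono {S T : Set σ} (hST : S ⊆ T) {p q : σ} {a : A} (h : Walk step f S p q a) :
    Walk step f T p q a := by
  induction h with
  | single p z => exact Walk.single p z
  | cons p z q a h _ ih => exact Walk.cons p z q a (hST h) ih

theorem Walk.append {S : Set σ} {p r q : σ} {a b : A} (h : Walk step f S p r a) (hr : r ∈ S)
    (h' : Walk step f S r q b) : Walk step f S p q (a + b) := by
  induction h with
  | single p z => exact Walk.cons p z q b hr h'
  | cons p z r a hS _ ih =>
    rw [add_assoc]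
    exact Walk.cons p z q _ hS (ih hr h')

theorem Walk.split {S : Set σ} {r p q : σ} {a : A} (h : Walk step f (insert r S) p q a) :
    Walk step f S p q a ∨ ∃ a1, Walk step f S p r a1 ∧
      ∃ a2 ∈ AddSubmonoid.closure {x | Walk step f S r r x}, ∃ a3, Walk step f S r q a3 ∧
        a = a1 + a2 + a3 := by
  induction h with
  | single p z => exact Or.inl (Walk.single p z)
  | cons p z q a hS _ ih =>
    rcases ih with h1 | ⟨a1, h1, a2, h2, a3, h3, rfl⟩
    · rcases hS with hr | hS
      · rw [hr] at h1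
        have h4 := Walk.single (step := step) (f := f) (S := S) p z
        rw [hr] at h4
        exact Or.inr ⟨f z, h4, 0, zero_mem _, a, h1, by simp⟩
      · exact Or.inl (Walk.cons p z q a hS h1)
    · right
      rcases hS with hr | hS
      · rw [hr] at h1
        have h4 := Walk.single (step := step) (f := f) (S := S) p z
        rw [hr] at h4
        exact ⟨f z, h4, a1 + a2, add_mem (AddSubmonoid.subset_closure h1) h2, a3, h3, by abel⟩
      · exact ⟨f z + a1, Walk.cons p z r a1 hS h1, a2, h2, a3, h3, by abel⟩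

theorem walk_insert (S : Set σ) (r p q : σ) :
    {a | Walk step f (insert r S) p q a} = {a | Walk step f S p q a} ∪
      ({a | Walk step f S p r a} +
        ((AddSubmonoid.closure {x | Walk step f S r r x} : Set A) + {a | Walk step f S r q a})) := by
  ext a
  constructor
  · intro h
    rcases Walk.split h with h | ⟨a1, h1, a2, h2, a3, h3, rfl⟩
    · exact Or.inl h
    · right
      rw [add_assoc]
      exact Set.add_mem_add h1 (Set.add_mem_add h2 h3)
  · have hr : r ∈ insert r S := Set.mem_insert _ _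
    rintro (h | h)
    · exact Walk.mono (Set.subset_insert _ _) h
    · obtain ⟨a1, h1, b, hb, rfl⟩ := Set.mem_add.1 h
      obtain ⟨a2, h2, a3, h3, rfl⟩ := Set.mem_add.1 hb
      refine Walk.append (Walk.mono (Set.subset_insert _ _) h1) hr ?_
      have h3' : Walk step f (insert r S) r q a3 := Walk.mono (Set.subset_insert _ _) h3
      have : ∀ x ∈ AddSubmonoid.closure {x | Walk step f S r r x},
          ∀ y, Walk step f (insert r S) r q y → Walk step f (insert r S) r q (x + y) := by
        intro x hx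
        induction hx using AddSubmonoid.closure_induction with
        | mem x hx =>
          intro y hy
          exact Walk.append (Walk.mono (Set.subset_insert _ _) hx) hr hy
        | zero => intro y hy; rwa [zero_add]
        | add x x' _ _ ih₁ ih₂ =>
          intro y hy
          rw [add_assoc]
          exact ih₁ _ (ih₂ _ hy)
      exact this a2 h2 a3 h3'

/-- Kleene's elimination for commutative weights. -/
theorem walk_omSL [Finite Z] {Ω : Set A} (U : Finset σ)
    (hU : ∀ r ∈ U, ∀ a, Walk step f (U : Set σ) r r a → a ∈ Ω) (p q : σ) :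
    OmSL Ω {a | Walk step f (U : Set σ) p q a} := by
  classical
  have key : ∀ S : Finset σ, S ⊆ U → ∀ p q : σ, OmSL Ω {a | Walk step f (S : Set σ) p q a} := by
    intro S
    induction S using Finset.induction_on with
    | empty =>
      intro _ p q
      apply omSL_finite
      refine (Set.finite_range f).subset ?_
      intro a ha
      have ha' : Walk step f ((∅ : Finset σ) : Set σ) p q a := ha
      cases ha' with
      | single p z => exact ⟨z, rfl⟩
      | cons p z q a h _ => simp at h
    | insert r S _ ih =>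
      intro hS p q
      have ih' := ih ((Finset.subset_insert _ _).trans hS)
      rw [Finset.coe_insert, walk_insert]
      refine omSL_union (ih' p q) (omSL_add (ih' p r) (omSL_add (omSL_closure ?_ (ih' r r))
        (ih' r q)))
      intro a ha
      exact hU r (hS (Finset.mem_insert_self _ _)) a
        (Walk.mono (Finset.coe_subset.2 ((Finset.subset_insert _ _).trans hS)) ha)
  exact key U (Finset.Subset.refl _) p q

end


section
variable {Z σ A : Type*} [AddCommMonoid A]

/-- The weights of the words of a regular language form a finite union of linear sets whose periods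
are weights of loops at useful states. -/
theorem dfa_omSL [Finite Z] [Finite σ] (M : DFA Z σ) (f : Z → A) (Ω : Set A)
    (hΩ : ∀ x z y : List Z, z ≠ [] → x ++ y ∈ M.accepts → x ++ z ++ z ++ y ∈ M.accepts →
      M.evalFrom (M.eval x) z = M.eval x → (z.map f).sum ∈ Ω) :
    OmSL Ω {a | ∃ z ∈ M.accepts, (z.map f).sum = a} := by
  classical
  have := Fintype.ofFinite σ
  set U : Finset σ := Finset.univ.filter
    (fun s => (∃ x, M.eval x = s) ∧ ∃ y, M.evalFrom s y ∈ M.accept) with hUdef
  have hUmem : ∀ s, s ∈ U ↔ (∃ x, M.eval x = s) ∧ ∃ y, M.evalFrom s y ∈ M.accept := by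
    intro s; simp [hUdef]
  -- walks give words
  have hword : ∀ (S : Set σ) p q a, Walk M.step f S p q a →
      ∃ z : List Z, z ≠ [] ∧ M.evalFrom p z = q ∧ (z.map f).sum = a := by
    intro S p q a h
    induction h with
    | single p z => exact ⟨[z], by simp, by simp [DFA.evalFrom], by simp⟩
    | cons p z q a _ _ ih =>
      obtain ⟨w, -, hw, rfl⟩ := ih
      exact ⟨z :: w, by simp, by rw [← hw]; rfl, by simp⟩
  -- words give walks
  have hwalk : ∀ (z : List Z) (x : List Z), z ≠ [] → M.evalFrom (M.eval x) z ∈ M.accept →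
      Walk M.step f (U : Set σ) (M.eval x) (M.evalFrom (M.eval x) z) (z.map f).sum := by
    intro z
    induction z with
    | nil => intro x h; exact absurd rfl h
    | cons c z ih =>
      intro x _ hacc
      have hstep : M.step (M.eval x) c = M.eval (x ++ [c]) := by
        simp [DFA.eval]
      rcases List.eq_nil_or_concat z with hz | ⟨z', c', hz⟩
      · subst hz
        simpa [DFA.evalFrom] using Walk.single (step := M.step) (f := f) (S := (U : Set σ))
          (M.eval x) c
      · have hne : z ≠ [] := by rw [hz]; simp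
        have hacc' : M.evalFrom (M.eval (x ++ [c])) z ∈ M.accept := by
          rw [← hstep]; exact hacc
        have h1 := ih (x ++ [c]) hne hacc'
        have h2 : M.eval (x ++ [c]) ∈ U := (hUmem _).2 ⟨⟨_, rfl⟩, z, hacc'⟩
        rw [← hstep] at h1 h2
        rw [List.map_cons, List.sum_cons]
        exact Walk.cons _ c _ _ h2 h1
  have hUloop : ∀ r ∈ U, ∀ a, Walk M.step f (U : Set σ) r r a → a ∈ Ω := by
    intro r hr a ha
    obtain ⟨⟨x, rfl⟩, y, hy⟩ := (hUmem r).1 hr
    obtain ⟨z, hz, hzr, rfl⟩ := hword _ _ _ _ ha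
    refine hΩ x z y hz ?_ ?_ hzr
    · rw [DFA.mem_accepts, DFA.eval, DFA.evalFrom_of_append]
      exact hy
    · rw [DFA.mem_accepts, DFA.eval, DFA.evalFrom_of_append, DFA.evalFrom_of_append,
        DFA.evalFrom_of_append]
      change M.evalFrom (M.evalFrom (M.evalFrom (M.eval x) z) z) y ∈ M.accept
      rw [hzr, hzr]
      exact hy
  have hmain : {a | ∃ z ∈ M.accepts, (z.map f).sum = a} =
      (⋃ q ∈ (Finset.univ.filter (fun q => q ∈ M.accept) : Finset σ),
        {a | Walk M.step f (U : Set σ) M.start q a}) ∪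
      {a | [] ∈ M.accepts ∧ a = 0} := by
    ext a
    constructor
    · rintro ⟨z, hz, rfl⟩
      rcases List.eq_nil_or_concat z with hz' | ⟨z', c', hz'⟩
      · right
        subst hz'
        exact ⟨hz, by simp⟩
      · left
        have hne : z ≠ [] := by rw [hz']; simp
        have hz2 : M.evalFrom (M.eval []) z ∈ M.accept := hz
        refine Set.mem_biUnion (x := M.evalFrom (M.eval []) z) ?_ (hwalk z [] hne hz2)
        simpa using hz2
    · rintro (h | ⟨h, rfl⟩)
      · obtain ⟨q, hq, hw⟩ := Set.mem_iUnion₂.1 h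
        obtain ⟨z, -, hz, rfl⟩ := hword _ _ _ _ hw
        refine ⟨z, ?_, rfl⟩
        rw [DFA.mem_accepts]
        have hq' : q ∈ M.accept := by simpa using hq
        rw [← hz] at hq'
        exact hq'
      · exact ⟨[], h, by simp⟩
  rw [hmain]
  refine omSL_union (omSL_iUnion _ _ fun q _ => walk_omSL U hUloop _ _) ?_
  by_cases h : [] ∈ M.accepts
  · have : {a : A | [] ∈ M.accepts ∧ a = 0} = {0} := by
      ext a; simp [h]
    rw [this]
    exact omSL_singleton 0
  · have : {a : A | [] ∈ M.accepts ∧ a = 0} = ∅ := by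
      ext a; simp [h]
    rw [this]
    exact omSL_empty

end





theorem reg_of_factor {α T : Type} [Finite T] {L : Language α} (c : List α → T)
    (G : T → Language α) (h : ∀ x y, x ++ y ∈ L ↔ y ∈ G (c x)) : L.IsRegular := by
  refine Language.IsRegular.of_finite_range_leftQuotient ((Set.finite_range G).subset ?_)
  rintro _ ⟨x, rfl⟩
  refine ⟨c x, ?_⟩
  ext y
  exact (h x y).symm

theorem reg_comap {Z Y : Type} (f : Z → List Y) {L : Language Y} (hL : L.IsRegular) :
    Language.IsRegular ({z | z.flatMap f ∈ L} : Language Z) := by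
  have h := hL.finite_range_leftQuotient
  refine Language.IsRegular.of_finite_range_leftQuotient
    ((h.image (fun K : Language Y => ({z | z.flatMap f ∈ K} : Language Z))).subset ?_)
  rintro _ ⟨x, rfl⟩
  refine ⟨_, ⟨x.flatMap f, rfl⟩, ?_⟩
  ext y
  change x.flatMap f ++ y.flatMap f ∈ L ↔ (x ++ y).flatMap f ∈ L
  rw [List.flatMap_append]

theorem reg_map {Z Y : Type} [Finite Z] [Finite Y] (g : Z → List Y) {R : Language Z}
    (hR : R.IsRegular) :
    Language.IsRegular ({y | ∃ z ∈ R, z.flatMap g = y} : Language Y) := by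
  classical
  obtain ⟨σ, _, M, rfl⟩ := hR
  obtain ⟨G, hG⟩ : ∃ G : ℕ, ∀ c, (g c).length ≤ G := by
    have := Fintype.ofFinite Z
    exact ⟨∑ c, (g c).length, fun c => Finset.single_le_sum (f := fun c => (g c).length)
      (fun _ _ => Nat.zero_le _) (Finset.mem_univ c)⟩
  have : Finite {p : List Y // p.length ≤ G} := List.finite_length_le Y G
  have hfac : ∀ (z : List Z) (x y : List Y), z.flatMap g = x ++ y →
      ∃ z' z'' p, z = z' ++ z'' ∧ z'.flatMap g = x ++ p ∧ p.length ≤ G ∧ y = p ++ z''.flatMap g := by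
    intro z
    induction z with
    | nil =>
      intro x y h
      simp only [List.flatMap_nil] at h
      have := List.append_eq_nil_iff.1 h.symm
      obtain ⟨rfl, rfl⟩ := this
      exact ⟨[], [], [], rfl, rfl, Nat.zero_le _, rfl⟩
    | cons c z ih =>
      intro x y h
      rw [List.flatMap_cons] at h
      rcases List.append_eq_append_iff.1 h with ⟨a', h1, h2⟩ | ⟨c', h1, h2⟩
      · -- x = g c ++ a'
        obtain ⟨z', z'', p, h3, h4, h5, h6⟩ := ih a' y h2
        refine ⟨c :: z', z'', p, by rw [h3]; rfl, ?_, h5, h6⟩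
        rw [List.flatMap_cons, h4, h1, List.append_assoc]
      · -- g c = x ++ c'
        refine ⟨[c], z, c', rfl, ?_, ?_, h2⟩
        · simp [h1]
        · have := hG c
          rw [h1, List.length_append] at this
          omega
  refine reg_of_factor (T := Set (σ × {p : List Y // p.length ≤ G}))
    (fun x => {sp | ∃ z', M.eval z' = sp.1 ∧ z'.flatMap g = x ++ sp.2.1})
    (fun S => {y | ∃ sp ∈ S, ∃ z'', M.evalFrom sp.1 z'' ∈ M.accept ∧ y = sp.2.1 ++ z''.flatMap g})
    ?_
  intro x y
  constructor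
  · rintro ⟨z, hz, hzy⟩
    obtain ⟨z', z'', p, rfl, h1, h2, h3⟩ := hfac z x y hzy
    refine ⟨(M.eval z', ⟨p, h2⟩), ⟨z', rfl, h1⟩, z'', ?_, h3⟩
    rw [DFA.mem_accepts, DFA.eval, DFA.evalFrom_of_append] at hz
    exact hz
  · rintro ⟨⟨s, p⟩, ⟨z', hs, h1⟩, z'', h2, rfl⟩
    refine ⟨z' ++ z'', ?_, ?_⟩
    · rw [DFA.mem_accepts, DFA.eval, DFA.evalFrom_of_append]
      simp only at hs
      change M.evalFrom (M.eval z') z'' ∈ M.accept
      rw [hs]
      exact h2
    · rw [List.flatMap_append, h1, List.append_assoc]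

theorem reg_sorted (I : Type) [Finite I] [LinearOrder I] :
    Language.IsRegular ({x | x.Pairwise (· ≤ ·)} : Language I) := by
  refine reg_of_factor (T := Prop × Set I) (fun x => (x.Pairwise (· ≤ ·), {a | a ∈ x}))
    (fun T => {y | T.1 ∧ y.Pairwise (· ≤ ·) ∧ ∀ a ∈ T.2, ∀ b ∈ y, a ≤ b}) ?_
  intro x y
  exact List.pairwise_append

/-- Eventually periodic in each coordinate, with period `m` and threshold `N`. -/
def Per {I : Type} [DecidableEq I] (N m : ℕ) (V : Set (I → ℕ)) : Prop :=
  ∀ (j : I) (v : I → ℕ), N ≤ v j → (v ∈ V ↔ v + Pi.single j m ∈ V)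

theorem per_mul {I : Type} [DecidableEq I] {N m : ℕ} {V : Set (I → ℕ)} (h : Per N m V) (s : ℕ)
    (j : I) (v : I → ℕ) (hv : N ≤ v j) : v ∈ V ↔ v + Pi.single j (s * m) ∈ V := by
  induction s with
  | zero => simp
  | succ s ih =>
    have h1 := h j (v + Pi.single j (s * m)) (by simp; omega)
    rw [add_assoc, ← Pi.single_add, ← Nat.succ_mul] at h1
    exact ih.trans h1

/-- Reduction of a number below `N + m`. -/
def red (N m t : ℕ) : ℕ := if t < N then t else N + (t - N) % m

theorem red_lt {N m : ℕ} (hm : 0 < m) (t : ℕ) : red N m t < N + m := by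
  unfold red
  split_ifs with h
  · omega
  · have := Nat.mod_lt (t - N) hm
    omega

theorem red_spec (N m t : ℕ) : ∃ s, t = red N m t + s * m ∧ (s ≠ 0 → N ≤ red N m t) := by
  unfold red
  split_ifs with h
  · exact ⟨0, by simp, by simp⟩
  · refine ⟨(t - N) / m, ?_, fun _ => Nat.le_add_right _ _⟩
    have := Nat.mod_add_div (t - N) m
    rw [mul_comm ((t - N) / m) m]
    omega

theorem per_red {I : Type} [Finite I] [DecidableEq I] {N m : ℕ} {V : Set (I → ℕ)} (h : Per N m V)
    (v u : I → ℕ) : v + u ∈ V ↔ (fun j => red N m (v j)) + u ∈ V := by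
  classical
  have := Fintype.ofFinite I
  have key : ∀ S : Finset I, v + u ∈ V ↔
      (fun j => if j ∈ S then red N m (v j) else v j) + u ∈ V := by
    intro S
    induction S using Finset.induction_on with
    | empty => simp
    | insert j S hj ih =>
      rw [ih]
      obtain ⟨s, hs, hs'⟩ := red_spec N m (v j)
      have heq : ((fun l => if l ∈ S then red N m (v l) else v l) + u : I → ℕ) =
          ((fun l => if l ∈ insert j S then red N m (v l) else v l) + u) + Pi.single j (s * m) := by
        funext l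
        by_cases hl : l = j
        · subst hl
          simp only [Pi.add_apply, hj, if_false, Finset.mem_insert_self, if_true, Pi.single_eq_same]
          omega
        · simp [Finset.mem_insert, hl]
      rw [heq]
      by_cases h0 : s = 0
      · subst h0; simp
      · refine (per_mul h s j _ ?_).symm
        have := hs' h0
        simp only [Pi.add_apply, Finset.mem_insert_self, if_true]
        omega
  simpa using key Finset.univ

theorem reg_count {I : Type} [Finite I] [DecidableEq I] [BEq I] {N m : ℕ} (hm : 0 < m)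
    {V : Set (I → ℕ)}
    (h : Per N m V) :
    Language.IsRegular ({x | (fun i => x.count i) ∈ V} : Language I) := by
  refine reg_of_factor (T := I → Fin (N + m)) (fun x i => ⟨red N m (x.count i), red_lt hm _⟩)
    (fun T => {y | (fun i => (T i : ℕ)) + (fun i => y.count i) ∈ V}) ?_
  intro x y
  change (fun i => (x ++ y).count i) ∈ V ↔ (fun i => red N m (x.count i)) + (fun i => y.count i) ∈ V
  rw [← per_red h]
  have : (fun i => (x ++ y).count i) = (fun i => x.count i) + (fun i => y.count i) := by
    funext i; simp [List.count_append]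
  rw [this]

/-! ### composition of rational transductions -/

/-- Automaton which matches the outputs of the first word with the inputs of the second one,
keeping the pending output. -/
def syncDFA {Z₁ Z₂ Y : Type} [DecidableEq Y] (g₁ : Z₁ → List Y) (h₂ : Z₂ → List Y) (N : ℕ) :
    DFA (Z₁ ⊕ Z₂) (Option {p : List Y // p.length ≤ N}) where
  step
    | none, _ => none
    | some p, .inl z => if h : (p.1 ++ g₁ z).length ≤ N then some ⟨p.1 ++ g₁ z, h⟩ else none
    | some p, .inr z => if h₂ z <+: p.1 then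
        some ⟨p.1.drop (h₂ z).length, by rw [List.length_drop]; have := p.2; omega⟩ else none
  start := some ⟨[], Nat.zero_le _⟩
  accept := {some ⟨[], Nat.zero_le _⟩}


section
variable {Z₁ Z₂ Y : Type} [DecidableEq Y] (g₁ : Z₁ → List Y) (h₂ : Z₂ → List Y) (N : ℕ)

/-- the projection to the first word -/
def p1 : Z₁ ⊕ Z₂ → List Z₁ := Sum.elim (fun z => [z]) (fun _ => [])
/-- the projection to the second word -/
def p2 : Z₁ ⊕ Z₂ → List Z₂ := Sum.elim (fun _ => []) (fun z => [z])

theorem sync_none (t : List (Z₁ ⊕ Z₂)) : (syncDFA g₁ h₂ N).evalFrom none t = none := by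
  induction t with
  | nil => rfl
  | cons c t ih => exact ih

theorem sync_sound (t : List (Z₁ ⊕ Z₂)) (p q : {p : List Y // p.length ≤ N})
    (h : (syncDFA g₁ h₂ N).evalFrom (some p) t = some q) :
    p.1 ++ (t.flatMap p1).flatMap g₁ = (t.flatMap p2).flatMap h₂ ++ q.1 := by
  induction t generalizing p with
  | nil =>
    simp only [DFA.evalFrom_nil, Option.some.injEq] at h
    subst h
    simp
  | cons c t ih =>
    change (syncDFA g₁ h₂ N).evalFrom ((syncDFA g₁ h₂ N).step (some p) c) t = some q at h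
    cases c with
    | inl z =>
      by_cases hl : (p.1 ++ g₁ z).length ≤ N
      · have hst : (syncDFA g₁ h₂ N).step (some p) (Sum.inl z) = some ⟨p.1 ++ g₁ z, hl⟩ := by
          simp only [syncDFA, dif_pos hl]
        rw [hst] at h
        have := ih _ h
        simpa [p1, p2, List.flatMap_cons, List.append_assoc] using this
      · have hst : (syncDFA g₁ h₂ N).step (some p) (Sum.inl z) = none := by
          simp only [syncDFA, dif_neg hl]
        rw [hst, sync_none] at h
        exact absurd h (by simp)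
    | inr z =>
      by_cases hl : h₂ z <+: p.1
      · have hst : (syncDFA g₁ h₂ N).step (some p) (Sum.inr z) =
            some ⟨p.1.drop (h₂ z).length, by rw [List.length_drop]; have := p.2; omega⟩ := by
          simp only [syncDFA, if_pos hl]
        rw [hst] at h
        have := ih _ h
        simp only at this
        obtain ⟨r, hr⟩ := hl
        have hdrop : p.1.drop (h₂ z).length = r := by
          rw [← hr, List.drop_left]
        rw [hdrop] at this
        rw [← hr]
        simp only [p1, p2, List.flatMap_cons, Sum.elim_inr, List.nil_append, List.append_assoc,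
          List.singleton_append] at this ⊢
        rw [this]
      · have hst : (syncDFA g₁ h₂ N).step (some p) (Sum.inr z) = none := by
          simp only [syncDFA, if_neg hl]
        rw [hst, sync_none] at h
        exact absurd h (by simp)

theorem sync_complete (N₀ N₁ : ℕ) (hN₀ : ∀ z, (h₂ z).length ≤ N₀) (hN₁ : ∀ z, (g₁ z).length ≤ N₁)
    (hN : N₀ + N₁ ≤ N) :
    ∀ (n : ℕ) (z₁ : List Z₁) (z₂ : List Z₂) (p : {p : List Y // p.length ≤ N}),
      z₁.length + z₂.length = n → p.1 ++ z₁.flatMap g₁ = z₂.flatMap h₂ →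
      ∃ t : List (Z₁ ⊕ Z₂), t.flatMap p1 = z₁ ∧ t.flatMap p2 = z₂ ∧
        (syncDFA g₁ h₂ N).evalFrom (some p) t = some ⟨[], Nat.zero_le _⟩ := by
  intro n
  induction n with
  | zero =>
    intro z₁ z₂ p hlen heq
    have h1 : z₁ = [] := List.length_eq_zero_iff.1 (by omega)
    have h2 : z₂ = [] := List.length_eq_zero_iff.1 (by omega)
    subst h1 h2
    simp only [List.flatMap_nil, List.append_nil] at heq
    refine ⟨[], rfl, rfl, ?_⟩
    simp only [DFA.evalFrom_nil, Option.some.injEq]
    exact Subtype.ext heq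
  | succ n ih =>
    intro z₁ z₂ p hlen heq
    -- a step in the first word
    have left : ∀ (c : Z₁) (z₁' : List Z₁), z₁ = c :: z₁' → (p.1 ++ g₁ c).length ≤ N →
        ∃ t : List (Z₁ ⊕ Z₂), t.flatMap p1 = z₁ ∧ t.flatMap p2 = z₂ ∧
        (syncDFA g₁ h₂ N).evalFrom (some p) t = some ⟨[], Nat.zero_le _⟩ := by
      intro c z₁' hz hl
      subst hz
      obtain ⟨t, h1, h2, h3⟩ := ih z₁' z₂ ⟨p.1 ++ g₁ c, hl⟩ (by simp at hlen; omega)
        (by rw [← heq]; simp [List.flatMap_cons])
      refine ⟨Sum.inl c :: t, by simp [p1, List.flatMap_cons, ← h1], ?_, ?_⟩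
      · rw [List.flatMap_cons, h2]; rfl
      · change (syncDFA g₁ h₂ N).evalFrom ((syncDFA g₁ h₂ N).step (some p) (Sum.inl c)) t = _
        have hst : (syncDFA g₁ h₂ N).step (some p) (Sum.inl c) = some ⟨p.1 ++ g₁ c, hl⟩ := by
          simp only [syncDFA, dif_pos hl]
        rw [hst]
        exact h3
    cases z₂ with
    | nil =>
      simp only [List.flatMap_nil] at heq
      obtain ⟨hp, hz⟩ := List.append_eq_nil_iff.1 heq
      cases z₁ with
      | nil => simp at hlen
      | cons c z₁' =>
        refine left c z₁' rfl ?_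
        rw [List.flatMap_cons] at hz
        obtain ⟨hc, -⟩ := List.append_eq_nil_iff.1 hz
        rw [hp, hc]
        exact Nat.zero_le _
    | cons d z₂' =>
      by_cases hpre : h₂ d <+: p.1
      · obtain ⟨r, hr⟩ := hpre
        have hdrop : p.1.drop (h₂ d).length = r := by
          rw [← hr, List.drop_left]
        have hrl : r.length ≤ N := by
          have := p.2
          rw [← hr, List.length_append] at this
          omega
        obtain ⟨t, h1, h2, h3⟩ := ih z₁ z₂' ⟨r, hrl⟩ (by simp at hlen; omega) (by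
          rw [← hr, List.flatMap_cons, List.append_assoc] at heq
          exact List.append_cancel_left heq)
        refine ⟨Sum.inr d :: t, ?_, by simp [p2, List.flatMap_cons, ← h2], ?_⟩
        · rw [List.flatMap_cons, h1]; rfl
        · change (syncDFA g₁ h₂ N).evalFrom ((syncDFA g₁ h₂ N).step (some p) (Sum.inr d)) t = _
          have hst : (syncDFA g₁ h₂ N).step (some p) (Sum.inr d) = some ⟨r, hrl⟩ := by
            have hl : h₂ d <+: p.1 := ⟨r, hr⟩
            simp only [syncDFA, if_pos hl, hdrop]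
          rw [hst]
          exact h3
      · -- the pending word is short
        rw [List.flatMap_cons] at heq
        have hshort : p.1.length < (h₂ d).length := by
          by_contra hge
          push Not at hge
          apply hpre
          refine List.prefix_of_prefix_length_le (l₃ := h₂ d ++ z₂'.flatMap h₂) ⟨_, rfl⟩
            ⟨z₁.flatMap g₁, heq⟩ hge
        cases z₁ with
        | nil =>
          exfalso
          simp only [List.flatMap_nil, List.append_nil] at heq
          rw [heq, List.length_append] at hshort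
          omega
        | cons c z₁' =>
          refine left c z₁' rfl ?_
          have h1 := hN₀ d
          have h2 := hN₁ c
          rw [List.length_append]
          omega

end

/-- Composition of rational transductions. -/
theorem InCone.trans {X Y W : Type} [Finite Y] {L : Language X} {K : Language Y} {J : Language W}
    (h₁ : InCone L K) (h₂ : InCone K J) : InCone L J := by
  classical
  obtain ⟨Z₁, _, a₁, g₁, R₁, hR₁, e₁⟩ := h₁
  obtain ⟨Z₂, _, a₂, g₂, R₂, hR₂, e₂⟩ := h₂
  obtain ⟨N₀, hN₀⟩ : ∃ G : ℕ, ∀ c, (a₂ c).length ≤ G := by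
    have := Fintype.ofFinite Z₂
    exact ⟨∑ c, (a₂ c).length, fun c => Finset.single_le_sum (f := fun c => (a₂ c).length)
      (fun _ _ => Nat.zero_le _) (Finset.mem_univ c)⟩
  obtain ⟨N₁, hN₁⟩ : ∃ G : ℕ, ∀ c, (g₁ c).length ≤ G := by
    have := Fintype.ofFinite Z₁
    exact ⟨∑ c, (g₁ c).length, fun c => Finset.single_le_sum (f := fun c => (g₁ c).length)
      (fun _ _ => Nat.zero_le _) (Finset.mem_univ c)⟩
  have hfin : Finite {p : List Y // p.length ≤ N₀ + N₁} := List.finite_length_le Y (N₀ + N₁)
  have hsync : Language.IsRegular (syncDFA g₁ a₂ (N₀ + N₁)).accepts :=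
    ⟨_, Fintype.ofFinite _, syncDFA g₁ a₂ (N₀ + N₁), rfl⟩
  refine ⟨Z₁ ⊕ Z₂, inferInstance, fun c => (p1 c).flatMap a₁, fun c => (p2 c).flatMap g₂,
    (({t | t.flatMap p1 ∈ R₁} : Language (Z₁ ⊕ Z₂)) ⊓
      ({t | t.flatMap p2 ∈ R₂} : Language (Z₁ ⊕ Z₂))) ⊓ (syncDFA g₁ a₂ (N₀ + N₁)).accepts,
    ((reg_comap p1 hR₁).inf (reg_comap p2 hR₂)).inf hsync, ?_⟩
  intro v
  rw [e₂]
  constructor
  · rintro ⟨z₂, hz₂, hK, rfl⟩
    obtain ⟨z₁, hz₁, hL, heq⟩ := (e₁ _).1 hK
    obtain ⟨t, h1, h2, h3⟩ := sync_complete g₁ a₂ (N₀ + N₁) N₀ N₁ hN₀ hN₁ le_rfl _ z₁ z₂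
      ⟨[], Nat.zero_le _⟩ rfl heq
    refine ⟨t, ⟨⟨?_, ?_⟩, ?_⟩, ?_, ?_⟩
    · change t.flatMap p1 ∈ R₁
      rw [h1]; exact hz₁
    · change t.flatMap p2 ∈ R₂
      rw [h2]; exact hz₂
    · exact h3
    · rw [← List.flatMap_assoc, h1]; exact hL
    · rw [← List.flatMap_assoc, h2]
  · rintro ⟨t, ⟨⟨h1, h2⟩, h3⟩, hL, rfl⟩
    have h1' : t.flatMap p1 ∈ R₁ := h1
    have h2' : t.flatMap p2 ∈ R₂ := h2
    have h3' : (syncDFA g₁ a₂ (N₀ + N₁)).evalFrom (some ⟨[], Nat.zero_le _⟩) t =
      some ⟨[], Nat.zero_le _⟩ := h3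
    have h4 := sync_sound g₁ a₂ (N₀ + N₁) t _ _ h3'
    simp only [List.nil_append, List.append_nil] at h4
    refine ⟨t.flatMap p2, h2', ?_, by rw [List.flatMap_assoc]⟩
    rw [e₁]
    exact ⟨t.flatMap p1, h1', by rw [List.flatMap_assoc]; exact hL, h4⟩






theorem lin_add {A : Type*} [AddCommMonoid A] {c : A} {t : Set A} {a q : A} (n : ℕ)
    (ha : a ∈ Lin c t) (hq : q ∈ t) : a + n • q ∈ Lin c t := by
  obtain ⟨b, hb, rfl⟩ := ha
  exact ⟨b + n • q, add_mem hb (nsmul_mem (subset_closure hq) n), by rw [add_assoc]⟩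

theorem lin_eq_vadd {A : Type*} [AddCommMonoid A] (c : A) (t : Set A) :
    Lin c t = c +ᵥ (closure t : Set A) := by
  ext a
  simp only [Lin, Set.mem_ofPred_eq, Set.mem_vadd_set, vadd_eq_add, SetLike.mem_coe]
  constructor
  · rintro ⟨b, hb, rfl⟩; exact ⟨b, hb, rfl⟩
  · rintro ⟨b, hb, rfl⟩; exact ⟨b, hb, rfl⟩

theorem usage {A : Type*} [AddCommMonoid A] (c : A) (t : Finset A) (ℓ : A →+ ℕ) (N' : ℕ)
    (a : A) (ha : a ∈ Lin c (t : Set A)) (hN : ℓ c + N' * ∑ q ∈ t, ℓ q < ℓ a) :
    ∃ q ∈ t, 0 < ℓ q ∧ ∃ a1 ∈ Lin c (t : Set A), a = a1 + N' • q := by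
  classical
  obtain ⟨b, hb, rfl⟩ := ha
  obtain ⟨f, hf, rfl⟩ := AddSubmonoid.mem_closure_finset.1 hb
  by_contra hcon
  push Not at hcon
  have key : ∀ q ∈ t, 0 < ℓ q → f q < N' := by
    intro q hq hpos
    by_contra hge
    push Not at hge
    refine hcon q hq hpos (c + (∑ x ∈ t.erase q, f x • x + (f q - N') • q)) ?_ ?_
    · refine ⟨_, ?_, rfl⟩
      refine add_mem (sum_mem fun x hx => nsmul_mem (subset_closure (Finset.mem_of_mem_erase hx)) _)
        (nsmul_mem (subset_closure hq) _)
    · rw [add_assoc c, add_assoc (∑ x ∈ t.erase q, f x • x), ← add_smul,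
        Nat.sub_add_cancel hge, Finset.sum_erase_add _ _ hq]
  have hle : ℓ (∑ x ∈ t, f x • x) ≤ N' * ∑ q ∈ t, ℓ q := by
    rw [map_sum, Finset.mul_sum]
    refine Finset.sum_le_sum fun x hx => ?_
    rw [map_nsmul, smul_eq_mul]
    rcases Nat.eq_zero_or_pos (ℓ x) with h0 | hpos
    · simp [h0]
    · exact Nat.mul_le_mul_right _ (key x hx hpos).le
  rw [map_add] at hN
  omega

section
variable {k : ℕ}

/-- Vectors of pairs (input exponents, output exponents). -/
abbrev Vec (k : ℕ) := (Fin k → ℕ) × (Fin k → ℕ)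

/-- constant vectors -/
def Dg (k : ℕ) : Set (Fin k → ℕ) := {u | ∀ i j, u i = u j}

/-- The pairs with at most one nonzero input and at most one nonzero output coordinate. -/
def Cell (k : ℕ) : Set (Vec k) :=
  {a | (∃ i, ∀ i', i' ≠ i → a.1 i' = 0) ∧ (∃ j, ∀ j', j' ≠ j → a.2 j' = 0)}

/-- output coordinate -/
def out (j : Fin k) : Vec k →+ ℕ := (Pi.evalAddMonoidHom (fun _ => ℕ) j).comp (AddMonoidHom.snd _ _)
/-- input coordinate -/
def inp (j : Fin k) : Vec k →+ ℕ := (Pi.evalAddMonoidHom (fun _ => ℕ) j).comp (AddMonoidHom.fst _ _)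

@[simp] theorem out_apply (j : Fin k) (a : Vec k) : out j a = a.2 j := rfl
@[simp] theorem inp_apply (j : Fin k) (a : Vec k) : inp j a = a.1 j := rfl


/-- if a cell-type period has `q.2 j > 0` then `s • q.2` is a single. -/
theorem cell_smul_out {q : Vec k} (hq : q ∈ Cell k) {j : Fin k} (hj : 0 < q.2 j) (s : ℕ) :
    s • q.2 = Pi.single j (s * q.2 j) := by
  obtain ⟨-, j0, hj0⟩ := hq
  have : j = j0 := by
    by_contra h
    exact absurd (hj0 j h) hj.ne'
  subst this
  funext l
  by_cases hl : l = j
  · subst hl; simp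
  · simp [hj0 l hl, Pi.single_eq_of_ne hl]

theorem cell_inp {q : Vec k} (hq : q ∈ Cell k) {i i' : Fin k} (hi : 0 < q.1 i) (hi' : 0 < q.1 i') :
    i = i' := by
  obtain ⟨⟨i0, hi0⟩, -⟩ := hq
  have h1 : i = i0 := by
    by_contra h
    exact absurd (hi0 i h) hi.ne'
  have h2 : i' = i0 := by
    by_contra h
    exact absurd (hi0 i' h) hi'.ne'
  rw [h1, h2]

theorem cell_out {q : Vec k} (hq : q ∈ Cell k) {i i' : Fin k} (hi : 0 < q.2 i) (hi' : 0 < q.2 i') :
    i = i' := by
  obtain ⟨-, ⟨i0, hi0⟩⟩ := hq
  have h1 : i = i0 := by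
    by_contra h
    exact absurd (hi0 i h) hi.ne'
  have h2 : i' = i0 := by
    by_contra h
    exact absurd (hi0 i' h) hi'.ne'
  rw [h1, h2]

/-- Case II: if the inputs are bounded on all the pairs of the pieces with output outside `V`,
then `V` is eventually periodic in each coordinate. -/
theorem per_of_bounded (F : Finset (Vec k × Finset (Vec k)))
    (hF : ∀ p ∈ F, ∀ q ∈ p.2, q ∈ Cell k)
    (V : Set (Fin k → ℕ))
    (hV : ∀ v, v ∈ V ↔ ∃ u, u ∉ Dg k ∧ ∃ p ∈ F, ((u, v) : Vec k) ∈ Lin p.1 (p.2 : Set (Vec k)))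
    (B : ℕ) (hB : ∀ p ∈ F, ∀ a ∈ Lin p.1 (p.2 : Set (Vec k)), a.2 ∉ V → ∀ i, a.1 i ≤ B) :
    ∃ N m, 0 < m ∧ Per N m V := by
  classical
  -- the common period
  obtain ⟨m, hm, hdvd⟩ : ∃ m : ℕ, 0 < m ∧ ∀ p ∈ F, ∀ q ∈ p.2, ∀ j, 0 < q.2 j → q.2 j ∣ m := by
    refine ⟨∏ p ∈ F, ∏ q ∈ p.2, ∏ j, (if q.2 j = 0 then 1 else q.2 j), ?_, ?_⟩
    · refine Finset.prod_pos fun p _ => Finset.prod_pos fun q _ => Finset.prod_pos fun j _ => ?_
      split_ifs with h
      · exact one_pos
      · exact Nat.pos_of_ne_zero h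
    · intro p hp q hq j hj
      refine dvd_trans ?_ (Finset.dvd_prod_of_mem _ hp)
      refine dvd_trans ?_ (Finset.dvd_prod_of_mem _ hq)
      refine dvd_trans ?_ (Finset.dvd_prod_of_mem _ (Finset.mem_univ j))
      simp [hj.ne']
  set N' : ℕ := B + m + 1 with hN'
  -- the threshold
  obtain ⟨N, hN⟩ : ∃ N : ℕ, ∀ p ∈ F, ∀ j : Fin k, out j p.1 + N' * ∑ q ∈ p.2, out j q < N := by
    refine ⟨∑ p ∈ F, ∑ j, (out j p.1 + N' * ∑ q ∈ p.2, out j q) + 1, ?_⟩
    intro p hp j
    have h1 : (out j p.1 + N' * ∑ q ∈ p.2, out j q) ≤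
        ∑ j, (out j p.1 + N' * ∑ q ∈ p.2, out j q) :=
      Finset.single_le_sum (f := fun j => (out j p.1 + N' * ∑ q ∈ p.2, out j q))
        (fun _ _ => Nat.zero_le _) (Finset.mem_univ j)
    have h2 : (∑ j, (out j p.1 + N' * ∑ q ∈ p.2, out j q)) ≤
        ∑ p ∈ F, ∑ j, (out j p.1 + N' * ∑ q ∈ p.2, out j q) :=
      Finset.single_le_sum (f := fun p : Vec k × Finset (Vec k) =>
        ∑ j, (out j p.1 + N' * ∑ q ∈ p.2, out j q)) (fun _ _ => Nat.zero_le _) hp
    omega
  refine ⟨N, m, hm, ?_⟩
  intro j v hv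
  constructor
  · intro hvV
    by_contra hnot
    obtain ⟨u, hu, p, hp, hmem⟩ := (hV v).1 hvV
    obtain ⟨q, hq, hqj, a1, ha1, heq⟩ := usage p.1 p.2 (out j) N' (u, v) hmem
      (lt_of_lt_of_le (hN p hp j) hv)
    have hqj' : 0 < q.2 j := hqj
    obtain ⟨s, hs⟩ := hdvd p hp q hq j hqj'
    have hmem2 := lin_add s hmem (Finset.mem_coe.2 hq)
    have hout : (((u, v) : Vec k) + s • q).2 = v + Pi.single j m := by
      have := cell_smul_out (hF p hp q hq) hqj' s
      rw [Prod.snd_add, Prod.smul_snd, this, hs, mul_comm]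
    have hbd := hB p hp _ hmem2 (by rw [hout]; exact hnot)
    have hD : (((u, v) : Vec k) + s • q).1 ∈ Dg k := by
      by_contra hnD
      apply hnot
      rw [hV]
      exact ⟨_, hnD, p, hp, by rw [← hout]; exact hmem2⟩
    by_cases hq1 : ∀ i, q.1 i = 0
    · apply hu
      have : (((u, v) : Vec k) + s • q).1 = u := by
        funext i
        simp [hq1 i]
      rwa [this] at hD
    · push Not at hq1
      obtain ⟨i, hi⟩ := hq1
      have h1 := hbd i
      rw [heq] at h1
      simp only [Prod.fst_add, Prod.smul_fst, Pi.add_apply, Pi.smul_apply, smul_eq_mul] at h1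
      have h2 : N' ≤ N' * q.1 i := Nat.le_mul_of_pos_right _ (Nat.pos_of_ne_zero hi)
      omega
  · intro hvV
    by_contra hnot
    obtain ⟨u, hu, p, hp, hmem⟩ := (hV _).1 hvV
    obtain ⟨q, hq, hqj, a1, ha1, heq⟩ := usage p.1 p.2 (out j) N' (u, v + Pi.single j m) hmem
      (lt_of_lt_of_le (hN p hp j) (by simp; omega))
    have hqj' : 0 < q.2 j := hqj
    obtain ⟨s, hs⟩ := hdvd p hp q hq j hqj'
    have hsm : s ≤ m := by
      rw [hs]; exact Nat.le_mul_of_pos_left _ hqj'
    have hmem2 := lin_add (N' - s) ha1 (Finset.mem_coe.2 hq)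
    have heq2 : ((u, v + Pi.single j m) : Vec k) = (a1 + (N' - s) • q) + s • q := by
      rw [heq, add_assoc, ← add_smul, Nat.sub_add_cancel (by omega)]
    have hout : (a1 + (N' - s) • q).2 = v := by
      have h3 := congrArg Prod.snd heq2
      have h4 := cell_smul_out (hF p hp q hq) hqj' s
      rw [Prod.snd_add, Prod.smul_snd, h4] at h3
      have h5 : s * q.2 j = m := by rw [hs, mul_comm]
      rw [h5] at h3
      exact (add_right_cancel h3).symm
    have hbd := hB p hp _ hmem2 (by rw [hout]; exact hnot)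
    have hD : (a1 + (N' - s) • q).1 ∈ Dg k := by
      by_contra hnD
      apply hnot
      rw [hV]
      exact ⟨_, hnD, p, hp, by rw [← hout]; exact hmem2⟩
    by_cases hq1 : ∀ i, q.1 i = 0
    · apply hu
      have : (a1 + (N' - s) • q).1 = u := by
        have h3 := congrArg Prod.fst heq2
        funext i
        have h4 := congrFun h3 i
        simp only [Prod.fst_add, Prod.smul_fst, Pi.add_apply, Pi.smul_apply, smul_eq_mul, hq1 i,
          mul_zero, add_zero] at h4 ⊢
        exact h4.symm
      rwa [this] at hD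
    · push Not at hq1
      obtain ⟨i, hi⟩ := hq1
      have h1 := hbd i
      simp only [Prod.fst_add, Prod.smul_fst, Pi.add_apply, Pi.smul_apply, smul_eq_mul] at h1
      have h2 : N' - s ≤ (N' - s) * q.1 i := Nat.le_mul_of_pos_right _ (Nat.pos_of_ne_zero hi)
      omega


/-- A semilinear set of pairs with unbounded inputs contains a ray whose direction has a nonzero
input part. -/
theorem exists_ray {Y : Set (Vec k)} (hY : IsSemilinearSet Y)
    (hunb : ∀ B : ℕ, ∃ a ∈ Y, ∃ i, B < a.1 i) :
    ∃ a g : Vec k, g.1 ≠ 0 ∧ ∀ n : ℕ, a + n • g ∈ Y := by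
  classical
  rw [isSemilinearSet_iff] at hY
  obtain ⟨S, hS, rfl⟩ := hY
  by_contra hcon
  push Not at hcon
  -- each linear piece has bounded inputs
  have hb : ∀ t ∈ S, ∃ B : ℕ, ∀ a ∈ t, ∀ i, a.1 i ≤ B := by
    intro t ht
    obtain ⟨c, T, hT⟩ := isLinearSet_iff.1 (hS t ht)
    have hT0 : ∀ g ∈ T, g.1 = 0 := by
      intro g hg
      by_contra hne
      obtain ⟨n, hn⟩ := hcon c g hne
      apply hn
      refine Set.mem_sUnion.2 ⟨t, ht, ?_⟩
      rw [hT]
      exact ⟨n • g, nsmul_mem (subset_closure hg) n, rfl⟩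
    refine ⟨∑ i, c.1 i, ?_⟩
    intro a ha i
    rw [hT] at ha
    obtain ⟨b, hb, rfl⟩ := ha
    have hb0 : b.1 = 0 := by
      have : b ∈ AddSubmonoid.closure (T : Set (Vec k)) := hb
      clear hb
      induction this using closure_induction with
      | mem x hx => exact hT0 x hx
      | zero => rfl
      | add x y _ _ hx hy => rw [Prod.fst_add, hx, hy, add_zero]
    simp only [vadd_eq_add, Prod.fst_add, hb0, add_zero]
    exact Finset.single_le_sum (f := fun i => c.1 i) (fun _ _ => Nat.zero_le _) (Finset.mem_univ i)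
  choose! B hB using hb
  obtain ⟨a, ha, i, hi⟩ := hunb (∑ t ∈ S, B t)
  obtain ⟨t, ht, hat⟩ := Set.mem_sUnion.1 ha
  have h1 := hB t ht a hat i
  have h2 : B t ≤ ∑ t ∈ S, B t :=
    Finset.single_le_sum (f := fun t => B t) (fun _ _ => Nat.zero_le _) ht
  omega

/-- Case I: one piece contains a ray outside `V` with nonzero input direction. -/
theorem line_of_ray (hk : 2 ≤ k) (c : Vec k) (t : Finset (Vec k)) (ht : ∀ q ∈ t, q ∈ Cell k)
    (V : Set (Fin k → ℕ))
    (hV : ∀ u v, ((u, v) : Vec k) ∈ Lin c (t : Set (Vec k)) → u ∉ Dg k → v ∈ V)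
    (a0 g : Vec k) (hg : g.1 ≠ 0)
    (hray : ∀ n : ℕ, a0 + n • g ∈ Lin c (t : Set (Vec k)) ∧ (a0 + n • g).2 ∉ V) :
    ∃ v0 w : Fin k → ℕ, (∀ j, 0 < w j) ∧
      ∀ n : Fin k → ℕ, (fun j => v0 j + w j * n j) ∈ V ↔ n ∉ Dg k := by
  classical
  have hother : ∀ i : Fin k, ∃ l : Fin k, l ≠ i := by
    intro i
    have : Nontrivial (Fin k) := Fin.nontrivial_iff_two_le.2 hk
    exact exists_ne i
  -- every pair of the piece with output outside `V` has constant input
  have hVD : ∀ a ∈ Lin c (t : Set (Vec k)), a.2 ∉ V → a.1 ∈ Dg k := by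
    intro a ha hna
    by_contra hnD
    exact hna (hV a.1 a.2 ha hnD)
  have hD : ∀ n : ℕ, (a0 + n • g).1 ∈ Dg k := fun n => hVD _ (hray n).1 (hray n).2
  -- the input part of `g` is a positive constant
  have hD0 : a0.1 ∈ Dg k := by simpa using hD 0
  have hD1 : (a0 + g).1 ∈ Dg k := by simpa using hD 1
  have hgD : g.1 ∈ Dg k := by
    intro i j
    have h0 := hD0 i j
    have h1 := hD1 i j
    simp only [Prod.fst_add, Pi.add_apply] at h1
    omega
  have hgpos : ∀ i, 0 < g.1 i := by
    intro i
    rcases Nat.eq_zero_or_pos (g.1 i) with h | h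
    · exfalso
      apply hg
      funext j
      rw [hgD j i, h]; rfl
    · exact h
  -- free periods have no input
  have hfree : ∀ q ∈ t, q.2 = 0 → q.1 = 0 := by
    intro q hq hq2
    have h0 := hray 0
    simp only [zero_smul, add_zero] at h0
    have h1 := lin_add 1 h0.1 (Finset.mem_coe.2 hq)
    rw [one_smul] at h1
    have h2 := hVD _ h1 (by rw [Prod.snd_add, hq2, add_zero]; exact h0.2)
    funext i
    by_contra hne
    have hpos : 0 < q.1 i := Nat.pos_of_ne_zero hne
    obtain ⟨l, hl⟩ := hother i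
    have h3 := h2 i l
    have h4 := hD0 i l
    have h5 : q.1 l = 0 := by
      by_contra hne2
      exact hl (cell_inp (ht q hq) (Nat.pos_of_ne_zero hne2) hpos)
    simp only [Prod.fst_add, Pi.add_apply, h5] at h3
    omega
  -- a common multiple and bound
  obtain ⟨m, hm, hdvd⟩ : ∃ m : ℕ, 0 < m ∧ ∀ q ∈ t, ∀ j, 0 < q.2 j → q.2 j ∣ m := by
    refine ⟨∏ q ∈ t, ∏ j, (if q.2 j = 0 then 1 else q.2 j), ?_, ?_⟩
    · refine Finset.prod_pos fun q _ => Finset.prod_pos fun j _ => ?_
      split_ifs with h
      · exact one_pos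
      · exact Nat.pos_of_ne_zero h
    · intro q hq j hj
      refine dvd_trans ?_ (Finset.dvd_prod_of_mem _ hq)
      refine dvd_trans ?_ (Finset.dvd_prod_of_mem _ (Finset.mem_univ j))
      simp [hj.ne']
  -- for each row a period that is used many times far out on the ray
  have hrow : ∀ i : Fin k, ∃ q ∈ t, 0 < q.1 i ∧ ∃ n : ℕ, ∃ a1 ∈ Lin c (t : Set (Vec k)),
      a0 + n • g = a1 + m • q := by
    intro i
    set n : ℕ := inp i c + m * ∑ q ∈ t, inp i q + 1 with hn
    obtain ⟨q, hq, hqi, a1, ha1, heq⟩ := usage c t (inp i) m (a0 + n • g) (hray n).1 (by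
      have h1 : 0 < g.1 i := hgpos i
      have h2 : n ≤ n * g.1 i := Nat.le_mul_of_pos_right _ h1
      simp only [inp_apply, Prod.fst_add, Prod.smul_fst, Pi.add_apply, Pi.smul_apply, smul_eq_mul]
      simp only [inp_apply] at hn
      omega)
    exact ⟨q, hq, hqi, n, a1, ha1, heq⟩
  choose qq hqt hqi nn aa haa heq using hrow
  have hcol : ∀ i : Fin k, ∃ j, 0 < (qq i).2 j := by
    intro i
    by_contra hno
    push Not at hno
    have h1 : (qq i).2 = 0 := by
      funext j
      exact Nat.le_zero.1 (hno j)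
    have h2 := hfree _ (hqt i) h1
    have h3 := hqi i
    rw [h2] at h3
    exact absurd h3 (lt_irrefl _)
  choose jj hjj using hcol
  -- trading
  have htrade : ∀ i : Fin k, ∀ q ∈ t, 0 < q.2 (jj i) →
      q.2 (jj i) • (qq i).1 = (qq i).2 (jj i) • q.1 := by
    intro i q hq hpos
    set β := q.2 (jj i) with hβ
    set α := (qq i).2 (jj i) with hα
    have hβm : β ≤ m := Nat.le_of_dvd hm (hdvd q hq _ hpos)
    have hmem : aa i + (m - β) • qq i + α • q ∈ Lin c (t : Set (Vec k)) :=
      lin_add α (lin_add _ (haa i) (Finset.mem_coe.2 (hqt i))) (Finset.mem_coe.2 hq)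
    have hsum : (aa i + (m - β) • qq i + α • q) + β • qq i = (a0 + nn i • g) + α • q := by
      rw [heq i]
      have : m • qq i = (m - β) • qq i + β • qq i := by
        rw [← add_smul, Nat.sub_add_cancel hβm]
      rw [this]
      abel
    have h2 : (aa i + (m - β) • qq i + α • q).2 = (a0 + nn i • g).2 := by
      have h3 := congrArg Prod.snd hsum
      rw [Prod.snd_add, Prod.snd_add (a0 + nn i • g), Prod.smul_snd, Prod.smul_snd,
        cell_smul_out (ht _ (hqt i)) (hjj i) β, cell_smul_out (ht _ hq) hpos α,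
        ← hα, ← hβ, mul_comm β α] at h3
      exact add_right_cancel h3
    have hDa := hVD _ hmem (by rw [h2]; exact (hray (nn i)).2)
    have hDb := hD (nn i)
    have hs : ∀ l, (aa i + (m - β) • qq i + α • q).1 l + β * (qq i).1 l
        = (a0 + nn i • g).1 l + α * q.1 l := by
      intro l
      have h3 := congrFun (congrArg Prod.fst hsum) l
      rw [Prod.fst_add, Prod.fst_add (a0 + nn i • g), Prod.smul_fst, Prod.smul_fst] at h3
      simpa only [Pi.add_apply, Pi.smul_apply, smul_eq_mul] using h3
    have hqiz : ∀ l, l ≠ i → (qq i).1 l = 0 := by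
      intro l hl
      by_contra hne
      exact hl (cell_inp (ht _ (hqt i)) (Nat.pos_of_ne_zero hne) (hqi i))
    -- the two constants agree
    have hconst : ∀ l, (aa i + (m - β) • qq i + α • q).1 l = (a0 + nn i • g).1 l := by
      intro l
      have hβpos : 0 < β := hpos
      have hαpos : 0 < α := hjj i
      by_cases hq0 : ∀ l', l' ≠ i → q.1 l' = 0
      · obtain ⟨l', hl'⟩ := hother i
        have h3 := hs l'
        rw [hqiz l' hl', hq0 l' hl', mul_zero, mul_zero, add_zero, add_zero] at h3
        rw [hDa l l', hDb l l']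
        exact h3
      · exfalso
        push Not at hq0
        obtain ⟨l', hl', hne⟩ := hq0
        have hl'pos : 0 < q.1 l' := Nat.pos_of_ne_zero hne
        have hqi0 : q.1 i = 0 := by
          by_contra hne2
          exact hl' (cell_inp (ht _ hq) hl'pos (Nat.pos_of_ne_zero hne2))
        have h3 := hs i
        have h4 := hs l'
        rw [hqi0, mul_zero, add_zero] at h3
        rw [hqiz l' hl', mul_zero, add_zero, hDa l' i, hDb l' i] at h4
        have h5 : 0 < β * (qq i).1 i := Nat.mul_pos hβpos (hqi i)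
        have h6 : 0 < α * q.1 l' := Nat.mul_pos hαpos hl'pos
        omega
    funext l
    have h3 := hs l
    rw [hconst l] at h3
    simpa only [Pi.smul_apply, smul_eq_mul] using Nat.add_left_cancel h3
  -- rows and columns are in bijection
  have hinj : Function.Injective jj := by
    intro i i' h
    have h1 : 0 < (qq i').2 (jj i) := by rw [h]; exact hjj i'
    have h2 := htrade i (qq i') (hqt i') h1
    have h3 := congrFun h2 i
    simp only [Pi.smul_apply, smul_eq_mul] at h3
    have h4 : 0 < (qq i').2 (jj i) * (qq i).1 i := Nat.mul_pos h1 (hqi i)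
    rw [h3] at h4
    have h5 : 0 < (qq i').1 i := Nat.pos_of_mul_pos_left h4
    exact cell_inp (ht _ (hqt i')) h5 (hqi i')
  have hbij : Function.Bijective jj := Finite.injective_iff_bijective.1 hinj
  -- the ratio relation on all of the closure
  have hrel : ∀ i : Fin k, ∀ b ∈ AddSubmonoid.closure (t : Set (Vec k)),
      (qq i).2 (jj i) * b.1 i = (qq i).1 i * b.2 (jj i) := by
    intro i b hb
    induction hb using closure_induction with
    | mem q hq =>
      rcases Nat.eq_zero_or_pos (q.2 (jj i)) with h0 | hpos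
      · have : q.1 i = 0 := by
          by_contra hne
          have hq1 : 0 < q.1 i := Nat.pos_of_ne_zero hne
          have : q.2 ≠ 0 := by
            intro h
            have := hfree q hq h
            rw [this] at hq1
            exact absurd hq1 (lt_irrefl _)
          obtain ⟨j', hj'⟩ : ∃ j', 0 < q.2 j' := by
            by_contra hno
            push Not at hno
            exact this (funext fun j => Nat.le_zero.1 (hno j))
          obtain ⟨i', rfl⟩ := hbij.2 j'
          have h2 := htrade i' q hq hj'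
          have h3 := congrFun h2 i
          simp only [Pi.smul_apply, smul_eq_mul] at h3
          have h4 : 0 < (qq i').2 (jj i') * q.1 i := Nat.mul_pos (hjj i') hq1
          rw [← h3] at h4
          have h5 : 0 < (qq i').1 i := Nat.pos_of_mul_pos_left h4
          have h6 := cell_inp (ht _ (hqt i')) h5 (hqi i')
          subst h6
          omega
        rw [this, h0]; simp
      · have h2 := htrade i q hq hpos
        have h3 := congrFun h2 i
        simp only [Pi.smul_apply, smul_eq_mul] at h3
        rw [← h3, mul_comm]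
    | zero => simp
    | add x y _ _ hx hy =>
      simp only [Prod.fst_add, Prod.snd_add, Pi.add_apply, mul_add, hx, hy]
  have hgrel : ∀ i : Fin k, (qq i).2 (jj i) * g.1 i = (qq i).1 i * g.2 (jj i) := by
    intro i
    obtain ⟨b0, hb0, h0⟩ := (hray 0).1
    obtain ⟨b1, hb1, h1⟩ := (hray 1).1
    rw [zero_smul, add_zero] at h0
    rw [one_smul, h0, add_assoc] at h1
    have h2 : b0 + g = b1 := add_left_cancel h1
    have h3 := hrel i b0 hb0
    have h4 := hrel i b1 hb1
    rw [← h2] at h4
    simp only [Prod.fst_add, Prod.snd_add, Pi.add_apply, mul_add] at h4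
    omega
  have hg2pos : ∀ j, 0 < g.2 j := by
    intro j
    obtain ⟨i, rfl⟩ := hbij.2 j
    have h1 := hgrel i
    have h2 : 0 < (qq i).2 (jj i) * g.1 i := Nat.mul_pos (hjj i) (hgpos i)
    rw [h1] at h2
    exact Nat.pos_of_mul_pos_left h2
  refine ⟨a0.2, fun j => m * g.2 j, fun j => Nat.mul_pos hm (hg2pos j), ?_⟩
  intro n
  constructor
  · -- on the diagonal the word is outside `V`
    intro hin hn
    obtain ⟨i0⟩ : Nonempty (Fin k) := ⟨⟨0, by omega⟩⟩
    have h1 := (hray (n i0 * m)).2
    apply h1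
    convert hin using 1
    funext j
    simp only [Prod.snd_add, Prod.smul_snd, Pi.add_apply, Pi.smul_apply, smul_eq_mul]
    rw [hn j i0]
    ring
  · intro hn
    -- multiplicities
    have hdv : ∀ i, ∃ d, m = (qq i).2 (jj i) * d := fun i => hdvd _ (hqt i) _ (hjj i)
    choose dd hdd using hdv
    set s : Fin k → ℕ := fun i => n (jj i) * (dd i * g.2 (jj i)) with hs
    have hmem : a0 + ∑ i, s i • qq i ∈ Lin c (t : Set (Vec k)) := by
      obtain ⟨b, hb, h0⟩ := (hray 0).1
      rw [zero_smul, add_zero] at h0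
      refine ⟨b + ∑ i, s i • qq i, add_mem hb (sum_mem fun i _ =>
        nsmul_mem (subset_closure (Finset.mem_coe.2 (hqt i))) _), ?_⟩
      rw [h0, add_assoc]
    have h2 : (a0 + ∑ i, s i • qq i).2 = fun j => a0.2 j + m * g.2 j * n j := by
      funext j
      obtain ⟨i, rfl⟩ := hbij.2 j
      rw [Prod.snd_add, Pi.add_apply, Prod.snd_sum, Finset.sum_apply]
      rw [Finset.sum_eq_single i]
      · simp only [Prod.smul_snd, Pi.smul_apply, smul_eq_mul, hs]
        rw [hdd i]
        ring
      · intro i' _ hne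
        simp only [Prod.smul_snd, Pi.smul_apply, smul_eq_mul]
        have : (qq i').2 (jj i) = 0 := by
          by_contra hne2
          have := cell_out (ht _ (hqt i')) (Nat.pos_of_ne_zero hne2) (hjj i')
          exact hne (hinj this).symm
        rw [this, mul_zero]
      · intro h; exact absurd (Finset.mem_univ i) h
    have h1 : ∀ i, (a0 + ∑ i, s i • qq i).1 i = a0.1 i + n (jj i) * (m * g.1 i) := by
      intro i
      rw [Prod.fst_add, Pi.add_apply, Prod.fst_sum, Finset.sum_apply]
      rw [Finset.sum_eq_single i]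
      · simp only [Prod.smul_fst, Pi.smul_apply, smul_eq_mul, hs]
        have h3 := hgrel i
        have h4 : m * g.1 i = dd i * ((qq i).1 i * g.2 (jj i)) := by
          rw [← h3, hdd i]; ring
        rw [h4]
        ring
      · intro i' _ hne
        simp only [Prod.smul_fst, Pi.smul_apply, smul_eq_mul]
        have : (qq i').1 i = 0 := by
          by_contra hne2
          have := cell_inp (ht _ (hqt i')) (Nat.pos_of_ne_zero hne2) (hqi i')
          exact hne this.symm
        rw [this, mul_zero]
      · intro h; exact absurd (Finset.mem_univ i) h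
    refine hV (a0 + ∑ i, s i • qq i).1 _ ?_ ?_
    · rw [← h2]; exact hmem
    · intro hDD
      apply hn
      intro j j'
      obtain ⟨i, rfl⟩ := hbij.2 j
      obtain ⟨i', rfl⟩ := hbij.2 j'
      have h3 := hDD i i'
      rw [h1, h1, hD0 i i', hgD i i'] at h3
      have h4 : 0 < m * g.1 i' := Nat.mul_pos hm (hgpos i')
      exact Nat.eq_of_mul_eq_mul_right h4 (Nat.add_left_cancel h3)


theorem dg_semilinear : IsSemilinearSet (Dg k) := by
  have : Dg k = (AddSubmonoid.closure ({fun _ => 1} : Set (Fin k → ℕ)) : Set (Fin k → ℕ)) := by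
    ext u
    rw [SetLike.mem_coe, AddSubmonoid.mem_closure_singleton]
    constructor
    · intro h
      rcases Nat.eq_zero_or_pos k with hk | hk
      · subst hk
        exact ⟨0, funext fun i => i.elim0⟩
      · refine ⟨u ⟨0, hk⟩, funext fun i => ?_⟩
        simp only [Pi.smul_apply, smul_eq_mul, mul_one]
        exact h _ _
    · rintro ⟨n, rfl⟩ i j
      rfl
  rw [this]
  exact IsSemilinearSet.closure_of_finite (Set.finite_singleton _)

theorem dichotomy (hk : 2 ≤ k) (F : Finset (Vec k × Finset (Vec k)))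
    (hF : ∀ p ∈ F, ∀ q ∈ p.2, q ∈ Cell k) (V : Set (Fin k → ℕ))
    (hV : ∀ v, v ∈ V ↔ ∃ u, u ∉ Dg k ∧ ∃ p ∈ F, ((u, v) : Vec k) ∈ Lin p.1 (p.2 : Set (Vec k))) :
    (∃ v0 w : Fin k → ℕ, (∀ j, 0 < w j) ∧
      ∀ n : Fin k → ℕ, (fun j => v0 j + w j * n j) ∈ V ↔ n ∉ Dg k) ∨
    ∃ N m, 0 < m ∧ Per N m V := by
  classical
  by_cases hB : ∃ B : ℕ, ∀ p ∈ F, ∀ a ∈ Lin p.1 (p.2 : Set (Vec k)), a.2 ∉ V → ∀ i, a.1 i ≤ B
  · obtain ⟨B, hB⟩ := hB
    exact Or.inr (per_of_bounded F hF V hV B hB)
  · left
    -- one piece has unbounded inputs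
    obtain ⟨p, hp, hunb⟩ : ∃ p ∈ F, ∀ B : ℕ, ∃ a ∈ Lin p.1 (p.2 : Set (Vec k)),
        a.2 ∉ V ∧ ∃ i, B < a.1 i := by
      by_contra hno
      push Not at hno
      choose! B hBB using hno
      apply hB
      refine ⟨∑ p ∈ F, B p, ?_⟩
      intro p hp a ha hna i
      have h1 := hBB p hp a ha hna i
      have h2 : B p ≤ ∑ p ∈ F, B p :=
        Finset.single_le_sum (f := fun p => B p) (fun _ _ => Nat.zero_le _) hp
      omega
    -- semilinearity
    have hLin : ∀ p : Vec k × Finset (Vec k), IsSemilinearSet (Lin p.1 (p.2 : Set (Vec k))) := by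
      intro p
      rw [lin_eq_vadd]
      exact IsLinearSet.isSemilinearSet ⟨p.1, _, p.2.finite_toSet, rfl⟩
    have hVs : IsSemilinearSet V := by
      have : V = (AddMonoidHom.snd (Fin k → ℕ) (Fin k → ℕ)) ''
          ((⋃ p ∈ F, Lin p.1 (p.2 : Set (Vec k))) ∩
            ((AddMonoidHom.fst (Fin k → ℕ) (Fin k → ℕ)) ⁻¹' (Dg k))ᶜ) := by
        ext v
        rw [hV]
        constructor
        · rintro ⟨u, hu, p, hp, hm⟩
          exact ⟨(u, v), ⟨Set.mem_biUnion hp hm, hu⟩, rfl⟩
        · rintro ⟨⟨u, v'⟩, ⟨hm, hu⟩, rfl⟩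
          obtain ⟨p, hp, hm⟩ := Set.mem_iUnion₂.1 hm
          exact ⟨u, hu, p, hp, hm⟩
      rw [this]
      refine IsSemilinearSet.image (IsSemilinearSet.inter ?_ ?_) _
      · exact IsSemilinearSet.biUnion_finset fun p _ => hLin p
      · exact (IsSemilinearSet.preimage dg_semilinear _).compl
    have hY : IsSemilinearSet (Lin p.1 (p.2 : Set (Vec k)) ∩
        ((AddMonoidHom.snd (Fin k → ℕ) (Fin k → ℕ)) ⁻¹' Vᶜ)) :=
      (hLin p).inter (hVs.compl.preimage _)
    obtain ⟨a0, g, hg, hray⟩ := exists_ray hY (by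
      intro B
      obtain ⟨a, ha, hna, i, hi⟩ := hunb B
      exact ⟨a, ⟨ha, hna⟩, i, hi⟩)
    exact line_of_ray hk p.1 p.2 (hF p hp) V (fun u v h hu => (hV v).2 ⟨u, hu, p, hp, h⟩) a0 g hg
      (fun n => ⟨(hray n).1, (hray n).2⟩)


end

/-! ### sorted words -/

theorem blockWord_eq {Y : Type} {k : ℕ} (w : Fin k → List Y) (n : Fin k → ℕ) :
    blockWord w n = (List.finRange k).flatMap (fun j => (List.replicate (n j) (w j)).flatten) := by
  rw [blockWord, List.ofFn_eq_map, List.flatMap_def]

theorem blockWord_letters {k : ℕ} (n : Fin k → ℕ) :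
    blockWord (fun j => [j]) n = (List.finRange k).flatMap (fun j => List.replicate (n j) j) := by
  rw [blockWord_eq]
  simp only [List.flatten_replicate_singleton]

theorem blockWord_sorted {k : ℕ} (n : Fin k → ℕ) :
    (blockWord (fun j => [j]) n).Pairwise (· ≤ ·) := by
  rw [blockWord_letters, List.pairwise_flatMap]
  refine ⟨fun a _ => ?_, ?_⟩
  · rw [List.pairwise_replicate]
    exact Or.inr le_rfl
  · refine (List.pairwise_lt_finRange k).imp ?_
    intro a b hab x hx y hy
    rw [List.eq_of_mem_replicate hx, List.eq_of_mem_replicate hy]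
    exact hab.le

theorem blockWord_count {k : ℕ} (n : Fin k → ℕ) (i : Fin k) :
    (blockWord (fun j => [j]) n).count i = n i := by
  rw [blockWord_letters, List.count_flatMap, ← Fin.sum_univ_def]
  simp [Function.comp_apply, List.count_replicate, Finset.sum_ite_eq']

theorem sorted_eq_blockWord {k : ℕ} {x : List (Fin k)} (hx : x.Pairwise (· ≤ ·)) :
    x = blockWord (fun j => [j]) (fun i => x.count i) := by
  refine List.Perm.eq_of_pairwise (le := (· ≤ ·)) (fun a b _ _ h1 h2 => le_antisymm h1 h2) hx
    (blockWord_sorted _) ?_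
  rw [List.perm_iff_count]
  intro a
  rw [blockWord_count]

theorem blockWord_flatMap {Y : Type} {k : ℕ} (w : Fin k → List Y) (n : Fin k → ℕ) :
    (blockWord (fun j => [j]) n).flatMap w = blockWord w n := by
  rw [blockWord_letters, List.flatMap_assoc, blockWord_eq]
  simp only [List.flatMap_replicate]

theorem not_dg_iff {k : ℕ} (n : Fin k → ℕ) :
    n ∉ Dg k ↔ ∃ (j : ℕ) (hj : j + 1 < k), n ⟨j, Nat.lt_of_succ_lt hj⟩ ≠ n ⟨j + 1, hj⟩ := by
  constructor
  · intro h
    by_contra hno
    push Not at hno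
    apply h
    have key : ∀ (j : ℕ) (hj : j < k), n ⟨j, hj⟩ = n ⟨0, by omega⟩ := by
      intro j
      induction j with
      | zero => intro _; rfl
      | succ j ih => intro hj; rw [← hno j hj, ih]
    intro i j
    rw [key i.1 i.2, key j.1 j.2]
  · rintro ⟨j, hj, hne⟩ h
    exact hne (h _ _)

theorem mem_SNeq_iff {k : ℕ} (x : List (Fin k)) :
    x ∈ SNeq k ↔ x.Pairwise (· ≤ ·) ∧ (fun i => x.count i) ∉ Dg k := by
  constructor
  · rintro ⟨n, rfl, hn⟩
    refine ⟨blockWord_sorted n, ?_⟩
    simp only [blockWord_count]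
    exact (not_dg_iff n).2 hn
  · rintro ⟨h1, h2⟩
    exact ⟨_, sorted_eq_blockWord h1, (not_dg_iff _).1 h2⟩

/-! ### the two halves of the theorem -/

/-- The set of pairs (input exponents, output exponents) of a rational relation between
`a_1^* ⋯ a_k^*` and `b_1^* ⋯ b_k^*`. -/
theorem structure_of_transduction {k : ℕ} (hk : 2 ≤ k) {L : Language (Fin k)}
    (hL : InCone (SNeq k) L) :
    ∃ F : Finset (Vec k × Finset (Vec k)), (∀ p ∈ F, ∀ q ∈ p.2, q ∈ Cell k) ∧
      ∀ v : Fin k → ℕ, blockWord (fun j => [j]) v ∈ L ↔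
        ∃ u, u ∉ Dg k ∧ ∃ p ∈ F, ((u, v) : Vec k) ∈ Lin p.1 (p.2 : Set (Vec k)) := by
  classical
  obtain ⟨Z, _, h, g, R, hR, e⟩ := hL
  have hreg : Language.IsRegular ((R ⊓ ({z | z.flatMap h ∈ ({x | x.Pairwise (· ≤ ·)} :
      Language (Fin k))} : Language Z)) ⊓ ({z | z.flatMap g ∈ ({x | x.Pairwise (· ≤ ·)} :
      Language (Fin k))} : Language Z)) :=
    (hR.inf (reg_comap h (reg_sorted (Fin k)))).inf (reg_comap g (reg_sorted (Fin k)))
  obtain ⟨σ, _, M, hM⟩ := hreg
  have hMmem : ∀ z, z ∈ M.accepts ↔ (z ∈ R ∧ (z.flatMap h).Pairwise (· ≤ ·)) ∧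
      (z.flatMap g).Pairwise (· ≤ ·) := by
    intro z
    rw [hM]
    exact Iff.rfl
  set f : Z → Vec k := fun z => (fun i => (h z).count i, fun i => (g z).count i) with hf
  have hsum : ∀ z : List Z, (z.map f).sum =
      (fun i => (z.flatMap h).count i, fun i => (z.flatMap g).count i) := by
    intro z
    induction z with
    | nil => rfl
    | cons c z ih =>
      rw [List.map_cons, List.sum_cons, ih]
      simp only [hf, List.flatMap_cons, List.count_append]
      rfl
  have hconst : ∀ u : List (Fin k), (u ++ u).Pairwise (· ≤ ·) →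
      ∃ i, ∀ i', i' ≠ i → u.count i' = 0 := by
    intro u hu
    rw [List.pairwise_append] at hu
    cases u with
    | nil => exact ⟨⟨0, by omega⟩, fun i' _ => rfl⟩
    | cons a u =>
      refine ⟨a, fun i' hi' => ?_⟩
      rw [List.count_eq_zero]
      intro hmem
      have h1 := hu.2.2 i' hmem a List.mem_cons_self
      have h2 := hu.2.2 a List.mem_cons_self i' hmem
      exact hi' (le_antisymm h1 h2)
  obtain ⟨F, hF, hFe⟩ := dfa_omSL M f (Cell k) (by
    intro x z y _ _ hacc _
    rw [hMmem] at hacc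
    obtain ⟨⟨-, h1⟩, h2⟩ := hacc
    rw [hsum]
    simp only [List.flatMap_append] at h1 h2
    rw [List.append_assoc (x.flatMap h ++ z.flatMap h), List.append_assoc (x.flatMap h),
      ← List.append_assoc (z.flatMap h)] at h1
    rw [List.append_assoc (x.flatMap g ++ z.flatMap g), List.append_assoc (x.flatMap g),
      ← List.append_assoc (z.flatMap g)] at h2
    exact ⟨hconst _ (List.pairwise_append.1 (List.pairwise_append.1 h1).2.1).1,
      hconst _ (List.pairwise_append.1 (List.pairwise_append.1 h2).2.1).1⟩)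
  refine ⟨F, hF, ?_⟩
  intro v
  rw [e]
  constructor
  · rintro ⟨z, hz, hzS, hzv⟩
    rw [mem_SNeq_iff] at hzS
    refine ⟨_, hzS.2, ?_⟩
    rw [← hFe]
    refine ⟨z, (hMmem z).2 ⟨⟨hz, hzS.1⟩, by rw [hzv]; exact blockWord_sorted v⟩, ?_⟩
    rw [hsum, hzv]
    simp only [blockWord_count]
  · rintro ⟨u, hu, hp⟩
    rw [← hFe] at hp
    obtain ⟨z, hz, hzs⟩ := hp
    rw [hMmem] at hz
    rw [hsum] at hzs
    have h1 : (fun i => (z.flatMap h).count i) = u := congrArg Prod.fst hzs
    have h2 : (fun i => (z.flatMap g).count i) = v := congrArg Prod.snd hzs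
    refine ⟨z, hz.1.1, ?_, ?_⟩
    · rw [mem_SNeq_iff, h1]
      exact ⟨hz.1.2, hu⟩
    · rw [sorted_eq_blockWord hz.2, h2]

/-- If `V` is eventually periodic then the corresponding bounded language is regular. -/
theorem regular_of_per {k : ℕ} {L : Language (Fin k)} (hLs : ∀ x ∈ L, x.Pairwise (· ≤ ·))
    {N m : ℕ} (hm : 0 < m) (hper : Per N m {v : Fin k → ℕ | blockWord (fun j => [j]) v ∈ L}) :
    L.IsRegular := by
  have h := (reg_sorted (Fin k)).inf (reg_count hm hper)
  have heq : L = ({x | x.Pairwise (· ≤ ·)} : Language (Fin k)) ⊓ ({x | (fun i => x.count i) ∈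
      {v : Fin k → ℕ | blockWord (fun j => [j]) v ∈ L}} : Language (Fin k)) := by
   ext x
   constructor
   · intro hx
     refine ⟨hLs x hx, ?_⟩
     change blockWord (fun j => [j]) (fun i => x.count i) ∈ L
     rw [← sorted_eq_blockWord (hLs x hx)]
     exact hx
   · rintro ⟨h1, h2⟩
     have h1' : x.Pairwise (· ≤ ·) := h1
     have h2' : blockWord (fun j => [j]) (fun i => x.count i) ∈ L := h2
     rw [← sorted_eq_blockWord h1'] at h2'
     exact h2'
  rw [heq]
  exact h

/-- If the pattern of `S_≠^{(k)}` appears in `L`, then `S_≠^{(k)}` belongs to `T(L)`. -/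
theorem inCone_of_pattern {k : ℕ} {L : Language (Fin k)}
    (v0 w : Fin k → ℕ) (hw : ∀ j, 0 < w j)
    (hpat : ∀ n : Fin k → ℕ, blockWord (fun j => [j]) (fun j => v0 j + w j * n j) ∈ L ↔ n ∉ Dg k) :
    InCone L (SNeq k) := by
  classical
  set h : Fin k × Bool → List (Fin k) :=
    fun c => if c.2 = true then List.replicate (w c.1) c.1 else [c.1] with hh
  set g : Fin k × Bool → List (Fin k) := fun c => if c.2 = true then [c.1] else [] with hg
  have hh0 : ∀ j, h (j, false) = [j] := fun j => by simp [hh]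
  have hh1 : ∀ j, h (j, true) = List.replicate (w j) j := fun j => by simp [hh]
  have hg0 : ∀ j, g (j, false) = [] := fun j => by simp [hg]
  have hg1 : ∀ j, g (j, true) = [j] := fun j => by simp [hg]
  have hcnt : ∀ (z : List (Fin k × Bool)) (j : Fin k),
      (z.flatMap h).count j = z.count (j, false) + w j * z.count (j, true) ∧
      (z.flatMap g).count j = z.count (j, true) := by
    intro z j
    induction z with
    | nil => simp
    | cons c z ih =>
      rw [List.flatMap_cons, List.flatMap_cons, List.count_append, List.count_append, ih.1, ih.2]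
      obtain ⟨a, b⟩ := c
      cases b with
      | false =>
        rw [hh0, hg0]
        by_cases ha : a = j
        · subst ha
          simp only [List.count_cons, List.count_nil, beq_self_eq_true, if_true, Prod.mk.injEq,
            true_and, beq_iff_eq, Bool.false_eq_true, if_false, Nat.add_zero, Nat.zero_add]
          exact ⟨by ring, trivial⟩
        · simp only [List.count_cons, List.count_nil, beq_iff_eq, ha, if_false, Prod.mk.injEq,
            false_and, Nat.add_zero, Nat.zero_add]
          exact ⟨trivial, trivial⟩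
      | true =>
        rw [hh1, hg1]
        by_cases ha : a = j
        · subst ha
          simp only [List.count_cons, List.count_nil, beq_self_eq_true, if_true, Prod.mk.injEq,
            true_and, beq_iff_eq, Bool.true_eq_false, if_false, Nat.add_zero, Nat.zero_add,
            List.count_replicate]
          constructor <;> ring
        · simp only [List.count_cons, List.count_nil, beq_iff_eq, ha, if_false, Prod.mk.injEq,
            false_and, Nat.add_zero, Nat.zero_add, List.count_replicate]
          exact ⟨trivial, trivial⟩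
  have hreg2 : Language.IsRegular ({z | (fun c => z.count c) ∈
      {v : Fin k × Bool → ℕ | ∀ j, v (j, false) = v0 j}} : Language (Fin k × Bool)) := by
    refine reg_count (N := ∑ j, v0 j + 1) (m := 1) one_pos ?_
    intro c v hv
    obtain ⟨a, b⟩ := c
    cases b with
    | false =>
      have h1 : v0 a ≤ ∑ j, v0 j := Finset.single_le_sum (f := fun j => v0 j)
        (fun _ _ => Nat.zero_le _) (Finset.mem_univ a)
      constructor
      · intro hmem
        have := hmem a
        omega
      · intro hmem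
        have := hmem a
        simp only [Pi.add_apply, Pi.single_eq_same] at this
        omega
    | true =>
      change (∀ j, v (j, false) = v0 j) ↔
        (∀ j, v (j, false) + Pi.single (M := fun _ => ℕ) (a, true) 1 (j, false) = v0 j)
      simp
  refine ⟨Fin k × Bool, inferInstance, h, g,
    ({z | z.flatMap h ∈ ({x | x.Pairwise (· ≤ ·)} : Language (Fin k))} :
      Language (Fin k × Bool)) ⊓ ({z | (fun c => z.count c) ∈
      {v : Fin k × Bool → ℕ | ∀ j, v (j, false) = v0 j}} : Language (Fin k × Bool)),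
    (reg_comap h (reg_sorted (Fin k))).inf hreg2, ?_⟩
  intro v
  constructor
  · intro hv
    rw [mem_SNeq_iff] at hv
    obtain ⟨hvs, hvD⟩ := hv
    set n : Fin k → ℕ := fun i => v.count i with hn
    have hv' : v = blockWord (fun j => [j]) n := sorted_eq_blockWord hvs
    set z : List (Fin k × Bool) := (List.finRange k).flatMap
      (fun j => List.replicate (v0 j) (j, false) ++ List.replicate (n j) (j, true)) with hz
    have hzh : z.flatMap h = blockWord (fun j => [j]) (fun j => v0 j + w j * n j) := by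
      rw [hz, List.flatMap_assoc, blockWord_letters]
      congr 1
      funext j
      rw [List.flatMap_append, List.flatMap_replicate, List.flatMap_replicate, hh0, hh1]
      simp only [List.flatten_replicate_singleton,
        List.flatten_replicate_replicate, List.replicate_append_replicate, mul_comm (n j)]
    have hzg : z.flatMap g = blockWord (fun j => [j]) n := by
      rw [hz, List.flatMap_assoc, blockWord_letters]
      congr 1
      funext j
      rw [List.flatMap_append, List.flatMap_replicate, List.flatMap_replicate, hg0, hg1]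
      simp only [List.flatten_replicate_singleton,
        List.flatten_replicate_nil, List.nil_append]
    refine ⟨z, ⟨?_, ?_⟩, ?_, ?_⟩
    · change (z.flatMap h).Pairwise (· ≤ ·)
      rw [hzh]
      exact blockWord_sorted _
    · intro j
      have h1 := (hcnt z j).1
      rw [hzh, blockWord_count] at h1
      have h2 := (hcnt z j).2
      rw [hzg, blockWord_count] at h2
      rw [← h2] at h1
      change z.count (j, false) = v0 j
      omega
    · rw [hzh, hpat]
      exact hvD
    · rw [hzg, hv']
  · rintro ⟨z, ⟨hz1, hz2⟩, hzL, rfl⟩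
    have hz1' : (z.flatMap h).Pairwise (· ≤ ·) := hz1
    have hz2' : ∀ j, z.count (j, false) = v0 j := hz2
    rw [mem_SNeq_iff]
    have h3 : z.flatMap h = blockWord (fun j => [j])
        (fun j => v0 j + w j * z.count (j, true)) := by
      rw [sorted_eq_blockWord hz1']
      congr 1
      funext j
      rw [(hcnt z j).1, hz2']
    constructor
    · rw [List.pairwise_flatMap] at hz1' ⊢
      constructor
      · rintro ⟨a, b⟩ _
        cases b with
        | false => rw [hg0]; exact List.Pairwise.nil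
        | true => rw [hg1]; exact List.pairwise_singleton _ _
      · refine hz1'.2.imp ?_
        rintro ⟨a, b⟩ ⟨a', b'⟩ hab x hx y hy
        cases b with
        | false => rw [hg0] at hx; simp at hx
        | true =>
          cases b' with
          | false => rw [hg0] at hy; simp at hy
          | true =>
            rw [hg1, List.mem_singleton] at hx hy
            subst hx hy
            apply hab
            · rw [hh1]; simp [(hw x).ne']
            · rw [hh1]; simp [(hw y).ne']
    · rw [h3, hpat] at hzL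
      have : (fun i => (z.flatMap g).count i) = fun j => z.count (j, true) := by
        funext j
        exact (hcnt z j).2
      rw [this]
      exact hzL

/-- **Main theorem.**  Every bounded language of degree `k ≥ 2` in the rational cone generated by
`S_≠^{(k)}` is regular or generates this cone.  (The language is not assumed to be algebraic.) -/
theorem main (k : ℕ) (hk : 2 ≤ k) (Y : Type) [Finite Y] (L : Language Y)
    (hbd : BoundedOfDegree k L) (hL : InCone (SNeq k) L) :
    L.IsRegular ∨ SameCone L (SNeq k) := by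
  classical
  obtain ⟨w, hw⟩ := hbd
  -- the strictly bounded copy of `L`
  set L1 : Language (Fin k) := {x | x.Pairwise (· ≤ ·) ∧ x.flatMap w ∈ L} with hL1
  have hL1s : ∀ x ∈ L1, x.Pairwise (· ≤ ·) := fun x hx => hx.1
  have hLL1 : InCone L L1 := by
    refine ⟨Fin k, inferInstance, w, fun j => [j], {x | x.Pairwise (· ≤ ·)},
      reg_sorted (Fin k), ?_⟩
    intro v
    constructor
    · rintro ⟨h1, h2⟩
      exact ⟨v, h1, h2, List.flatMap_singleton' v⟩
    · rintro ⟨z, h1, h2, rfl⟩
      rw [List.flatMap_singleton']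
      exact ⟨h1, h2⟩
  obtain ⟨F, hF, hFe⟩ := structure_of_transduction hk (hL.trans hLL1)
  rcases dichotomy hk F hF {v | blockWord (fun j => [j]) v ∈ L1} hFe with
    ⟨v0, w0, hw0, hpat⟩ | ⟨N, m, hm, hper⟩
  · right
    have h1 : InCone L (SNeq k) := hLL1.trans (inCone_of_pattern v0 w0 hw0 hpat)
    intro W _ J
    exact ⟨fun h => hL.trans h, fun h => h1.trans h⟩
  · left
    have hreg := regular_of_per hL1s hm hper
    have hreg2 := reg_map w hreg
    have heq : L = ({y | ∃ z ∈ L1, z.flatMap w = y} : Language Y) := by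
     ext y
     constructor
     · intro hy
       obtain ⟨n, rfl⟩ := hw y hy
       refine ⟨blockWord (fun j => [j]) n, ⟨blockWord_sorted n, ?_⟩, blockWord_flatMap w n⟩
       rw [blockWord_flatMap]
       exact hy
     · rintro ⟨z, hz, rfl⟩
       exact hz.2
    rw [heq]
    exact hreg2

end Pool.Agent.H77.Cone
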