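import Pool.Agent.H77.ChowDefs

/-!
# Koszul filtrations give linear resolutions
-/

namespace H77.Chow

open Matrix

section KF

variable {A : Type*} [CommRing A] [Algebra ℚ A] (𝒜 : ℕ → Submodule ℚ A)

/-- Projections onto the graded pieces. -/
structure GrProj (p : ℕ → A →ₗ[ℚ] A) : Prop where
  mem : ∀ i a, p i a ∈ 𝒜 i
  self : ∀ i a, a ∈ 𝒜 i → p i a = a
  mul : ∀ i a b, b ∈ 𝒜 1 → p (i + 1) (a * b) = p i a * b
  mul_mem : ∀ a b, a ∈ 𝒜 1 → b ∈ 𝒜 1 → a * b ∈ 𝒜 2

/-- A Koszul filtration. -/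
def IsKF (𝓕 : Set (Ideal A)) : Prop :=
  ∀ I ∈ 𝓕, ∃ (k : ℕ) (c : Fin k → A), (∀ r, c r ∈ 𝒜 1) ∧ I = Ideal.span (Set.range c) ∧
    ∀ r, ∃ C ∈ 𝓕, ∀ a, a ∈ C ↔ a * c r ∈ Ideal.span (c '' Set.Iio r)

variable {𝒜}

/-- The inductive property of the syzygy modules. -/
def Good (𝒜 : ℕ → Submodule ℚ A) (𝓕 : Set (Ideal A)) (n : ℕ) (N : Submodule A (Fin n → A)) :
    Prop :=
  ∃ r : Fin n → ℕ, Function.Injective r ∧ ∀ j, ∃ I ∈ 𝓕,
    (∀ v ∈ N, (∀ i, r i < r j → v i = 0) → v j ∈ I) ∧
    (∀ x ∈ I, x ∈ 𝒜 1 → ∃ g ∈ N, (∀ i, g i ∈ 𝒜 1) ∧ (∀ i, r i < r j → g i = 0) ∧ g j = x)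

lemma exists_linear_coeff {p : ℕ → A →ₗ[ℚ] A} (hp : GrProj 𝒜 p) {k : ℕ} (c : Fin k → A)
    (hc : ∀ r, c r ∈ 𝒜 1) (S : Set (Fin k)) (y : A) (hy : y ∈ 𝒜 2)
    (h : y ∈ Ideal.span (c '' S)) :
    ∃ b : Fin k → A, (∀ r, b r ∈ 𝒜 1) ∧ (∀ r, r ∉ S → b r = 0) ∧ y = ∑ r, b r * c r := by
  classical
  have key : ∃ b : Fin k → A, (∀ r, r ∉ S → b r = 0) ∧ y = ∑ r, b r * c r := by
    refine Submodule.span_induction (p := fun y _ => ∃ b : Fin k → A,
      (∀ r, r ∉ S → b r = 0) ∧ y = ∑ r, b r * c r) ?_ ?_ ?_ ?_ h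
    · rintro x ⟨r, hr, rfl⟩
      refine ⟨Pi.single r 1, ?_, ?_⟩
      · intro r' hr'
        rw [Pi.single_apply, if_neg]
        rintro rfl
        exact hr' hr
      · simp [Pi.single_apply]
    · exact ⟨0, by simp, by simp⟩
    · rintro x y _ _ ⟨b, hb, rfl⟩ ⟨b', hb', rfl⟩
      refine ⟨b + b', ?_, ?_⟩
      · intro r hr
        simp [hb r hr, hb' r hr]
      · simp [add_mul, Finset.sum_add_distrib]
    · rintro a x _ ⟨b, hb, rfl⟩
      refine ⟨a • b, ?_, ?_⟩
      · intro r hr
        simp [hb r hr]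
      · simp [Finset.mul_sum, mul_assoc]
  obtain ⟨b, hb, hy'⟩ := key
  refine ⟨fun r => p 1 (b r), fun r => hp.mem _ _, fun r hr => by simp [hb r hr], ?_⟩
  conv_lhs => rw [← hp.self 2 y hy, hy', map_sum]
  refine Finset.sum_congr rfl fun r _ => ?_
  exact hp.mul 1 _ _ (hc r)

/-- One step of the construction of the resolution. -/
theorem Good.step {p : ℕ → A →ₗ[ℚ] A} (hp : GrProj 𝒜 p) {𝓕 : Set (Ideal A)}
    (hF : IsKF 𝒜 𝓕) {n : ℕ} {N : Submodule A (Fin n → A)} (hN : Good 𝒜 𝓕 n N) :
    ∃ (m : ℕ) (φ : Matrix (Fin m) (Fin n) A), (∀ r c, φ r c ∈ 𝒜 1) ∧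
      (∀ v, v ∈ N ↔ ∃ u, u ᵥ* φ = v) ∧ Good 𝒜 𝓕 m (LinearMap.ker φ.vecMulLinear) := by
  classical
  obtain ⟨r, hr, hI⟩ := hN
  choose I hIF hI1 hI2 using hI
  choose k c hc hIc hC using fun j => hF (I j) (hIF j)
  have hcI : ∀ j s, c j s ∈ I j := by
    intro j s
    have : c j s ∈ Ideal.span (Set.range (c j)) := Ideal.subset_span ⟨s, rfl⟩
    rwa [← hIc j] at this
  choose g hgN hg1 hg0 hgj using fun j s => hI2 j (c j s) (hcI j s) (hc j s)
  choose C hCF hCm using hC
  -- the index type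
  let ι := Σ j : Fin n, Fin (k j)
  let φ' : ι → Fin n → A := fun x => g x.1 x.2
  -- the combination map
  let Φ : (ι → A) →ₗ[A] (Fin n → A) := Fintype.linearCombination A φ'
  have hΦ : ∀ a i, Φ a i = ∑ x : ι, a x * φ' x i := by
    intro a i
    simp [Φ, Fintype.linearCombination_apply, Finset.sum_apply]
  have hsingle : ∀ (x : ι) (z : A), Φ (Pi.single x z) = z • φ' x := fun x z =>
    Fintype.linearCombination_apply_single A φ' x z
  have hΦN : ∀ a, Φ a ∈ N := by
    intro a
    simp only [Φ, Fintype.linearCombination_apply]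
    exact N.sum_mem fun x _ => N.smul_mem _ (hgN _ _)
  -- coefficient spaces
  let Cf : ℕ → Submodule A (ι → A) := fun t =>
    { carrier := {a | ∀ x : ι, r x.1 < t → a x = 0}
      add_mem' := by
        intro a b ha hb x hx
        simp [ha x hx, hb x hx]
      zero_mem' := by
        intro x _
        rfl
      smul_mem' := by
        intro s a ha x hx
        simp [ha x hx] }
  have hCf : ∀ t a, a ∈ Cf t ↔ ∀ x : ι, r x.1 < t → a x = 0 := fun t a => Iff.rfl
  obtain ⟨T, hT⟩ : ∃ T, ∀ j, r j < T := by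
    refine ⟨(Finset.univ.sup r) + 1, fun j => ?_⟩
    exact Nat.lt_succ_of_le (Finset.le_sup (f := r) (Finset.mem_univ j))
  -- generation
  have gen : ∀ d t, T ≤ t + d → ∀ u ∈ N, (∀ i, r i < t → u i = 0) → u ∈ (Cf t).map Φ := by
    intro d
    induction d with
    | zero =>
      intro t ht u _ hu0
      have : u = 0 := by
        funext i
        exact hu0 i (lt_of_lt_of_le (hT i) (by simpa using ht))
      rw [this]
      exact Submodule.zero_mem _
    | succ d ih =>
      intro t ht u hu hu0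
      have hle : (Cf (t + 1)).map Φ ≤ (Cf t).map Φ := by
        apply Submodule.map_mono
        intro a ha x hx
        exact ha x (Nat.lt_succ_of_lt hx)
      by_cases hj : ∃ j, r j = t
      · obtain ⟨j, rfl⟩ := hj
        have huj : u j ∈ I j := hI1 j u hu hu0
        have hx : ∃ b : Fin (k j) → A, u j = ∑ s, b s * c j s := by
          rw [hIc j] at huj
          obtain ⟨b, hb⟩ := (Ideal.mem_span_range_iff_exists_fun).1 huj
          exact ⟨b, hb.symm⟩
        obtain ⟨b, hb⟩ := hx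
        let w : Fin n → A := ∑ s, b s • g j s
        have hw : w ∈ N := N.sum_mem fun s _ => N.smul_mem _ (hgN _ _)
        have hwM : w ∈ (Cf (r j)).map Φ := by
          refine Submodule.sum_mem _ fun s _ => Submodule.smul_mem _ _ ?_
          refine ⟨Pi.single ⟨j, s⟩ 1, ?_, ?_⟩
          · intro x hx
            rw [Pi.single_apply, if_neg]
            rintro rfl
            exact lt_irrefl _ hx
          · rw [hsingle, one_smul]
        have hw' : u - w ∈ (Cf (r j + 1)).map Φ := by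
          refine ih (r j + 1) (by omega) (u - w) (N.sub_mem hu hw) ?_
          intro i hi
          have hwi : w i = ∑ s, b s * g j s i := by
            simp [w, Finset.sum_apply]
          rcases Nat.lt_succ_iff_lt_or_eq.1 hi with h | h
          · rw [Pi.sub_apply, hu0 i h, hwi]
            simp [hg0 j _ i h]
          · have hij : i = j := hr h
            subst hij
            rw [Pi.sub_apply, hwi, hb]
            simp [hgj]
        have : u = (u - w) + w := by simp
        rw [this]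
        exact Submodule.add_mem _ (hle hw') hwM
      · refine hle (ih (t + 1) (by omega) u hu ?_)
        intro i hi
        rcases Nat.lt_succ_iff_lt_or_eq.1 hi with h | h
        · exact hu0 i h
        · exact absurd ⟨i, h⟩ hj
  -- generation, graded
  have gen2 : ∀ t, ∀ u ∈ N, (∀ i, u i ∈ 𝒜 2) → (∀ i, r i < t → u i = 0) →
      ∃ a : ι → A, (∀ x, a x ∈ 𝒜 1) ∧ (∀ x : ι, r x.1 < t → a x = 0) ∧ Φ a = u := by
    intro t u hu hu2 hu0
    obtain ⟨a, ha, hau⟩ := gen T t (by omega) u hu hu0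
    refine ⟨fun x => p 1 (a x), fun x => hp.mem _ _, fun x hx => by simp [(hCf t a).1 ha x hx], ?_⟩
    funext i
    rw [hΦ]
    have : u i = p 2 (u i) := (hp.self 2 _ (hu2 i)).symm
    rw [this, ← hau, hΦ, map_sum]
    refine Finset.sum_congr rfl fun x _ => ?_
    exact (hp.mul 1 _ _ (hg1 _ _ _)).symm
  -- reindex
  let e := Fintype.equivFin ι
  let φ : Matrix (Fin (Fintype.card ι)) (Fin n) A := fun y i => φ' (e.symm y) i
  have hφ : ∀ u : Fin (Fintype.card ι) → A, u ᵥ* φ = Φ (fun x => u (e x)) := by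
    intro u
    funext i
    rw [hΦ, vecMul, dotProduct]
    rw [← e.sum_comp]
    simp [φ]
  obtain ⟨K, hK⟩ : ∃ K, ∀ j, k j < K := by
    refine ⟨(Finset.univ.sup k) + 1, fun j => ?_⟩
    exact Nat.lt_succ_of_le (Finset.le_sup (f := k) (Finset.mem_univ j))
  let ρ : ι → ℕ := fun x => r x.1 * K + (K - 1 - x.2.1)
  have hρlt : ∀ x y : ι, r x.1 < r y.1 → ρ x < ρ y := by
    intro x y hxy
    have h1 := hK x.1
    have h2 := x.2.2
    have : (r x.1 + 1) * K ≤ r y.1 * K := Nat.mul_le_mul_right _ hxy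
    have : r x.1 * K + K ≤ r y.1 * K := by linarith [this, add_mul (r x.1) 1 K]
    simp only [ρ]
    omega
  have hρlt2 : ∀ (j : Fin n) (s s' : Fin (k j)), s < s' → ρ ⟨j, s'⟩ < ρ ⟨j, s⟩ := by
    intro j s s' h
    have h1 := hK j
    have h2 := s'.2
    have h3 : s.1 < s'.1 := h
    simp only [ρ]
    omega
  have hρinj : Function.Injective ρ := by
    intro x y hxy
    have h1 : x.1 = y.1 := by
      by_contra hne
      rcases lt_or_gt_of_ne (fun h => hne (hr h) : r x.1 ≠ r y.1) with h | h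
      · exact absurd hxy (hρlt x y h).ne
      · exact absurd hxy (hρlt y x h).ne'
    obtain ⟨j, s⟩ := x
    obtain ⟨j', s'⟩ := y
    simp only at h1
    subst h1
    rcases lt_trichotomy s s' with h | h | h
    · exact absurd hxy (hρlt2 j s s' h).ne'
    · rw [h]
    · exact absurd hxy (hρlt2 j s' s h).ne
  refine ⟨Fintype.card ι, φ, fun y i => hg1 _ _ _, ?_, fun y => ρ (e.symm y), ?_, ?_⟩
  · intro v
    constructor
    · intro hv
      obtain ⟨a, _, hav⟩ := gen T 0 (by omega) v hv (by simp)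
      refine ⟨fun y => a (e.symm y), ?_⟩
      rw [hφ]
      simpa using hav
    · rintro ⟨u, rfl⟩
      rw [hφ]
      exact hΦN _
  · exact hρinj.comp e.symm.injective
  · intro y
    obtain ⟨⟨j, s⟩, rfl⟩ := e.surjective y
    refine ⟨C j s, hCF j s, ?_, ?_⟩
    · intro v hv hv0
      rw [LinearMap.mem_ker, Matrix.vecMulLinear_apply, hφ] at hv
      set a : ι → A := fun x => v (e x) with ha
      have ha0 : ∀ x : ι, ρ x < ρ ⟨j, s⟩ → a x = 0 := by
        intro x hx
        apply hv0
        simpa using hx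
      change a ⟨j, s⟩ ∈ C j s
      rw [hCm]
      have h0 : ∑ x : ι, a x * φ' x j = 0 := by
        rw [← hΦ, hv]
        rfl
      rw [Fintype.sum_sigma] at h0
      have h1 : ∀ j' : Fin n, j' ≠ j → ∑ s', a ⟨j', s'⟩ * φ' ⟨j', s'⟩ j = 0 := by
        intro j' hj'
        refine Finset.sum_eq_zero fun s' _ => ?_
        rcases lt_or_gt_of_ne (fun h => hj' (hr h) : r j' ≠ r j) with h | h
        · rw [ha0 ⟨j', s'⟩ (hρlt ⟨j', s'⟩ ⟨j, s⟩ h), zero_mul]
        · have : φ' ⟨j', s'⟩ j = 0 := hg0 j' s' j h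
          rw [this, mul_zero]
      rw [Finset.sum_eq_single j (fun j' _ hj' => h1 j' hj') (by simp)] at h0
      have h2 : ∀ s', φ' ⟨j, s'⟩ j = c j s' := fun s' => hgj j s'
      simp only [h2] at h0
      rw [← Finset.add_sum_erase _ _ (Finset.mem_univ s)] at h0
      rw [eq_neg_of_add_eq_zero_left h0]
      refine Submodule.neg_mem _ (Submodule.sum_mem _ fun s' hs' => ?_)
      have hne : s' ≠ s := (Finset.mem_erase.1 hs').1
      rcases lt_or_gt_of_ne hne with h | h
      · exact Ideal.mul_mem_left _ _ (Ideal.subset_span ⟨s', h, rfl⟩)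
      · rw [ha0 ⟨j, s'⟩ (hρlt2 j s s' h), zero_mul]
        exact Submodule.zero_mem _
    · intro d hd hd1
      have hdc : d * c j s ∈ Ideal.span (c j '' Set.Iio s) := (hCm j s d).1 hd
      obtain ⟨b, hb1, hb0, hbs⟩ := exists_linear_coeff hp (c j) (hc j) (Set.Iio s) (d * c j s)
        (hp.mul_mem _ _ hd1 (hc j s)) hdc
      let u : Fin n → A := d • g j s - ∑ s', b s' • g j s'
      have hui : ∀ i, u i = d * g j s i - ∑ s', b s' * g j s' i := by
        intro i
        simp [u, Finset.sum_apply]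
      have huN : u ∈ N := N.sub_mem (N.smul_mem _ (hgN _ _))
        (N.sum_mem fun s' _ => N.smul_mem _ (hgN _ _))
      have hu2 : ∀ i, u i ∈ 𝒜 2 := by
        intro i
        rw [hui]
        refine Submodule.sub_mem _ (hp.mul_mem _ _ hd1 (hg1 _ _ _)) (Submodule.sum_mem _ ?_)
        intro s' _
        exact hp.mul_mem _ _ (hb1 _) (hg1 _ _ _)
      have hu0 : ∀ i, r i < r j + 1 → u i = 0 := by
        intro i hi
        rw [hui]
        rcases Nat.lt_succ_iff_lt_or_eq.1 hi with h | h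
        · simp [hg0 j _ i h]
        · have hij : i = j := hr h
          subst hij
          simp only [hgj]
          rw [← hbs, sub_self]
      obtain ⟨a, ha1, ha0, hau⟩ := gen2 (r j + 1) u huN hu2 hu0
      -- the syzygy
      let w : ι → A := Pi.single ⟨j, s⟩ d - (∑ s', Pi.single ⟨j, s'⟩ (b s')) - a
      have hw : ∀ x : ι, w x = (if x = ⟨j, s⟩ then d else 0) -
          (∑ s', if x = ⟨j, s'⟩ then b s' else 0) - a x := by
        intro x
        simp [w, Pi.single_apply, Finset.sum_apply]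
      have hΦw : Φ w = 0 := by
        have e1 : ∀ (s' : Fin (k j)) (z : A), Φ (Pi.single ⟨j, s'⟩ z) = z • g j s' := by
          intro s' z
          exact hsingle _ _
        simp only [w, map_sub, map_sum, e1, hau]
        simp [u]
      refine ⟨fun y => w (e.symm y), ?_, ?_, ?_, ?_⟩
      · rw [LinearMap.mem_ker, Matrix.vecMulLinear_apply, hφ]
        simpa using hΦw
      · intro y
        simp only [hw]
        refine Submodule.sub_mem _ (Submodule.sub_mem _ ?_ (Submodule.sum_mem _ ?_)) (ha1 _)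
        · split_ifs
          · exact hd1
          · exact Submodule.zero_mem _
        · intro s' _
          split_ifs
          · exact hb1 _
          · exact Submodule.zero_mem _
      · intro y hy
        obtain ⟨x, rfl⟩ := e.surjective y
        simp only [Equiv.symm_apply_apply] at hy ⊢
        rw [hw]
        have hxne : x ≠ ⟨j, s⟩ := by
          rintro rfl
          exact lt_irrefl _ hy
        have hrx : r x.1 ≤ r j := by
          by_contra hcon
          push Not at hcon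
          have := hρlt ⟨j, s⟩ x hcon
          omega
        have hax : a x = 0 := ha0 x (Nat.lt_succ_of_le hrx)
        have hsum : (∑ s', if x = (⟨j, s'⟩ : ι) then b s' else 0) = 0 := by
          refine Finset.sum_eq_zero fun s' _ => ?_
          split_ifs with hx
          · apply hb0
            intro hs'
            have hs' : s' < s := hs'
            have := hρlt2 j s' s hs'
            rw [hx] at hy
            omega
          · rfl
        rw [if_neg hxne, hax, hsum]
        simp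
      · simp only [Equiv.symm_apply_apply]
        rw [hw, if_pos rfl]
        have hax : a ⟨j, s⟩ = 0 := ha0 ⟨j, s⟩ (Nat.lt_succ_self _)
        have hsum : (∑ s', if (⟨j, s⟩ : ι) = (⟨j, s'⟩ : ι) then b s' else 0) = b s := by
          rw [Finset.sum_eq_single s]
          · simp
          · intro s' _ hne
            rw [if_neg]
            intro h
            apply hne
            simpa using h.symm
          · simp
        rw [hax, hsum, hb0 s (by simp)]
        simp

/-- A Koszul filtration containing `A₊` gives Koszulness. -/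
theorem isKoszul_of_KF {p : ℕ → A →ₗ[ℚ] A} (hp : GrProj 𝒜 p) {𝓕 : Set (Ideal A)}
    (hF : IsKF 𝒜 𝓕) (htop : irrel 𝒜 ∈ 𝓕) : IsKoszul 𝒜 := by
  classical
  -- initial module
  let N0 : Submodule A (Fin 1 → A) :=
    { carrier := {v | ∀ c, v c ∈ irrel 𝒜}
      add_mem' := fun ha hb c => Ideal.add_mem _ (ha c) (hb c)
      zero_mem' := fun c => Ideal.zero_mem _
      smul_mem' := fun s a ha c => Ideal.mul_mem_left _ _ (ha c) }
  have hN0 : Good 𝒜 𝓕 1 N0 := by
    refine ⟨fun i => i, fun i j h => Fin.ext h, fun j => ⟨irrel 𝒜, htop, ?_, ?_⟩⟩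
    · intro v hv _
      exact hv j
    · intro x hx hx1
      refine ⟨fun _ => x, fun _ => hx, fun _ => hx1, ?_, rfl⟩
      intro i hi
      have : i = j := Subsingleton.elim _ _
      subst this
      exact absurd hi (lt_irrefl _)
  let St := Σ n : ℕ, {N : Submodule A (Fin n → A) // Good 𝒜 𝓕 n N}
  have hstep : ∀ S : St, ∃ (m : ℕ) (φ : Matrix (Fin m) (Fin S.1) A), (∀ r c, φ r c ∈ 𝒜 1) ∧
      (∀ v, v ∈ S.2.1 ↔ ∃ u, u ᵥ* φ = v) ∧ Good 𝒜 𝓕 m (LinearMap.ker φ.vecMulLinear) :=
    fun S => S.2.2.step hp hF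
  choose m φ h1 h2 h3 using hstep
  let next : St → St := fun S => ⟨m S, ⟨LinearMap.ker (φ S).vecMulLinear, h3 S⟩⟩
  let seq : ℕ → St := fun i => Nat.rec ⟨1, ⟨N0, hN0⟩⟩ (fun _ S => next S) i
  refine ⟨fun i => (seq i).1, fun i => φ (seq i), rfl, fun i => h1 _, ?_, ?_⟩
  · intro v
    exact h2 (seq 0) v
  · intro i v
    rw [← h2 (seq (i + 1)) v]
    change _ ↔ v ∈ LinearMap.ker (φ (seq i)).vecMulLinear
    rw [LinearMap.mem_ker, Matrix.vecMulLinear_apply]

end KF

end H77.Chow
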